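import Pool.Agent.TH658.Sos.Chars

/-!
# Invertible matrices from locally consistent affine systems
-/

set_option autoImplicit false
set_option linter.unusedSectionVars false

namespace Pool.Agent.TH658.Sos

open Finset Matrix

section orth

variable {N K : Type} [AddCommGroup N] [Fintype N] [Field K] [IsAlgClosed K]

/-- The group of characters is finite. -/
theorem finite_ch (hN : (Fintype.card N : K) ≠ 0) :
    HasEnoughRootsOfUnity K (Monoid.exponent (Multiplicative N)) := by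
  have hexp : Monoid.exponent (Multiplicative N) ∣ Fintype.card N := by
    rw [← Nat.card_eq_fintype_card]
    exact Group.exponent_dvd_nat_card (G := Multiplicative N)
  have hne : ((Monoid.exponent (Multiplicative N) : ℕ) : K) ≠ 0 := by
    intro h
    apply hN
    obtain ⟨c, hc⟩ := hexp
    rw [hc, Nat.cast_mul, h, zero_mul]
  have : NeZero ((Monoid.exponent (Multiplicative N) : ℕ) : K) := ⟨hne⟩
  infer_instance

open Classical in
theorem sum_ch (hN : (Fintype.card N : K) ≠ 0) [Fintype (Ch N K)] (z : N) :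
    ∑ φ : Ch N K, ch φ z = if z = 0 then (Fintype.card N : K) else 0 := by
  classical
  have := finite_ch hN
  have hcard : Fintype.card (Ch N K) = Fintype.card N := by
    rw [← Nat.card_eq_fintype_card, CommGroup.card_monoidHom_of_hasEnoughRootsOfUnity,
      Nat.card_eq_fintype_card, Fintype.card_multiplicative]
  by_cases hz : z = 0
  · subst hz
    rw [if_pos rfl]
    simp only [ch_zero]
    rw [Finset.sum_const, Finset.card_univ, hcard, nsmul_eq_mul, mul_one]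
  · rw [if_neg hz]
    obtain ⟨φ₀, h₀⟩ := CommGroup.exists_apply_ne_one_of_hasEnoughRootsOfUnity
      (Multiplicative N) K (a := Multiplicative.ofAdd z) (by
        intro h
        exact hz (by simpa using h))
    have h1 : ∑ φ : Ch N K, ch (φ₀ * φ) z = ∑ φ : Ch N K, ch φ z :=
      Fintype.sum_equiv (Equiv.mulLeft φ₀) _ _ fun φ => rfl
    simp only [ch_mul] at h1
    rw [← Finset.mul_sum] at h1
    have h2 : (ch φ₀ z - 1) * ∑ φ : Ch N K, ch φ z = 0 := by
      rw [sub_mul, h1, one_mul, sub_self]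
    rcases mul_eq_zero.1 h2 with h3 | h3
    · exfalso
      apply h₀
      exact Units.ext (sub_eq_zero.1 h3)
    · exact h3

theorem ch_neg_mul (φ : Ch N K) (x : N) : ch φ (-x) * ch φ x = 1 := by
  rw [← ch_add, neg_add_cancel, ch_zero]

theorem sum_ch_ne {χ χ' : Ch N K} (h : ∃ n, ch χ' n ≠ ch χ n) :
    ∑ t : N, ch χ (-t) * ch χ' t = 0 := by
  obtain ⟨n, hn⟩ := h
  have h1 : ∑ t : N, ch χ (-(n + t)) * ch χ' (n + t) = ∑ t : N, ch χ (-t) * ch χ' t :=
    Fintype.sum_equiv (Equiv.addLeft n) _ _ fun t => rfl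
  have h2 : ∀ t, ch χ (-(n + t)) * ch χ' (n + t) = (ch χ (-n) * ch χ' n) *
      (ch χ (-t) * ch χ' t) := by
    intro t
    rw [neg_add, ch_add, ch_add]
    ring
  rw [Finset.sum_congr rfl fun t _ => h2 t, ← Finset.mul_sum] at h1
  have h3 : (ch χ (-n) * ch χ' n - 1) * ∑ t : N, ch χ (-t) * ch χ' t = 0 := by
    rw [sub_mul, h1, one_mul, sub_self]
  rcases mul_eq_zero.1 h3 with h4 | h4
  · exfalso
    apply hn
    have h5 : ch χ (-n) * ch χ' n = 1 := sub_eq_zero.1 h4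
    have h6 := ch_neg_mul χ n
    exact mul_left_cancel₀ (ch_ne χ (-n)) (h5.trans h6.symm)
  · exact h4

theorem ch_ext {χ χ' : Ch N K} (h : ∀ n, ch χ' n = ch χ n) : χ' = χ :=
  MonoidHom.ext fun n => Units.ext (h (Multiplicative.toAdd n))

end orth

section comp

variable {N K Y : Type} [AddCommGroup N] [Fintype N] [Field K] [IsAlgClosed K]
  (g : N → Y → Y)

/-- The component of a function at a character. -/
noncomputable def comp (χ : Ch N K) (f : Y → K) (x : Y) : K :=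
  (Fintype.card N : K)⁻¹ * ∑ t : N, ch χ (-t) * f (g t x)

theorem sum_comp (hN : (Fintype.card N : K) ≠ 0) [Fintype (Ch N K)] (h0 : ∀ y, g 0 y = y)
    (f : Y → K) (x : Y) : ∑ χ : Ch N K, comp g χ f x = f x := by
  classical
  unfold comp
  rw [← Finset.mul_sum, Finset.sum_comm]
  simp only [← Finset.sum_mul]
  rw [Finset.sum_congr rfl fun t _ => by rw [sum_ch hN (-t)]]
  simp only [neg_eq_zero, ite_mul, zero_mul]
  rw [Finset.sum_ite_eq']
  simp only [Finset.mem_univ, if_true]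
  rw [h0, inv_mul_cancel_left₀ hN]

theorem comp_act (hadd : ∀ s t y, g (s + t) y = g s (g t y)) (χ : Ch N K) (f : Y → K) (h : N)
    (x : Y) : comp g χ f (g h x) = ch χ h * comp g χ f x := by
  unfold comp
  have h1 : ∑ t : N, ch χ (-t) * f (g t (g h x)) = ∑ t : N, ch χ (-(t + -h)) * f (g t x) := by
    refine Fintype.sum_equiv (Equiv.addRight h) _ _ fun t => ?_
    show ch χ (-t) * f (g t (g h x)) = ch χ (-(t + h + -h)) * f (g (t + h) x)
    rw [hadd, add_neg_cancel_right]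
  rw [h1]
  have h2 : ∀ t : N, ch χ (-(t + -h)) * f (g t x) = ch χ h * (ch χ (-t) * f (g t x)) := by
    intro t
    rw [neg_add, neg_neg, ch_add]
    ring
  rw [Finset.sum_congr rfl fun t _ => h2 t, ← Finset.mul_sum]
  ring

theorem comp_zero (hadd : ∀ s t y, g (s + t) y = g s (g t y)) (χ : Ch N K) (f : Y → K) (x : Y)
    {n : N} (h1 : g n x = x) (h2 : ch χ n ≠ 1) : comp g χ f x = 0 := by
  have h3 := comp_act g hadd χ f n x
  rw [h1] at h3
  have h4 : (1 - ch χ n) * comp g χ f x = 0 := by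
    rw [sub_mul, one_mul, ← h3, sub_self]
  rcases mul_eq_zero.1 h4 with h5 | h5
  · exact absurd (sub_eq_zero.1 h5).symm h2
  · exact h5

/-- The operator that multiplies the components by numbers. -/
noncomputable def sop [Fintype (Ch N K)] (s : Y → Ch N K → K) (f : Y → K) (x : Y) : K :=
  ∑ χ : Ch N K, s x χ * comp g χ f x

theorem comp_sop (hN : (Fintype.card N : K) ≠ 0) [Fintype (Ch N K)]
    (hadd : ∀ s t y, g (s + t) y = g s (g t y)) (s : Y → Ch N K → K)
    (hs : ∀ t x χ, s (g t x) χ = s x χ) (χ : Ch N K) (f : Y → K) (x : Y) :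
    comp g χ (sop g s f) x = s x χ * comp g χ f x := by
  classical
  unfold sop
  conv_lhs => unfold comp
  have h1 : ∀ t : N, ch χ (-t) * ∑ χ' : Ch N K, s (g t x) χ' * comp g χ' f (g t x) =
      ∑ χ' : Ch N K, (s x χ' * comp g χ' f x) * (ch χ (-t) * ch χ' t) := by
    intro t
    rw [Finset.mul_sum]
    refine Finset.sum_congr rfl fun χ' _ => ?_
    rw [hs, comp_act g hadd]
    ring
  have h1' : ∀ t : N, ch χ (-t) * ∑ χ' : Ch N K, s (g t x) χ' *
      ((Fintype.card N : K)⁻¹ * ∑ t' : N, ch χ' (-t') * f (g t' (g t x))) =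
      ∑ χ' : Ch N K, (s x χ' * comp g χ' f x) * (ch χ (-t) * ch χ' t) := h1
  rw [Finset.sum_congr rfl fun t _ => h1' t, Finset.sum_comm]
  simp only [← Finset.mul_sum]
  rw [Finset.sum_eq_single χ]
  · have h2 : ∑ t : N, ch χ (-t) * ch χ t = (Fintype.card N : K) := by
      simp only [ch_neg_mul]
      rw [Finset.sum_const, Finset.card_univ, nsmul_eq_mul, mul_one]
    rw [h2]
    field_simp
  · intro χ' _ hne
    rw [sum_ch_ne, mul_zero]
    by_contra hcon
    push Not at hcon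
    exact hne (ch_ext hcon)
  · intro h
    exact absurd (Finset.mem_univ _) h

/-- The coefficient of a matrix. -/
noncomputable def coef (C : Matrix Y Y K) (χ χ' : Ch N K) (x y : Y) : K :=
  (Fintype.card N : K)⁻¹ * ∑ t : N, ch χ (-t) * ch χ' t * C (g t x) (g t y)

theorem comp_mulVec (hN : (Fintype.card N : K) ≠ 0) [Fintype (Ch N K)] [Fintype Y]
    (h0 : ∀ y, g 0 y = y)
    (hadd : ∀ s t y, g (s + t) y = g s (g t y)) (C : Matrix Y Y K) (F : Y → K) (χ : Ch N K)
    (x : Y) : comp g χ (C *ᵥ F) x = ∑ y, ∑ χ' : Ch N K, coef g C χ χ' x y * comp g χ' F y := by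
  classical
  have hbij : ∀ t : N, Function.Bijective (g t) := fun t =>
    ⟨fun a b h => by
      have := congrArg (g (-t)) h
      rwa [← hadd, ← hadd, neg_add_cancel, h0, h0] at this,
    fun b => ⟨g (-t) b, by rw [← hadd, add_neg_cancel, h0]⟩⟩
  have h1 : ∀ t : N, ch χ (-t) * (C *ᵥ F) (g t x) =
      ∑ y, ∑ χ' : Ch N K, ch χ (-t) * ch χ' t * C (g t x) (g t y) * comp g χ' F y := by
    intro t
    have h2 : (C *ᵥ F) (g t x) = ∑ y, C (g t x) (g t y) * F (g t y) := by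
      show ∑ y, C (g t x) y * F y = _
      exact (Fintype.sum_bijective (g t) (hbij t) _ _ fun y => rfl).symm
    rw [h2, Finset.mul_sum]
    refine Finset.sum_congr rfl fun y _ => ?_
    rw [← sum_comp g hN h0 F (g t y), Finset.mul_sum, Finset.mul_sum]
    refine Finset.sum_congr rfl fun χ' _ => ?_
    rw [comp_act g hadd]
    ring
  have e1 : comp g χ (C *ᵥ F) x = (Fintype.card N : K)⁻¹ * ∑ t : N, ∑ y, ∑ χ' : Ch N K,
      ch χ (-t) * ch χ' t * C (g t x) (g t y) * comp g χ' F y := by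
    show (Fintype.card N : K)⁻¹ * ∑ t : N, ch χ (-t) * (C *ᵥ F) (g t x) = _
    rw [Finset.sum_congr rfl fun t _ => h1 t]
  rw [e1, Finset.sum_comm, Finset.mul_sum]
  refine Finset.sum_congr rfl fun y _ => ?_
  rw [Finset.sum_comm, Finset.mul_sum]
  refine Finset.sum_congr rfl fun χ' _ => ?_
  unfold coef
  rw [← Finset.sum_mul]
  ring

/-- Translation of the matrix. -/
theorem coef_shift (A B : Matrix Y Y K) (χ χ' : Ch N K) (x y : Y) (τ : N)
    (h : ∀ t, A (g t x) (g t y) = B (g (t + τ) x) (g (t + τ) y)) :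
    coef g A χ χ' x y = ch χ τ * ch χ' (-τ) * coef g B χ χ' x y := by
  unfold coef
  have h1 : ∑ t : N, ch χ (-t) * ch χ' t * A (g t x) (g t y) =
      ∑ t : N, ch χ (-(t + -τ)) * ch χ' (t + -τ) * B (g t x) (g t y) := by
    refine Fintype.sum_equiv (Equiv.addRight τ) _ _ fun t => ?_
    show ch χ (-t) * ch χ' t * A (g t x) (g t y) =
      ch χ (-(t + τ + -τ)) * ch χ' (t + τ + -τ) * B (g (t + τ) x) (g (t + τ) y)
    rw [add_neg_cancel_right, h]
  rw [h1]
  have h2 : ∀ t : N, ch χ (-(t + -τ)) * ch χ' (t + -τ) * B (g t x) (g t y) =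
      ch χ τ * ch χ' (-τ) * (ch χ (-t) * ch χ' t * B (g t x) (g t y)) := by
    intro t
    rw [neg_add, neg_neg, ch_add, ch_add]
    ring
  rw [Finset.sum_congr rfl fun t _ => h2 t, ← Finset.mul_sum]
  ring

end comp

section core

variable {X L K Y : Type} [AddCommGroup X] [Fintype X] [SemilatticeSup L] [OrderBot L]
  (S : Sys X L) [Field K] (g : X → Y → Y) (lv : Y → L)
  (W₀ : L) (M₀ : X) (r : ℕ)

/-- Pairs of a level and a character that occur. -/
def Rel (K : Type) [Field K] : Type :=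
  {a : L × Ch (S.N W₀) K // S.size a.1 ≤ r ∧ ∀ n : S.N W₀, (n : X) ∈ S.N a.1 → ch a.2 n = 1}

variable {S W₀ r}

/-- The equivalence of pairs. -/
def Eqv (a b : Rel S W₀ r K) : Prop :=
  ∀ h : S.N W₀, (h : X) ∈ S.D (W₀ ⊔ a.1.1 ⊔ b.1.1) → ch a.1.2 h = ch b.1.2 h

theorem size3 (hsz : S.size W₀ + 3 * r ≤ S.K) (a b c : Rel S W₀ r K) :
    S.size (W₀ ⊔ a.1.1 ⊔ b.1.1 ⊔ c.1.1) ≤ S.K := by
  have h1 := S.size_sup (W₀ ⊔ a.1.1 ⊔ b.1.1) c.1.1
  have h2 := S.size_sup (W₀ ⊔ a.1.1) b.1.1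
  have h3 := S.size_sup W₀ a.1.1
  have h4 := a.2.1
  have h5 := b.2.1
  have h6 := c.2.1
  omega

theorem eqv_trans (hsz : S.size W₀ + 3 * r ≤ S.K) {a b c : Rel S W₀ r K} (h1 : Eqv a b)
    (h2 : Eqv b c) : Eqv a c := by
  intro h hh
  obtain ⟨z', hz', hn⟩ := S.cover (W := W₀ ⊔ a.1.1 ⊔ c.1.1) (W' := W₀ ⊔ a.1.1 ⊔ b.1.1 ⊔ c.1.1)
    (sup_le (le_sup_left.trans le_sup_left) le_sup_right) (size3 hsz a b c) h hh
  have hn0 : (h : X) - z' ∈ S.N W₀ := S.N_anti _ _ (le_sup_left.trans le_sup_left) hn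
  have hz0 : z' ∈ S.N W₀ := by
    have : z' = (h : X) - ((h : X) - z') := by abel
    rw [this]
    exact (S.N W₀).sub_mem h.2 hn0
  let z : S.N W₀ := ⟨z', hz0⟩
  let w : S.N W₀ := ⟨(h : X) - z', hn0⟩
  have hzw : h = w + z := Subtype.ext (by
    show (h : X) = ((h : X) - z') + z'
    abel)
  have e1 : ch a.1.2 w = 1 := a.2.2 w (S.N_anti _ _ (le_sup_right.trans le_sup_left) hn)
  have e2 : ch c.1.2 w = 1 := c.2.2 w (S.N_anti _ _ le_sup_right hn)
  rw [hzw, ch_add, ch_add, e1, e2, one_mul, one_mul]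
  rw [h1 z (S.D_anti _ _ le_sup_left hz')]
  exact h2 z (S.D_anti _ _ (sup_le (sup_le (le_sup_left.trans (le_sup_left.trans le_sup_left))
    (le_sup_right.trans le_sup_left)) le_sup_right) hz')

theorem eqv_symm {a b : Rel S W₀ r K} (h1 : Eqv a b) : Eqv b a := by
  intro h hh
  refine (h1 h ?_).symm
  have : W₀ ⊔ a.1.1 ⊔ b.1.1 = W₀ ⊔ b.1.1 ⊔ a.1.1 := by
    rw [sup_assoc, sup_comm a.1.1, ← sup_assoc]
  rwa [this]

/-- The setoid. -/
def eqvS (hsz : S.size W₀ + 3 * r ≤ S.K) : Setoid (Rel S W₀ r K) where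
  r := Eqv
  iseqv := ⟨fun _ _ _ => rfl, fun h => eqv_symm h, fun h1 h2 => eqv_trans hsz h1 h2⟩

/-- The quotient does not depend on the solution. -/
theorem indep {a b : Rel S W₀ r K} (h : Eqv a b) {τ τ' : S.N W₀} {W : L}
    (hW : W₀ ⊔ a.1.1 ⊔ b.1.1 ≤ W)
    (h1 : M₀ + τ ∈ S.Sol (W₀ ⊔ a.1.1 ⊔ b.1.1)) (h2 : M₀ + τ' ∈ S.Sol W) :
    ch a.1.2 τ * ch b.1.2 (-τ) = ch a.1.2 τ' * ch b.1.2 (-τ') := by
  have h3 := S.Sol_anti _ _ hW h2
  have h4 := (S.sol_iff _ _ _ h1).1 h3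
  have h5 := h (τ' - τ) (by
    have : ((τ' - τ : S.N W₀) : X) = (M₀ + τ') - (M₀ + τ) := by
      show (τ' : X) - τ = _
      abel
    rw [this]
    exact h4)
  have k1 : ch a.1.2 τ' = ch b.1.2 (τ' - τ) * ch a.1.2 τ := by
    rw [← h5, ← ch_add, sub_add_cancel]
  have k2 : ch b.1.2 (-τ') = ch b.1.2 (-(τ' - τ)) * ch b.1.2 (-τ) := by
    rw [← ch_add]
    congr 1
    abel
  have h6 : ch b.1.2 (τ' - τ) * ch b.1.2 (-(τ' - τ)) = 1 := by
    rw [← ch_add, add_neg_cancel, ch_zero]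
  rw [k1, k2]
  calc ch a.1.2 τ * ch b.1.2 (-τ) = (ch b.1.2 (τ' - τ) * ch b.1.2 (-(τ' - τ))) *
        (ch a.1.2 τ * ch b.1.2 (-τ)) := by rw [h6, one_mul]
    _ = _ := by ring

/-- Solutions of larger levels. -/
theorem exists_tau (hM : M₀ ∈ S.Sol W₀) {W : L} (h0 : W₀ ≤ W) (hW : S.size W ≤ S.K) :
    ∃ τ : S.N W₀, M₀ + τ ∈ S.Sol W := by
  obtain ⟨M', hM', hn⟩ := S.extend W₀ W h0 hW M₀ hM
  refine ⟨⟨M' - M₀, hn⟩, ?_⟩
  show M₀ + (M' - M₀) ∈ _
  rwa [add_sub_cancel]

/-- The numbers on the classes. -/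
theorem exists_scal (hsz : S.size W₀ + 3 * r ≤ S.K) (hM : M₀ ∈ S.Sol W₀) :
    ∃ s : Rel S W₀ r K → K, (∀ a, s a ≠ 0) ∧ ∀ (a b : Rel S W₀ r K), Eqv a b →
      ∀ τ : S.N W₀, M₀ + τ ∈ S.Sol (W₀ ⊔ a.1.1 ⊔ b.1.1) →
        s a * (ch a.1.2 τ * ch b.1.2 (-τ)) = s b := by
  classical
  let rep : Rel S W₀ r K → Rel S W₀ r K := fun a => (Quotient.mk (eqvS hsz) a).out
  have hrep : ∀ a, Eqv a (rep a) := fun a =>
    Setoid.symm' (eqvS hsz) (Quotient.mk_out (s := eqvS hsz) a)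
  have hrep2 : ∀ a b, Eqv a b → rep a = rep b := fun a b h => by
    show Quotient.out _ = Quotient.out _
    rw [Quotient.sound (s := eqvS hsz) h]
  have hex : ∀ a : Rel S W₀ r K, ∃ τ : S.N W₀, M₀ + τ ∈ S.Sol (W₀ ⊔ a.1.1 ⊔ (rep a).1.1) := by
    intro a
    refine exists_tau M₀ hM (le_sup_left.trans le_sup_left) ?_
    have h1 := size3 hsz a (rep a) a
    have h2 := S.size_sup (W₀ ⊔ a.1.1) (rep a).1.1
    have h3 := S.size_sup W₀ a.1.1
    have h4 := a.2.1
    have h5 := (rep a).2.1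
    omega
  choose t ht using hex
  refine ⟨fun a => ch (rep a).1.2 (t a) * ch a.1.2 (-(t a)),
    fun a => mul_ne_zero (ch_ne _ _) (ch_ne _ _), ?_⟩
  intro a b hab τ hτ
  have hr : rep a = rep b := hrep2 a b hab
  obtain ⟨τ', hτ'⟩ := exists_tau M₀ hM (W := W₀ ⊔ a.1.1 ⊔ b.1.1 ⊔ (rep a).1.1)
    (le_sup_left.trans (le_sup_left.trans le_sup_left)) (size3 hsz a b (rep a))
  have e1 : ch (rep a).1.2 (t a) * ch a.1.2 (-(t a)) =
      ch (rep a).1.2 τ' * ch a.1.2 (-τ') := by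
    refine indep M₀ (eqv_symm (hrep a)) (W := W₀ ⊔ a.1.1 ⊔ b.1.1 ⊔ (rep a).1.1) ?_ ?_ hτ'
    · exact sup_le (sup_le (le_sup_left.trans (le_sup_left.trans le_sup_left)) le_sup_right)
        (le_sup_right.trans (le_sup_left.trans le_sup_left))
    · have : W₀ ⊔ (rep a).1.1 ⊔ a.1.1 = W₀ ⊔ a.1.1 ⊔ (rep a).1.1 := by
        rw [sup_assoc, sup_comm (rep a).1.1, ← sup_assoc]
      rw [this]
      exact ht a
  have e2 : ch (rep b).1.2 (t b) * ch b.1.2 (-(t b)) =
      ch (rep b).1.2 τ' * ch b.1.2 (-τ') := by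
    refine indep M₀ (eqv_symm (hrep b)) (W := W₀ ⊔ a.1.1 ⊔ b.1.1 ⊔ (rep a).1.1) ?_ ?_ hτ'
    · rw [← hr]
      exact sup_le (sup_le (le_sup_left.trans (le_sup_left.trans le_sup_left)) le_sup_right)
        (le_sup_right.trans le_sup_left)
    · have : W₀ ⊔ (rep b).1.1 ⊔ b.1.1 = W₀ ⊔ b.1.1 ⊔ (rep b).1.1 := by
        rw [sup_assoc, sup_comm (rep b).1.1, ← sup_assoc]
      rw [this]
      exact ht b
  have e3 : ch a.1.2 τ * ch b.1.2 (-τ) = ch a.1.2 τ' * ch b.1.2 (-τ') :=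
    indep M₀ hab (W := W₀ ⊔ a.1.1 ⊔ b.1.1 ⊔ (rep a).1.1) le_sup_left hτ hτ'
  show ch (rep a).1.2 (t a) * ch a.1.2 (-(t a)) * (ch a.1.2 τ * ch b.1.2 (-τ)) =
    ch (rep b).1.2 (t b) * ch b.1.2 (-(t b))
  rw [e1, e2, e3, hr]
  have e4 : ch a.1.2 (-τ') * ch a.1.2 τ' = 1 := by
    rw [← ch_add, neg_add_cancel, ch_zero]
  calc ch (rep b).1.2 τ' * ch a.1.2 (-τ') * (ch a.1.2 τ' * ch b.1.2 (-τ')) =
        ch (rep b).1.2 τ' * (ch a.1.2 (-τ') * ch a.1.2 τ') * ch b.1.2 (-τ') := by ring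
    _ = _ := by rw [e4, mul_one]

open Classical in
/-- The numbers, extended to all pairs. -/
noncomputable def scal (sc : Rel S W₀ r K → K) (W : L) (χ : Ch (S.N W₀) K) : K :=
  if h : S.size W ≤ r ∧ ∀ n : S.N W₀, (n : X) ∈ S.N W → ch χ n = 1 then sc ⟨(W, χ), h⟩ else 1

theorem scal_ne (sc : Rel S W₀ r K → K) (h : ∀ a, sc a ≠ 0) (W : L) (χ : Ch (S.N W₀) K) :
    scal sc W χ ≠ 0 := by
  unfold scal
  split_ifs
  · exact h _
  · exact one_ne_zero

variable {M₀}

/-- There is an invertible matrix that intertwines all matrices which are the same up to local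
solutions. -/
theorem exists_intertwiner [IsAlgClosed K] [Fintype Y] [DecidableEq Y]
    (hX : (Fintype.card X : K) ≠ 0) (g0 : ∀ y, g 0 y = y)
    (gadd : ∀ s t y, g (s + t) y = g s (g t y)) (glv : ∀ t y, lv (g t y) = lv y)
    (gfix : ∀ y, ∀ n ∈ S.N (lv y), g n y = y) (hr : ∀ y, S.size (lv y) ≤ r)
    (hsz : S.size W₀ + 3 * r ≤ S.K) (hM : M₀ ∈ S.Sol W₀) :
    ∃ P Q : Matrix Y Y K, P * Q = 1 ∧ Q * P = 1 ∧ ∀ A B : Matrix Y Y K,
      (∀ x y, ∀ t ∈ S.N W₀, M₀ + t ∈ S.Sol (W₀ ⊔ lv x ⊔ lv y) → A x y = B (g t x) (g t y)) →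
        P * A = B * P := by
  have : Fintype (S.N W₀) := Fintype.ofFinite _
  have hN : (Fintype.card (S.N W₀) : K) ≠ 0 := card_ne hX (S.N W₀)
  have := finite_ch (N := S.N W₀) hN
  have : Finite (Ch (S.N W₀) K) := inferInstance
  have : Fintype (Ch (S.N W₀) K) := Fintype.ofFinite _
  let gN : S.N W₀ → Y → Y := fun t => g t
  have gN0 : ∀ y, gN 0 y = y := g0
  have gNadd : ∀ s t y, gN (s + t) y = gN s (gN t y) := fun s t y => gadd s t y
  obtain ⟨sc, hsc0, hsc⟩ := exists_scal (K := K) (S := S) (W₀ := W₀) (r := r) M₀ hsz hM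
  let rel : Y → Ch (S.N W₀) K → Prop := fun y χ =>
    ∀ n : S.N W₀, (n : X) ∈ S.N (lv y) → ch χ n = 1
  let s : Y → Ch (S.N W₀) K → K := fun y χ => scal sc (lv y) χ
  have hs0 : ∀ y χ, s y χ ≠ 0 := fun y χ => scal_ne sc hsc0 _ _
  have hsg : ∀ t y χ, s (gN t y) χ = s y χ := by
    intro t y χ
    have h1 : lv (gN t y) = lv y := glv t y
    show scal sc (lv (gN t y)) χ = scal sc (lv y) χ
    rw [h1]
  have hinvs : ∀ t y χ, (s (gN t y) χ)⁻¹ = (s y χ)⁻¹ := fun t y χ => by rw [hsg]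
  have irr : ∀ (y : Y) (χ : Ch (S.N W₀) K), ¬ rel y χ → ∀ f : Y → K, comp gN χ f y = 0 := by
    intro y χ h f
    have h' : ¬ ∀ n : S.N W₀, (n : X) ∈ S.N (lv y) → ch χ n = 1 := h
    push Not at h'
    obtain ⟨n, hn, hne⟩ := h'
    exact comp_zero gN gNadd χ f y (gfix y n hn) hne
  let op : (Y → Ch (S.N W₀) K → K) → (Y → K) →ₗ[K] (Y → K) := fun s =>
    { toFun := sop gN s
      map_add' := fun f f' => by
        funext x
        simp only [sop, comp, Pi.add_apply, mul_add, Finset.sum_add_distrib]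
      map_smul' := fun c f => by
        funext x
        simp only [sop, comp, Pi.smul_apply, smul_eq_mul, RingHom.id_apply]
        rw [Finset.mul_sum]
        refine Finset.sum_congr rfl fun χ _ => ?_
        rw [Finset.mul_sum, Finset.mul_sum, Finset.mul_sum, Finset.mul_sum, Finset.mul_sum]
        exact Finset.sum_congr rfl fun t _ => by ring }
  have hop : ∀ s f, op s f = sop gN s f := fun _ _ => rfl
  have hinv : ∀ s s' : Y → Ch (S.N W₀) K → K, (∀ t y χ, s (gN t y) χ = s y χ) →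
      (∀ t y χ, s' (gN t y) χ = s' y χ) → (∀ y χ, s y χ * s' y χ = 1) →
      op s ∘ₗ op s' = LinearMap.id := by
    intro s s' h1 h2 h3
    refine LinearMap.ext fun f => funext fun x => ?_
    show sop gN s (sop gN s' f) x = f x
    rw [← sum_comp gN hN gN0 (sop gN s (sop gN s' f)) x]
    conv_rhs => rw [← sum_comp gN hN gN0 f x]
    refine Finset.sum_congr rfl fun χ _ => ?_
    rw [comp_sop gN hN gNadd s h1, comp_sop gN hN gNadd s' h2, ← mul_assoc, h3, one_mul]
  refine ⟨LinearMap.toMatrix' (op s), LinearMap.toMatrix' (op fun y χ => (s y χ)⁻¹), ?_, ?_, ?_⟩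
  · rw [← LinearMap.toMatrix'_comp, hinv s _ hsg hinvs fun y χ => mul_inv_cancel₀ (hs0 y χ)]
    exact LinearMap.toMatrix'_id
  · rw [← LinearMap.toMatrix'_comp, hinv _ s hinvs hsg fun y χ => inv_mul_cancel₀ (hs0 y χ)]
    exact LinearMap.toMatrix'_id
  intro A B hAB
  -- the main computation
  have inv1 : ∀ x y, ∀ h ∈ S.N W₀, h ∈ S.D (W₀ ⊔ lv x ⊔ lv y) → A (g h x) (g h y) = A x y := by
    intro x y h hh hD
    obtain ⟨τ, hτ⟩ := exists_tau (S := S) (W₀ := W₀) M₀ hM (W := W₀ ⊔ lv x ⊔ lv y)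
      (le_sup_left.trans le_sup_left) (by
        have h1 := S.size_sup (W₀ ⊔ lv x) (lv y)
        have h2 := S.size_sup W₀ (lv x)
        have h3 := hr x
        have h4 := hr y
        omega)
    have e1 := hAB x y (τ + h) ((S.N W₀).add_mem τ.2 hh) (by
      rw [S.sol_iff _ (M₀ + τ) _ hτ]
      have : M₀ + ((τ : X) + h) - (M₀ + τ) = h := by abel
      rwa [this])
    have e2 := hAB (g h x) (g h y) τ τ.2 (by rwa [glv, glv])
    rw [e1, e2, gadd, gadd]
  have key : ∀ F : Y → K, sop gN s (A *ᵥ F) = B *ᵥ (sop gN s F) := by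
    intro F
    funext x
    rw [← sum_comp gN hN gN0 (sop gN s (A *ᵥ F)) x]
    conv_rhs => rw [← sum_comp gN hN gN0 (B *ᵥ (sop gN s F)) x]
    refine Finset.sum_congr rfl fun χ _ => ?_
    by_cases hrx : rel x χ
    swap
    · rw [irr x χ hrx, irr x χ hrx]
    rw [comp_sop gN hN gNadd s hsg, comp_mulVec gN hN gN0 gNadd, comp_mulVec gN hN gN0 gNadd,
      Finset.mul_sum]
    refine Finset.sum_congr rfl fun y _ => ?_
    rw [Finset.mul_sum]
    refine Finset.sum_congr rfl fun χ' _ => ?_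
    rw [comp_sop gN hN gNadd s hsg]
    by_cases hry : rel y χ'
    swap
    · rw [irr y χ' hry]
      ring
    obtain ⟨τ, hτ⟩ := exists_tau (S := S) (W₀ := W₀) M₀ hM (W := W₀ ⊔ lv x ⊔ lv y)
      (le_sup_left.trans le_sup_left) (by
        have h1 := S.size_sup (W₀ ⊔ lv x) (lv y)
        have h2 := S.size_sup W₀ (lv x)
        have h3 := hr x
        have h4 := hr y
        omega)
    have hshift : coef gN A χ χ' x y = ch χ τ * ch χ' (-τ) * coef gN B χ χ' x y := by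
      refine coef_shift gN A B χ χ' x y τ fun t => ?_
      have e2 := hAB (gN t x) (gN t y) τ τ.2 (by
        show M₀ + (τ : X) ∈ S.Sol (W₀ ⊔ lv (g t x) ⊔ lv (g t y))
        rwa [glv, glv])
      rw [e2]
      have e3 : ∀ z, g τ (gN t z) = gN (t + τ) z := by
        intro z
        show g τ (g t z) = g ((t : X) + τ) z
        rw [← gadd, add_comm]
      rw [e3, e3]
    let a : Rel S W₀ r K := ⟨(lv x, χ), hr x, hrx⟩
    let b : Rel S W₀ r K := ⟨(lv y, χ'), hr y, hry⟩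
    by_cases hab : Eqv a b
    · have e1 := hsc a b hab τ hτ
      have e2 : s x χ = sc a := dif_pos ⟨hr x, hrx⟩
      have e3 : s y χ' = sc b := dif_pos ⟨hr y, hry⟩
      rw [hshift, e2, e3, ← e1]
      show sc a * (ch χ τ * ch χ' (-τ) * coef gN B χ χ' x y * comp gN χ' F y) =
        coef gN B χ χ' x y * (sc a * (ch χ τ * ch χ' (-τ)) * comp gN χ' F y)
      ring
    · have hz : coef gN A χ χ' x y = 0 := by
        have h' : ¬ ∀ h : S.N W₀, (h : X) ∈ S.D (W₀ ⊔ lv x ⊔ lv y) → ch χ h = ch χ' h := hab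
        push Not at h'
        obtain ⟨h, hD, hne⟩ := h'
        have e1 : coef gN A χ χ' x y = ch χ h * ch χ' (-h) * coef gN A χ χ' x y := by
          refine coef_shift gN A A χ χ' x y h fun t => ?_
          have e3 : ∀ z, gN (t + h) z = g h (gN t z) := by
            intro z
            show g ((t : X) + h) z = g h (g t z)
            rw [← gadd, add_comm]
          rw [e3, e3]
          refine (inv1 (gN t x) (gN t y) h h.2 ?_).symm
          show (h : X) ∈ S.D (W₀ ⊔ lv (g t x) ⊔ lv (g t y))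
          rwa [glv, glv]
        have e2 : (1 - ch χ h * ch χ' (-h)) * coef gN A χ χ' x y = 0 := by
          rw [sub_mul, one_mul, ← e1, sub_self]
        rcases mul_eq_zero.1 e2 with e3 | e3
        · exfalso
          apply hne
          have e4 : ch χ h * ch χ' (-h) = 1 := (sub_eq_zero.1 e3).symm
          have e5 := ch_neg_mul χ' h
          have e6 : ch χ h * ch χ' (-h) = ch χ' h * ch χ' (-h) := by
            rw [e4, mul_comm, e5]
          exact mul_right_cancel₀ (ch_ne χ' (-h)) e6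
        · exact e3
      have hz2 : coef gN B χ χ' x y = 0 := by
        rw [hz] at hshift
        rcases mul_eq_zero.1 hshift.symm with h1 | h1
        · exact absurd h1 (mul_ne_zero (ch_ne _ _) (ch_ne _ _))
        · exact h1
      rw [hz, hz2]
      ring
  refine Matrix.toLin'.injective ?_
  refine LinearMap.ext fun F => ?_
  rw [Matrix.toLin'_mul, Matrix.toLin'_mul, LinearMap.comp_apply, LinearMap.comp_apply,
    Matrix.toLin'_toMatrix', Matrix.toLin'_apply, Matrix.toLin'_apply]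
  exact key F

end core

end Pool.Agent.TH658.Sos
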