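import Pool.Agent.TH658.Sos.Sys

/-!
# Expansion of functions in characters over algebraically closed fields
-/

set_option autoImplicit false
set_option linter.unusedSectionVars false

namespace Pool.Agent.TH658.Sos

open Finset

section

variable {X K : Type} [AddCommGroup X] [Field K]

/-- The characters with values in `K`. -/
abbrev Ch (X K : Type) [AddCommGroup X] [Field K] : Type := Multiplicative X →* Kˣ

/-- The value of a character. -/
def ch (φ : Ch X K) (x : X) : K := ((φ (Multiplicative.ofAdd x) : Kˣ) : K)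

theorem ch_add (φ : Ch X K) (x y : X) : ch φ (x + y) = ch φ x * ch φ y := by
  unfold ch
  rw [ofAdd_add, map_mul, Units.val_mul]

theorem ch_zero (φ : Ch X K) : ch φ 0 = 1 := by
  unfold ch
  rw [ofAdd_zero, map_one, Units.val_one]

theorem ch_mul (φ ψ : Ch X K) (x : X) : ch (φ * ψ) x = ch φ x * ch ψ x := by
  unfold ch
  rw [MonoidHom.mul_apply, Units.val_mul]

theorem ch_ne (φ : Ch X K) (x : X) : ch φ x ≠ 0 := Units.ne_zero _

theorem ch_inv_mul (φ : Ch X K) (x : X) : ch φ⁻¹ x * ch φ x = 1 := by
  unfold ch
  rw [MonoidHom.inv_apply, Units.inv_mul]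

/-- A character as an additive character. -/
def chA (φ : Ch X K) : AddChar X K where
  toFun := ch φ
  map_zero_eq_one' := ch_zero φ
  map_add_eq_mul' := ch_add φ

variable [Fintype X]

theorem exists_expand [IsAlgClosed K] (hX : (Fintype.card X : K) ≠ 0) (F : X → K) :
    ∃ (I : Type) (_ : Fintype I) (c : I → K) (φ : I → Ch X K), ∀ x, F x = ∑ i, c i * ch (φ i) x := by
  classical
  have hexp : Monoid.exponent (Multiplicative X) ∣ Fintype.card X := by
    rw [← Nat.card_eq_fintype_card]
    exact Group.exponent_dvd_nat_card (G := Multiplicative X)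
  have hne : ((Monoid.exponent (Multiplicative X) : ℕ) : K) ≠ 0 := by
    intro h
    apply hX
    obtain ⟨c, hc⟩ := hexp
    rw [hc, Nat.cast_mul, h, zero_mul]
  have : NeZero ((Monoid.exponent (Multiplicative X) : ℕ) : K) := ⟨hne⟩
  have : HasEnoughRootsOfUnity K (Monoid.exponent (Multiplicative X)) := inferInstance
  have : Finite (Ch X K) := inferInstance
  have : Fintype (Ch X K) := Fintype.ofFinite _
  have hcard : Fintype.card (Ch X K) = Fintype.card X := by
    rw [← Nat.card_eq_fintype_card, CommGroup.card_monoidHom_of_hasEnoughRootsOfUnity,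
      Nat.card_eq_fintype_card, Fintype.card_multiplicative]
  have horth : ∀ z : X, ∑ φ : Ch X K, ch φ z = if z = 0 then (Fintype.card X : K) else 0 := by
    intro z
    by_cases hz : z = 0
    · subst hz
      rw [if_pos rfl]
      simp only [ch_zero]
      rw [Finset.sum_const, Finset.card_univ, hcard, nsmul_eq_mul, mul_one]
    · rw [if_neg hz]
      obtain ⟨φ₀, h₀⟩ := CommGroup.exists_apply_ne_one_of_hasEnoughRootsOfUnity
        (Multiplicative X) K (a := Multiplicative.ofAdd z) (by
          intro h
          exact hz (by simpa using h))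
      have h1 : ∑ φ : Ch X K, ch (φ₀ * φ) z = ∑ φ : Ch X K, ch φ z :=
        Fintype.sum_equiv (Equiv.mulLeft φ₀) _ _ fun φ => rfl
      simp only [ch_mul] at h1
      rw [← Finset.mul_sum] at h1
      have h2 : (ch φ₀ z - 1) * ∑ φ : Ch X K, ch φ z = 0 := by
        rw [sub_mul, h1, one_mul, sub_self]
      rcases mul_eq_zero.1 h2 with h3 | h3
      · exfalso
        apply h₀
        exact Units.ext (sub_eq_zero.1 h3)
      · exact h3
  refine ⟨Ch X K, inferInstance, fun φ => (Fintype.card X : K)⁻¹ * ∑ a, F a * ch φ (-a),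
    fun φ => φ, fun x => ?_⟩
  have h1 : ∀ φ : Ch X K, (Fintype.card X : K)⁻¹ * (∑ a, F a * ch φ (-a)) * ch φ x =
      (Fintype.card X : K)⁻¹ * ∑ a, F a * ch φ (x - a) := by
    intro φ
    rw [mul_assoc, Finset.sum_mul]
    congr 1
    refine Finset.sum_congr rfl fun a _ => ?_
    rw [sub_eq_add_neg, ch_add]
    ring
  rw [Finset.sum_congr rfl fun φ _ => h1 φ, ← Finset.mul_sum, Finset.sum_comm]
  simp only [← Finset.mul_sum, horth, sub_eq_zero]
  simp only [mul_ite, mul_zero]
  rw [Finset.sum_ite_eq]
  simp only [Finset.mem_univ, if_true]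
  rw [mul_comm (F x), inv_mul_cancel_left₀ hX]

/-- Expansion of a function that is invariant under translations in characters that are trivial on
these translations. -/
theorem expandK [IsAlgClosed K] (hX : (Fintype.card X : K) ≠ 0) (N : AddSubgroup X) (F : X → K)
    (hF : ∀ x, ∀ n ∈ N, F (x + n) = F x) :
    ∃ (I : Type) (_ : Fintype I) (c : I → K) (φ : I → Ch X K),
      (∀ i, c i ≠ 0 → ∀ n ∈ N, ch (φ i) n = 1) ∧ ∀ x, F x = ∑ i, c i * ch (φ i) x := by
  classical
  obtain ⟨I, iI, c, φ, h⟩ := exists_expand hX F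
  refine ⟨I, iI, fun i => c i * avgD N (fun x => ch (φ i) x), φ, ?_, ?_⟩
  · intro i hi n hn
    by_contra hne
    apply hi
    show c i * avgD N (fun x => ch (φ i) x) = 0
    have h1 := avgD_char_zero N (chA (φ i)) hn hne
    have h2 : avgD N (fun x => ch (φ i) x) = 0 := h1
    rw [h2, mul_zero]
  · intro x
    have h1 : avgD N (fun n => F (x + n)) = F x := by
      rw [avgD_congr N (fun n hn => hF x n hn), avgD_const hX]
    rw [← h1]
    have h2 : (fun n => F (x + n)) = fun n => ∑ i, (c i * ch (φ i) x) * ch (φ i) n := by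
      funext n
      rw [h]
      refine Finset.sum_congr rfl fun i _ => ?_
      rw [ch_add]
      ring
    rw [h2, avgD_sum]
    refine Finset.sum_congr rfl fun i _ => ?_
    rw [avgD_smul]
    ring

end

end Pool.Agent.TH658.Sos
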