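import Pool.Agent.TH658.Sos.Psd
import Pool.Agent.TH658.Sos.Defs

/-!
# The pseudo-expectation of a locally consistent affine system
-/

set_option autoImplicit false
set_option linter.unusedSectionVars false

namespace Pool.Agent.TH658.Sos

open Finset MvPolynomial

/-- Bijections between the vertex sets of two graphs indexed by the elements of `X`, which are
locally isomorphisms for the solutions of the system. -/
structure Act {X L : Type} [AddCommGroup X] [SemilatticeSup L] [OrderBot L] (S : Sys X L)
    {V V' : Type} (G : SimpleGraph V) (H : SimpleGraph V') where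
  /-- the bijections -/
  b : X → V ≃ V'
  /-- the level of a vertex -/
  lv : V → L
  /-- the level of an image -/
  lv' : V' → L
  /-- bound of the size -/
  c : ℕ
  inv : ∀ M n u, n ∈ S.N (lv u) → b (M + n) u = b M u
  lev : ∀ M u, lv' (b M u) = lv u
  size : ∀ u, S.size (lv u) ≤ c
  iso : ∀ u u', ∀ M ∈ S.Sol (lv u ⊔ lv u'), (G.Adj u u' ↔ H.Adj (b M u) (b M u'))

namespace Act

variable {X L : Type} [AddCommGroup X] [SemilatticeSup L] [OrderBot L] {S : Sys X L}
  {V V' : Type} {G : SimpleGraph V} {H : SimpleGraph V'} (A : Act S G H)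

/-- The level of a monomial. -/
def lm (m : V × V' →₀ ℕ) : L := m.support.sup fun p => A.lv p.1

theorem mem_add {m m' : V × V' →₀ ℕ} (p : V × V') :
    p ∈ (m + m').support ↔ p ∈ m.support ∨ p ∈ m'.support := by
  rw [Finsupp.mem_support_iff, Finsupp.mem_support_iff, Finsupp.mem_support_iff,
    Finsupp.add_apply]
  omega

theorem lm_add (m m' : V × V' →₀ ℕ) : A.lm (m + m') = A.lm m ⊔ A.lm m' := by
  apply le_antisymm
  · refine Finset.sup_le fun p hp => ?_
    rcases (mem_add p).1 hp with h | h
    · exact (Finset.le_sup (f := fun p : V × V' => A.lv p.1) h).trans le_sup_left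
    · exact (Finset.le_sup (f := fun p : V × V' => A.lv p.1) h).trans le_sup_right
  · refine sup_le (Finset.sup_le fun p hp => ?_) (Finset.sup_le fun p hp => ?_)
    · exact Finset.le_sup (f := fun p : V × V' => A.lv p.1) ((mem_add p).2 (Or.inl hp))
    · exact Finset.le_sup (f := fun p : V × V' => A.lv p.1) ((mem_add p).2 (Or.inr hp))

theorem supp_single (p : V × V') {k : ℕ} (hk : k ≠ 0) : (Finsupp.single p k).support = {p} := by
  classical
  ext q
  rw [Finsupp.mem_support_iff, Finset.mem_singleton, Finsupp.single_apply]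
  by_cases h : p = q
  · simp [h, hk]
  · simp [h, Ne.symm h]

theorem lm_single (p : V × V') {k : ℕ} (hk : k ≠ 0) : A.lm (Finsupp.single p k) = A.lv p.1 := by
  unfold lm
  rw [supp_single p hk, Finset.sup_singleton]

theorem size_sup_le (s : Finset (V × V')) :
    S.size (s.sup fun p => A.lv p.1) ≤ A.c * s.card := by
  classical
  induction s using Finset.induction_on with
  | empty => simp [S.size_bot]
  | insert p s hp ih =>
    rw [Finset.sup_insert, Finset.card_insert_of_notMem hp]
    have h1 := S.size_sup (A.lv p.1) (s.sup fun p => A.lv p.1)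
    have h2 := A.size p.1
    rw [mul_add, mul_one]
    omega

theorem size_lm (m : V × V' →₀ ℕ) : S.size (A.lm m) ≤ A.c * m.sum fun _ e => e := by
  refine (A.size_sup_le _).trans (Nat.mul_le_mul_left _ ?_)
  unfold Finsupp.sum
  rw [Finset.card_eq_sum_ones]
  refine Finset.sum_le_sum fun p hp => ?_
  exact Nat.one_le_iff_ne_zero.2 (Finsupp.mem_support_iff.1 hp)

section

variable (K : Type) [Field K]

open Classical in
/-- The value of a monomial at the permutation matrix of `b M`. -/
noncomputable def ev (m : V × V' →₀ ℕ) (M : X) : K :=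
  if ∀ p ∈ m.support, A.b M p.1 = p.2 then 1 else 0

theorem ev_add (m m' : V × V' →₀ ℕ) (M : X) :
    A.ev K (m + m') M = A.ev K m M * A.ev K m' M := by
  classical
  unfold ev
  by_cases h1 : ∀ p ∈ m.support, A.b M p.1 = p.2
  · by_cases h2 : ∀ p ∈ m'.support, A.b M p.1 = p.2
    · rw [if_pos h1, if_pos h2, if_pos, one_mul]
      intro p hp
      rcases (mem_add p).1 hp with h | h
      · exact h1 p h
      · exact h2 p h
    · rw [if_neg h2, if_neg, mul_zero]
      exact fun h => h2 fun p hp => h p ((mem_add p).2 (Or.inr hp))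
  · rw [if_neg h1, if_neg, zero_mul]
    exact fun h => h1 fun p hp => h p ((mem_add p).2 (Or.inl hp))

open Classical in
theorem ev_single (p : V × V') {k : ℕ} (hk : k ≠ 0) (M : X) :
    A.ev K (Finsupp.single p k) M = if A.b M p.1 = p.2 then 1 else 0 := by
  unfold ev
  rw [supp_single p hk]
  simp

theorem ev_inv (m : V × V' →₀ ℕ) (M n : X) (hn : n ∈ S.N (A.lm m)) :
    A.ev K m (M + n) = A.ev K m M := by
  classical
  unfold ev
  have h : ∀ p ∈ m.support, A.b (M + n) p.1 = A.b M p.1 := fun p hp =>
    A.inv M n p.1 (S.N_anti _ _ (Finset.le_sup (f := fun p : V × V' => A.lv p.1) hp) hn)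
  by_cases h1 : ∀ p ∈ m.support, A.b M p.1 = p.2
  · rw [if_pos h1, if_pos]
    intro p hp
    rw [h p hp]
    exact h1 p hp
  · rw [if_neg h1, if_neg]
    intro h2
    apply h1
    intro p hp
    rw [← h p hp]
    exact h2 p hp

variable [Fintype X]

/-- The value of the pseudo-expectation at a monomial. -/
noncomputable def em (m : V × V' →₀ ℕ) : K := S.avg (A.lm m) (A.ev K m)

/-- The pseudo-expectation. -/
noncomputable def E : MvPolynomial (V × V') K →ₗ[K] K :=
  (basisMonomials (V × V') K).constr K (A.em K)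

theorem E_monomial (m : V × V' →₀ ℕ) (c : K) : A.E K (monomial m c) = c * A.em K m := by
  have h1 : monomial m c = c • monomial m (1 : K) := by
    rw [smul_monomial, smul_eq_mul, mul_one]
  have h2 : monomial m (1 : K) = basisMonomials (V × V') K m := by
    rw [coe_basisMonomials]
  rw [h1, map_smul, h2, E, Module.Basis.constr_basis, smul_eq_mul]

theorem E_one (hX : (Fintype.card X : K) ≠ 0) : A.E K 1 = 1 := by
  have h1 : (1 : MvPolynomial (V × V') K) = monomial 0 1 := rfl
  rw [h1, E_monomial, one_mul, em]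
  have h2 : A.ev K 0 = fun _ => (1 : K) := by
    funext M
    unfold ev
    simp
  rw [h2, S.avg_one hX]

variable {K}

/-- A monomial times a variable. -/
theorem em_add_single (m : V × V' →₀ ℕ) (p : V × V') {k : ℕ} (hk : k ≠ 0) :
    A.em K (m + Finsupp.single p k) = S.avg (A.lm m ⊔ A.lv p.1)
      (fun M => A.ev K m M * A.ev K (Finsupp.single p 1) M) := by
  classical
  unfold em
  rw [lm_add, lm_single A p hk]
  congr 1
  funext M
  rw [ev_add, ev_single A K p hk, ev_single A K p one_ne_zero]

/-- Sizes of levels that occur. -/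
theorem size2 {m : V × V' →₀ ℕ} {D : ℕ} (hm : (m.sum fun _ e => e) ≤ D)
    (hK : A.c * (D + 2) ≤ S.K) (u u' : V) : S.size (A.lm m ⊔ A.lv u ⊔ A.lv u') ≤ S.K := by
  have h1 := S.size_sup (A.lm m ⊔ A.lv u) (A.lv u')
  have h2 := S.size_sup (A.lm m) (A.lv u)
  have h3 := A.size_lm m
  have h4 := A.size u
  have h5 := A.size u'
  have h6 : A.c * (m.sum fun _ e => e) ≤ A.c * D := Nat.mul_le_mul_left _ hm
  rw [mul_add] at hK
  omega

theorem size1 {m : V × V' →₀ ℕ} {D : ℕ} (hm : (m.sum fun _ e => e) ≤ D)
    (hK : A.c * (D + 2) ≤ S.K) (u : V) : S.size (A.lm m ⊔ A.lv u) ≤ S.K := by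
  have h2 := S.size_sup (A.lm m) (A.lv u)
  have h3 := A.size_lm m
  have h4 := A.size u
  have h6 : A.c * (m.sum fun _ e => e) ≤ A.c * D := Nat.mul_le_mul_left _ hm
  rw [mul_add] at hK
  omega

variable [Fintype V] [Fintype V']

/-- The functional vanishes on the multiples of the axioms. -/
theorem E_axiom_monomial (hX : (Fintype.card X : K) ≠ 0) {p : MvPolynomial (V × V') K}
    (hp : IsoAxiom K G H p) {m : V × V' →₀ ℕ} {D : ℕ} (hm : (m.sum fun _ e => e) ≤ D)
    (hK : A.c * (D + 2) ≤ S.K) (c : K) : A.E K (monomial m c * p) = 0 := by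
  classical
  have hXv : ∀ q : V × V', monomial m c * (MvPolynomial.X q : MvPolynomial (V × V') K) =
      monomial (m + Finsupp.single q 1) c := by
    intro q
    rw [MvPolynomial.X, monomial_mul, mul_one]
  cases hp with
  | bool u v =>
    have h1 : monomial m c * ((MvPolynomial.X (u, v) : MvPolynomial (V × V') K) ^ 2 - MvPolynomial.X (u, v)) =
        monomial (m + Finsupp.single (u, v) 2) c - monomial (m + Finsupp.single (u, v) 1) c := by
      rw [mul_sub, hXv, X_pow_eq_monomial, monomial_mul, mul_one]
    rw [h1, map_sub, E_monomial, E_monomial, em_add_single A m _ two_ne_zero,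
      em_add_single A m _ one_ne_zero, sub_self]
  | row u =>
    have h1 : monomial m c * (∑ v : V', (MvPolynomial.X (u, v) : MvPolynomial (V × V') K) - 1) =
        ∑ v : V', monomial (m + Finsupp.single (u, v) 1) c - monomial m c := by
      rw [mul_sub, mul_one, Finset.mul_sum]
      congr 1
      exact Finset.sum_congr rfl fun v _ => hXv _
    rw [h1, map_sub, map_sum, sub_eq_zero]
    simp only [E_monomial, em_add_single A m _ one_ne_zero]
    rw [← Finset.mul_sum, ← S.avg_sum]
    congr 1
    unfold em
    rw [S.avg_level hX (le_sup_left : A.lm m ≤ A.lm m ⊔ A.lv u) (A.size1 hm hK u) _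
      (fun x n hn => A.ev_inv K m x n hn)]
    congr 1
    funext M
    simp only [ev_single A K _ one_ne_zero]
    rw [← Finset.mul_sum, Finset.sum_ite_eq]
    simp
  | col v =>
    have h1 : monomial m c * (∑ u : V, (MvPolynomial.X (u, v) : MvPolynomial (V × V') K) - 1) =
        ∑ u : V, monomial (m + Finsupp.single (u, v) 1) c - monomial m c := by
      rw [mul_sub, mul_one, Finset.mul_sum]
      congr 1
      exact Finset.sum_congr rfl fun v _ => hXv _
    rw [h1, map_sub, map_sum, sub_eq_zero]
    simp only [E_monomial, em_add_single A m _ one_ne_zero]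
    let u0 : V := (A.b 0).symm v
    have hu0 : A.lv u0 = A.lv' v := by
      rw [← A.lev 0 u0]
      show A.lv' ((A.b 0) ((A.b 0).symm v)) = _
      rw [Equiv.apply_symm_apply]
    have h2 : ∀ u : V, S.avg (A.lm m ⊔ A.lv u)
        (fun M => A.ev K m M * A.ev K (Finsupp.single (u, v) 1) M) =
        S.avg (A.lm m ⊔ A.lv u0)
        (fun M => A.ev K m M * A.ev K (Finsupp.single (u, v) 1) M) := by
      intro u
      by_cases hu : A.lv u = A.lv' v
      · rw [hu, hu0]
      · have h3 : (fun M => A.ev K m M * A.ev K (Finsupp.single (u, v) 1) M) =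
            fun _ => (0 : K) := by
          funext M
          rw [ev_single A K _ one_ne_zero, if_neg, mul_zero]
          intro h4
          apply hu
          rw [← A.lev M u]
          exact congrArg A.lv' h4
        rw [h3, S.avg_zero, S.avg_zero]
    have h2' : ∀ u : V, c * S.avg (A.lm m ⊔ A.lv u)
        (fun M => A.ev K m M * A.ev K (Finsupp.single (u, v) 1) M) =
        c * S.avg (A.lm m ⊔ A.lv u0)
        (fun M => A.ev K m M * A.ev K (Finsupp.single (u, v) 1) M) := fun u => by rw [h2 u]
    rw [Finset.sum_congr rfl fun u _ => h2' u]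
    rw [← Finset.mul_sum, ← S.avg_sum]
    congr 1
    unfold em
    rw [S.avg_level hX (le_sup_left : A.lm m ≤ A.lm m ⊔ A.lv u0) (A.size1 hm hK u0) _
      (fun x n hn => A.ev_inv K m x n hn)]
    congr 1
    funext M
    simp only [ev_single A K _ one_ne_zero]
    rw [← Finset.mul_sum]
    have h5 : ∀ u : V, (if A.b M u = v then (1 : K) else 0) =
        if u = (A.b M).symm v then 1 else 0 := by
      intro u
      by_cases h6 : A.b M u = v
      · rw [if_pos h6, if_pos]
        rw [← h6, Equiv.symm_apply_apply]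
      · rw [if_neg h6, if_neg]
        intro h7
        apply h6
        rw [h7, Equiv.apply_symm_apply]
    rw [Finset.sum_congr rfl fun u _ => h5 u, Finset.sum_ite_eq']
    simp
  | pair u u' v v' h =>
    have h1 : monomial m c * ((MvPolynomial.X (u, v) : MvPolynomial (V × V') K) * MvPolynomial.X (u', v')) =
        monomial (m + Finsupp.single (u, v) 1 + Finsupp.single (u', v') 1) c := by
      rw [← mul_assoc, hXv, MvPolynomial.X, monomial_mul, mul_one]
    rw [h1, E_monomial, em_add_single A _ _ one_ne_zero]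
    rw [lm_add, lm_single A _ one_ne_zero]
    have h2 : (fun M => A.ev K (m + Finsupp.single (u, v) 1) M *
        A.ev K (Finsupp.single (u', v') 1) M) = fun M => A.ev K m M *
        (if A.b M u = v ∧ A.b M u' = v' then 1 else 0) := by
      funext M
      rw [ev_add, ev_single A K _ one_ne_zero, ev_single A K _ one_ne_zero, mul_assoc]
      congr 1
      by_cases h3 : A.b M u = v <;> by_cases h4 : A.b M u' = v' <;> simp [h3, h4]
    rw [h2]
    have hsz : S.size (A.lm m ⊔ A.lv u ⊔ A.lv u') ≤ S.K := A.size2 hm hK u u'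
    rw [S.avg_congr (G := fun _ => (0 : K)) (S.nonempty _ hsz), S.avg_zero, mul_zero]
    intro M hM
    rw [if_neg, mul_zero]
    rintro ⟨h3, h4⟩
    apply h
    rw [← h3, ← h4]
    refine ⟨(A.b M).injective.eq_iff.symm, ?_⟩
    exact A.iso u u' M (S.Sol_anti _ _ (sup_le (le_sup_right.trans le_sup_left) le_sup_right) hM)

omit [Fintype X] in
theorem axiom_ne_zero {p : MvPolynomial (V × V') K} (hp : IsoAxiom K G H p) : p ≠ 0 := by
  classical
  cases hp with
  | bool u v =>
    intro h
    have h1 := congrArg (coeff (Finsupp.single (u, v) 1)) h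
    rw [coeff_sub, coeff_X, X_pow_eq_monomial, coeff_monomial, coeff_zero, if_neg] at h1
    · simp at h1
    · intro h2
      have := DFunLike.congr_fun h2 (u, v)
      simp at this
  | row u =>
    intro h
    have h1 := congrArg (coeff 0) h
    rw [coeff_sub, coeff_sum, coeff_zero_one, coeff_zero] at h1
    simp at h1
  | col v =>
    intro h
    have h1 := congrArg (coeff 0) h
    rw [coeff_sub, coeff_sum, coeff_zero_one, coeff_zero] at h1
    simp at h1
  | pair u u' v v' _ => exact mul_ne_zero (X_ne_zero _) (X_ne_zero _)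

theorem E_axiom (hX : (Fintype.card X : K) ≠ 0) {p : MvPolynomial (V × V') K}
    (hp : IsoAxiom K G H p) {r : MvPolynomial (V × V') K} {D : ℕ}
    (hr : (r * p).totalDegree ≤ D) (hK : A.c * (D + 2) ≤ S.K) : A.E K (r * p) = 0 := by
  by_cases hr0 : r = 0
  · rw [hr0, zero_mul, map_zero]
  have h1 : r.totalDegree ≤ D := by
    rw [totalDegree_mul_of_isDomain hr0 (axiom_ne_zero hp)] at hr
    omega
  conv_lhs => rw [r.as_sum, Finset.sum_mul, map_sum]
  refine Finset.sum_eq_zero fun m hm => ?_
  exact A.E_axiom_monomial hX hp ((le_totalDegree hm).trans h1) hK _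

end

section

variable [Fintype X] [Fintype V] [Fintype V']

theorem E_sq {q : MvPolynomial (V × V') ℝ} (hK : 3 * (A.c * q.totalDegree) ≤ S.K) :
    0 ≤ A.E ℝ (q ^ 2) := by
  classical
  have h1 : A.E ℝ (q ^ 2) = ∑ i : q.support, ∑ j : q.support,
      S.avg (A.lm i.1 ⊔ A.lm j.1) (fun x => (q.coeff i.1 * A.ev ℝ i.1 x) *
        (q.coeff j.1 * A.ev ℝ j.1 x)) := by
    have e1 : q ^ 2 = ∑ i ∈ q.support, ∑ j ∈ q.support,
        monomial (i + j) (q.coeff i * q.coeff j) := by
      conv_lhs => rw [q.as_sum, sq, Finset.sum_mul_sum]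
      refine Finset.sum_congr rfl fun i _ => Finset.sum_congr rfl fun j _ => ?_
      rw [monomial_mul]
    rw [e1, map_sum]
    rw [← Finset.sum_coe_sort]
    refine Finset.sum_congr rfl fun i _ => ?_
    rw [map_sum, ← Finset.sum_coe_sort]
    refine Finset.sum_congr rfl fun j _ => ?_
    rw [E_monomial, em, lm_add, ← S.avg_smul]
    congr 1
    funext M
    rw [ev_add]
    ring
  rw [h1]
  refine S.psd (fun i : q.support => A.lm i.1) (A.c * q.totalDegree) (fun i => ?_) hK
    (fun i x => q.coeff i.1 * A.ev ℝ i.1 x) (fun i x n hn => ?_)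
  · exact (A.size_lm i.1).trans (Nat.mul_le_mul_left _ (le_totalDegree i.2))
  · rw [A.ev_inv ℝ i.1 x n hn]

/-- The main theorem on locally consistent affine systems. -/
theorem isPseudoExpectation {d : ℕ} (hK : 2 * (A.c * (d + 2)) ≤ S.K) :
    IsPseudoExpectation G H d (A.E ℝ) := by
  have hX : (Fintype.card X : ℝ) ≠ 0 := Nat.cast_ne_zero.2 Fintype.card_ne_zero
  refine ⟨A.E_one ℝ hX, fun q hq => A.E_sq ?_, fun p r hp hr => A.E_axiom hX hp hr ?_⟩
  · have h1 : A.c * (2 * q.totalDegree) ≤ A.c * d := Nat.mul_le_mul_left _ hq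
    have h2 : A.c * (2 * q.totalDegree) = 2 * (A.c * q.totalDegree) := by ring
    have h3 : A.c * (d + 2) = A.c * d + A.c * 2 := by ring
    omega
  · omega

end

end Act

end Pool.Agent.TH658.Sos
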