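import Pool.Agent.TH658.Sos.ImDefs
import Pool.Agent.TH658.Sos.ImCore
import Pool.Agent.TH658.Sos.Pe

/-!
# Invertible-map equivalence from locally consistent affine systems
-/

set_option autoImplicit false
set_option linter.unusedSectionVars false

namespace Pool.Agent.TH658.Sos

open Finset Matrix

variable {X L : Type} [AddCommGroup X] [SemilatticeSup L] [OrderBot L]

/-- The homogeneous system. -/
def Sys.hom (S : Sys X L) : Sys X L where
  N := S.N
  D := S.D
  Sol W := S.D W
  size := S.size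
  K := S.K
  N_anti := S.N_anti
  D_anti := S.D_anti
  Sol_anti := S.D_anti
  sol_iff W M M' hM := by
    constructor
    · intro h
      exact (S.D W).sub_mem h hM
    · intro h
      have h1 : M' = (M' - M) + M := by abel
      rw [h1]
      exact (S.D W).add_mem h hM
  size_bot := S.size_bot
  size_sup := S.size_sup
  nonempty W _ := ⟨0, (S.D W).zero_mem⟩
  extend W W' h hK M hM := by
    obtain ⟨z', hz', hn⟩ := S.cover h hK M hM
    refine ⟨z', hz', ?_⟩
    have h1 : z' - M = -(M - z') := by abel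
    rw [h1]
    exact (S.N W).neg_mem hn

namespace Act

variable {S : Sys X L} {V V' : Type} {G : SimpleGraph V} {H : SimpleGraph V'} (A : Act S G H)

/-- The bijections form a torsor. -/
def Torsor : Prop := ∀ M h u, A.b (M + h) u = A.b M ((A.b 0).symm (A.b h u))

variable {A}

/-- The action of `X` on the vertices. -/
def g (A : Act S G H) (h : X) : V ≃ V := (A.b h).trans (A.b 0).symm

theorem Torsor.b_add (hA : A.Torsor) (M h : X) (u : V) : A.b (M + h) u = A.b M (A.g h u) :=
  hA M h u

theorem g_zero (u : V) : A.g 0 u = u := by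
  show (A.b 0).symm (A.b 0 u) = u
  rw [Equiv.symm_apply_apply]

theorem Torsor.g_add (hA : A.Torsor) (s t : X) (u : V) : A.g (s + t) u = A.g s (A.g t u) := by
  show (A.b 0).symm (A.b (s + t) u) = (A.b 0).symm (A.b s (A.g t u))
  rw [hA.b_add]

theorem lv_symm (w : V') : A.lv ((A.b 0).symm w) = A.lv' w := by
  rw [← A.lev 0, Equiv.apply_symm_apply]

theorem lv_g (h : X) (u : V) : A.lv (A.g h u) = A.lv u := by
  show A.lv ((A.b 0).symm (A.b h u)) = _
  rw [lv_symm, A.lev]

theorem g_fix (n : X) (u : V) (hn : n ∈ S.N (A.lv u)) : A.g n u = u := by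
  show (A.b 0).symm (A.b n u) = u
  have h1 := A.inv 0 n u hn
  rw [zero_add] at h1
  rw [h1, Equiv.symm_apply_apply]

/-- The automorphisms of the first graph. -/
def left (A : Act S G H) (hA : A.Torsor) (hK : A.c + A.c ≤ S.K) : Act S.hom G G where
  b := A.g
  lv := A.lv
  lv' := A.lv
  c := A.c
  inv M n u hn := by
    rw [hA.g_add, g_fix n u hn]
  lev M u := lv_g M u
  size := A.size
  iso u u' M hM := by
    obtain ⟨M₀, hM₀⟩ := S.nonempty (A.lv u ⊔ A.lv u') (by
      have h1 := S.size_sup (A.lv u) (A.lv u')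
      have h2 := A.size u
      have h3 := A.size u'
      omega)
    have h1 : M₀ + M ∈ S.Sol (A.lv u ⊔ A.lv u') := by
      rw [S.sol_iff _ M₀ _ hM₀, add_sub_cancel_left]
      exact hM
    rw [A.iso u u' _ h1, hA.b_add, hA.b_add]
    refine (A.iso (A.g M u) (A.g M u') M₀ ?_).symm
    rwa [lv_g, lv_g]

theorem left_torsor (hA : A.Torsor) (hK : A.c + A.c ≤ S.K) : (A.left hA hK).Torsor := by
  intro M h u
  show A.g (M + h) u = A.g M ((A.g 0).symm (A.g h u))
  have h1 : (A.g 0).symm (A.g h u) = A.g h u := by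
    rw [Equiv.symm_apply_eq, g_zero]
  rw [h1, hA.g_add]

/-- The automorphisms of the second graph. -/
def right (A : Act S G H) (hA : A.Torsor) (hK : A.c + A.c ≤ S.K) : Act S.hom H H where
  b M := (A.b 0).symm.trans (A.b M)
  lv := A.lv'
  lv' := A.lv'
  c := A.c
  inv M n w hn := by
    show A.b (M + n) ((A.b 0).symm w) = A.b M ((A.b 0).symm w)
    refine A.inv M n _ ?_
    rwa [lv_symm]
  lev M w := by
    show A.lv' (A.b M ((A.b 0).symm w)) = A.lv' w
    rw [A.lev, lv_symm]
  size w := by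
    rw [← lv_symm (A := A) w]
    exact A.size _
  iso w w' M hM := by
    show H.Adj w w' ↔ H.Adj (A.b M ((A.b 0).symm w)) (A.b M ((A.b 0).symm w'))
    obtain ⟨M₀, hM₀⟩ := S.nonempty (A.lv' w ⊔ A.lv' w') (by
      have h1 := S.size_sup (A.lv' w) (A.lv' w')
      have h2 := A.size ((A.b 0).symm w)
      have h3 := A.size ((A.b 0).symm w')
      rw [lv_symm] at h2 h3
      omega)
    have key : ∀ z : V', z = A.b M₀ (A.g (-M₀) ((A.b 0).symm z)) ∧
        A.b M ((A.b 0).symm z) = A.b (M₀ + M) (A.g (-M₀) ((A.b 0).symm z)) := by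
      intro z
      constructor
      · rw [← hA.b_add, add_neg_cancel, Equiv.apply_symm_apply]
      · have h1 : A.b (M₀ + M) (A.g (-M₀) ((A.b 0).symm z)) =
            A.b ((M₀ + M) + -M₀) ((A.b 0).symm z) := (hA.b_add _ _ _).symm
        rw [h1]
        congr 2
        abel
    have hl : ∀ z : V', A.lv (A.g (-M₀) ((A.b 0).symm z)) = A.lv' z := fun z => by
      rw [lv_g, lv_symm]
    have h2 : M₀ + M ∈ S.Sol (A.lv' w ⊔ A.lv' w') := by
      rw [S.sol_iff _ M₀ _ hM₀, add_sub_cancel_left]
      exact hM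
    rw [(key w).2, (key w').2]
    conv_lhs => rw [(key w).1, (key w').1]
    rw [← A.iso _ _ M₀ (by rwa [hl, hl]), ← A.iso _ _ (M₀ + M) (by rwa [hl, hl])]

theorem right_torsor (hA : A.Torsor) (hK : A.c + A.c ≤ S.K) : (A.right hA hK).Torsor := by
  intro M h w
  show A.b (M + h) ((A.b 0).symm w) = A.b M ((A.b 0).symm
    (((A.b 0).symm.trans (A.b 0)).symm (A.b h ((A.b 0).symm w))))
  have h1 : ((A.b 0).symm.trans (A.b 0)).symm (A.b h ((A.b 0).symm w)) =
      A.b h ((A.b 0).symm w) := by
    rw [Equiv.symm_apply_eq]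
    show _ = A.b 0 ((A.b 0).symm _)
    rw [Equiv.apply_symm_apply]
  rw [h1]
  exact hA M h _

/-- The level of a tuple. -/
def lvT {ι : Type} [Fintype ι] {V : Type} (lv : V → L) (w : ι → V) : L :=
  Finset.univ.sup fun a => lv (w a)

theorem size_lvT {ι : Type} [Fintype ι] (A : Act S G H) (w : ι → V) :
    S.size (lvT A.lv w) ≤ A.c * Fintype.card ι := by
  classical
  have h : ∀ s : Finset ι, S.size (s.sup fun a => A.lv (w a)) ≤ A.c * s.card := by
    intro s
    induction s using Finset.induction_on with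
    | empty => simp [S.size_bot]
    | insert a s ha ih =>
      rw [Finset.sup_insert, Finset.card_insert_of_notMem ha]
      have h1 := S.size_sup (A.lv (w a)) (s.sup fun a => A.lv (w a))
      have h2 := A.size (w a)
      rw [mul_add, mul_one]
      omega
  exact h Finset.univ

theorem lvT_congr {ι : Type} [Fintype ι] {U U' : Type} {lv : U → L} {lv' : U' → L} {w : ι → U}
    {w' : ι → U'} (h : ∀ a, lv' (w' a) = lv (w a)) : lvT lv' w' = lvT lv w := by
  unfold lvT
  congr 1
  funext a
  exact h a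

theorem lv_le_lvT {ι : Type} [Fintype ι] {U : Type} {lv : U → L} (w : ι → U) (a : ι) :
    lv (w a) ≤ lvT lv w := Finset.le_sup (f := fun a => lv (w a)) (Finset.mem_univ a)

theorem comp_subst {U U' : Type} {k m : ℕ} (f : U → U') (ι : Fin m ⊕ Fin m ↪ Fin k)
    (u : Fin k → U) (x y : Fin m → U) :
    (fun a => f (subst ι u x y a)) =
      subst ι (fun a => f (u a)) (fun a => f (x a)) (fun a => f (y a)) := by
  funext a
  unfold subst
  by_cases h : ∃ b, ι b = a
  · obtain ⟨b, rfl⟩ := h
    rw [ι.injective.extend_apply, ι.injective.extend_apply]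
    rcases b with b | b <;> rfl
  · rw [Function.extend_apply' _ _ _ h, Function.extend_apply' _ _ _ h]

theorem lvT_subst {U : Type} {k m : ℕ} (lv : U → L) (ι : Fin m ⊕ Fin m ↪ Fin k)
    (u : Fin k → U) (x y : Fin m → U) :
    lvT lv (subst ι u x y) ≤ lvT lv u ⊔ lvT lv x ⊔ lvT lv y := by
  refine Finset.sup_le fun a _ => ?_
  unfold subst
  by_cases h : ∃ b, ι b = a
  · obtain ⟨b, rfl⟩ := h
    rw [ι.injective.extend_apply]
    rcases b with b | b
    · exact (lv_le_lvT x b).trans (le_sup_right.trans le_sup_left)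
    · exact (lv_le_lvT y b).trans le_sup_right
  · rw [Function.extend_apply' _ _ _ h]
    exact (lv_le_lvT u a).trans (le_sup_left.trans le_sup_left)

variable [Fintype X] [Fintype V] [Fintype V']

/-- One invertible matrix for all pairs of functions which correspond to each other locally. -/
theorem exists_similar [DecidableEq V] [DecidableEq V'] (hA : A.Torsor) {K : Type} [Field K] [IsAlgClosed K]
    (hX : (Fintype.card X : K) ≠ 0) {k m : ℕ} (hsz : 4 * (A.c * k) ≤ S.K)
    (ι : Fin m ⊕ Fin m ↪ Fin k) (u : Fin k → V) {M₀ : X} (hM₀ : M₀ ∈ S.Sol (lvT A.lv u)) :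
    ∃ (P : Matrix (Fin m → V) (Fin m → V') K) (Q : Matrix (Fin m → V') (Fin m → V) K),
      P * Q = 1 ∧ Q * P = 1 ∧ ∀ (α : (Fin k → V) → K) (β : (Fin k → V') → K),
      (∀ w, ∀ M ∈ S.Sol (lvT A.lv w), α w = β fun a => A.b M (w a)) →
      (Matrix.of fun x y => α (subst ι u x y)) * P =
        P * (Matrix.of fun x y => β (subst ι (fun a => A.b M₀ (u a)) x y)) := by
  have hm : m ≤ k := by
    have := Fintype.card_le_of_embedding ι
    rw [Fintype.card_sum, Fintype.card_fin, Fintype.card_fin] at this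
    omega
  have hcm : A.c * m ≤ A.c * k := Nat.mul_le_mul_left _ hm
  obtain ⟨P, Q, hPQ, hQP, h⟩ := exists_intertwiner (S := S) (K := K) (Y := Fin m → V)
    (fun t y a => A.g t (y a)) (fun y => lvT A.lv y) (W₀ := lvT A.lv u) (M₀ := M₀)
    (r := A.c * k) hX (fun y => funext fun a => g_zero _)
    (fun s t y => funext fun a => hA.g_add s t _)
    (fun t y => lvT_congr fun a => lv_g t _)
    (fun y n hn => funext fun a => g_fix n _ (S.N_anti _ _ (lv_le_lvT y a) hn))
    (fun y => (A.size_lvT y).trans (by rwa [Fintype.card_fin])) (by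
      have h1 := A.size_lvT u
      rw [Fintype.card_fin] at h1
      omega) hM₀
  let e : (Fin m → V) ≃ (Fin m → V') := Equiv.arrowCongr (Equiv.refl _) (A.b M₀)
  have he : ∀ y, e y = fun a => A.b M₀ (y a) := fun y => rfl
  refine ⟨Q.submatrix id e.symm, P.submatrix e.symm id, ?_, ?_, ?_⟩
  · rw [Matrix.submatrix_mul_equiv, hQP]
    exact Matrix.submatrix_one_equiv (Equiv.refl _)
  · rw [← Matrix.submatrix_mul P Q e.symm id e.symm Function.bijective_id, hPQ]
    exact Matrix.submatrix_one_equiv e.symm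
  · intro α β hαβ
    let AA : Matrix (Fin m → V) (Fin m → V) K := Matrix.of fun x y => α (subst ι u x y)
    let BB : Matrix (Fin m → V') (Fin m → V') K :=
      Matrix.of fun x y => β (subst ι (fun a => A.b M₀ (u a)) x y)
    have h1 : P * AA = BB.submatrix e e * P := by
      refine h AA (BB.submatrix e e) fun x y t ht hS => ?_
      have hl := lvT_subst A.lv ι u x y
      have h2 := hαβ (subst ι u x y) (M₀ + t) (S.Sol_anti _ _ hl hS)
      show α (subst ι u x y) = β (subst ι (fun a => A.b M₀ (u a)) (fun a => A.b M₀ (A.g t (x a)))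
        (fun a => A.b M₀ (A.g t (y a))))
      rw [h2, comp_subst (fun v => A.b (M₀ + t) v)]
      simp only [hA.b_add]
      have h3 : (fun a => A.b M₀ (A.g t (u a))) = fun a => A.b M₀ (u a) := by
        funext a
        rw [g_fix t (u a) (S.N_anti _ _ (lv_le_lvT u a) ht)]
      rw [h3]
    have h2 : AA * Q = Q * BB.submatrix e e := by
      calc AA * Q = Q * P * (AA * Q) := by rw [hQP, Matrix.one_mul]
        _ = Q * (P * AA) * Q := by simp only [Matrix.mul_assoc]
        _ = Q * (BB.submatrix e e * P) * Q := by rw [h1]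
        _ = Q * BB.submatrix e e * (P * Q) := by simp only [Matrix.mul_assoc]
        _ = _ := by rw [hPQ, Matrix.mul_one]
    show AA * Q.submatrix id e.symm = Q.submatrix id e.symm * BB
    have h3 : BB = (BB.submatrix e e).submatrix e.symm e.symm := by
      ext x y
      show BB x y = BB (e (e.symm x)) (e (e.symm y))
      rw [Equiv.apply_symm_apply, Equiv.apply_symm_apply]
    rw [h3, Matrix.submatrix_mul_equiv, ← h2]
    have h4 : AA = AA.submatrix id id := rfl
    conv_lhs => rw [h4]
    exact (Matrix.submatrix_mul AA Q id id e.symm Function.bijective_id).symm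

/-- Similarity of the class matrices. -/
theorem compat (hA : A.Torsor) {p k : ℕ}
    (hX : ∀ (K : Type) [Field K], (p : K) ≠ 0 → (Fintype.card X : K) ≠ 0)
    (hsz : 4 * (A.c * k) ≤ S.K) (hc : A.c + A.c ≤ S.K) {T : Type} (R : T → T → Prop)
    (hR : Equivalence R)
    (i : (Fin k → V) → T) (j : (Fin k → V') → T)
    (h1 : ∀ u v, R (i u) (j v) → ∃ M ∈ S.Sol (lvT A.lv u), v = fun a => A.b M (u a))
    (h2 : ∀ u, ∀ M ∈ S.Sol (lvT A.lv u), R (i u) (j fun a => A.b M (u a))) :
    Compat p R G H i j := by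
  intro u v huv
  obtain ⟨M₀, hM₀, rfl⟩ := h1 u v huv
  refine ⟨fun a b => ⟨(A.b M₀).injective.eq_iff.symm, ?_⟩, ?_⟩
  · exact A.iso _ _ M₀ (S.Sol_anti _ _ (sup_le (lv_le_lvT u a) (lv_le_lvT u b)) hM₀)
  intro K _ hp m ι
  classical
  have hX' : (Fintype.card X : AlgebraicClosure K) ≠ 0 := by
    intro h3
    apply hX K hp
    apply (algebraMap K (AlgebraicClosure K)).injective
    rw [map_natCast, map_zero, h3]
  obtain ⟨P, Q, hPQ, hQP, h3⟩ := exists_similar hA hX' hsz ι u hM₀
  refine ⟨P, Q, ?_, ?_, fun c => ?_⟩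
  · convert hPQ
  · convert hQP
  · refine h3 (fun w => if R c (i w) then 1 else 0) (fun w => if R c (j w) then 1 else 0)
      fun w M hM => ?_
    have h4 := h2 w M hM
    have h5 : R c (i w) ↔ R c (j fun a => A.b M (w a)) :=
      ⟨fun h => hR.trans h h4, fun h => hR.trans h (hR.symm h4)⟩
    simp only [h5]

/-- A tuple can be reached from `w`. -/
def Reach (A : Act S G H) {k : ℕ} (w : Fin k → V) : (Fin k → V) ⊕ (Fin k → V') → Prop
  | Sum.inl u => ∃ h ∈ S.D (lvT A.lv w), u = fun a => A.g h (w a)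
  | Sum.inr v => ∃ M ∈ S.Sol (lvT A.lv w), v = fun a => A.b M (w a)

/-- The theorem on invertible-map equivalence. -/
theorem imEquiv (hA : A.Torsor) {p k : ℕ}
    (hX : ∀ (K : Type) [Field K], (p : K) ≠ 0 → (Fintype.card X : K) ≠ 0)
    (hsz : 4 * (A.c * k) ≤ S.K) (hc : A.c + A.c ≤ S.K) : IMEquiv p k G H := by
  let R : (Fin k → V) ⊕ (Fin k → V') → (Fin k → V) ⊕ (Fin k → V') → Prop :=
    fun a b => ∀ w, A.Reach w a ↔ A.Reach w b
  have hR : Equivalence R := ⟨fun _ _ => Iff.rfl, fun h w => (h w).symm,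
    fun h1 h2 w => (h1 w).trans (h2 w)⟩
  have lb : ∀ (M : X) (w : Fin k → V), lvT A.lv' (fun a => A.b M (w a)) = lvT A.lv w :=
    fun M w => lvT_congr fun a => A.lev M _
  have lg : ∀ (M : X) (w : Fin k → V), lvT A.lv (fun a => A.g M (w a)) = lvT A.lv w :=
    fun M w => lvT_congr fun a => lv_g M _
  have add_mem : ∀ W, ∀ M ∈ S.Sol W, ∀ h ∈ S.D W, M + h ∈ S.Sol W := by
    intro W M hM h hh
    rw [S.sol_iff _ M _ hM, add_sub_cancel_left]
    exact hh
  have sub_mem : ∀ W, ∀ M ∈ S.Sol W, ∀ M' ∈ S.Sol W, M' - M ∈ S.D W := fun W M hM M' hM' =>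
    (S.sol_iff _ M _ hM).1 hM'
  -- elements related by the maps are equivalent
  have r1 : ∀ u, ∀ h ∈ S.D (lvT A.lv u), R (Sum.inl u) (Sum.inl fun a => A.g h (u a)) := by
    intro u h hh w
    constructor
    · rintro ⟨h', hh', rfl⟩
      rw [lg] at hh
      exact ⟨h + h', (S.D _).add_mem hh hh', funext fun a => (hA.g_add _ _ _).symm⟩
    · rintro ⟨h', hh', he⟩
      have e1 : lvT A.lv u = lvT A.lv w := by
        rw [← lg h u, he, lg]
      rw [e1] at hh
      refine ⟨-h + h', (S.D _).add_mem ((S.D _).neg_mem hh) hh', funext fun a => ?_⟩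
      have e2 := congrFun he a
      have e3 : A.g (-h) (A.g h (u a)) = A.g (-h) (A.g h' (w a)) := congrArg _ e2
      rw [← hA.g_add, ← hA.g_add, neg_add_cancel, g_zero] at e3
      exact e3
  have r2 : ∀ u, ∀ M ∈ S.Sol (lvT A.lv u), R (Sum.inl u) (Sum.inr fun a => A.b M (u a)) := by
    intro u M hM w
    constructor
    · rintro ⟨h', hh', rfl⟩
      rw [lg] at hM
      exact ⟨M + h', add_mem _ M hM h' hh', funext fun a => (hA.b_add _ _ _).symm⟩
    · rintro ⟨M', hM', he⟩
      have e1 : lvT A.lv u = lvT A.lv w := by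
        rw [← lb M u, he, lb]
      rw [e1] at hM
      refine ⟨M' - M, sub_mem _ M hM M' hM', funext fun a => ?_⟩
      have e2 : A.b M (u a) = A.b M' (w a) := congrFun he a
      have e3 : M' = M + (M' - M) := by abel
      rw [e3, hA.b_add] at e2
      exact (A.b M).injective e2
  have lsymm : ∀ v : Fin k → V', lvT A.lv (fun a => (A.b 0).symm (v a)) = lvT A.lv' v :=
    fun v => lvT_congr fun a => lv_symm _
  have r3 : ∀ v, ∀ h ∈ S.D (lvT A.lv' v),
      R (Sum.inr v) (Sum.inr fun a => A.b h ((A.b 0).symm (v a))) := by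
    intro v h hh w
    constructor
    · rintro ⟨M, hM, rfl⟩
      rw [lb] at hh
      refine ⟨M + h, add_mem _ M hM h hh, funext fun a => ?_⟩
      show A.b h ((A.b 0).symm (A.b M (w a))) = A.b (M + h) (w a)
      have : (A.b 0).symm (A.b M (w a)) = A.g M (w a) := rfl
      rw [this, ← hA.b_add, add_comm]
    · rintro ⟨M, hM, he⟩
      have e1 : lvT A.lv' v = lvT A.lv w := by
        rw [← lsymm v, ← lb h, he, lb]
      rw [e1] at hh
      refine ⟨M + -h, add_mem _ M hM _ ((S.D _).neg_mem hh), funext fun a => ?_⟩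
      have e2 : A.b h ((A.b 0).symm (v a)) = A.b M (w a) := congrFun he a
      have e3 : M = h + (M + -h) := by abel
      rw [e3, hA.b_add] at e2
      have e4 := (A.b h).injective e2
      rw [Equiv.symm_apply_eq] at e4
      rw [e4, ← hA.b_add, zero_add]
  have hszT : ∀ w : Fin k → V, S.size (lvT A.lv w) ≤ S.K := by
    intro w
    have := A.size_lvT w
    rw [Fintype.card_fin] at this
    omega
  refine ⟨R, hR, ?_, ?_, ?_, ?_⟩
  · refine compat (left_torsor hA hc) hX hsz hc R hR Sum.inl Sum.inl ?_ ?_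
    · intro u v huv
      exact (huv u).1 ⟨0, (S.D _).zero_mem, funext fun a => (g_zero _).symm⟩
    · intro u M hM
      exact r1 u M hM
  · refine compat hA hX hsz hc R hR Sum.inl Sum.inr ?_ ?_
    · intro u v huv
      exact (huv u).1 ⟨0, (S.D _).zero_mem, funext fun a => (g_zero _).symm⟩
    · intro u M hM
      exact r2 u M hM
  · refine compat (right_torsor hA hc) hX hsz hc R hR Sum.inr Sum.inr ?_ ?_
    · intro v v' hvv
      obtain ⟨M₀, hM₀⟩ := S.nonempty (lvT A.lv' v) (by
        rw [← lsymm v]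
        exact hszT _)
      let w : Fin k → V := fun a => (A.b M₀).symm (v a)
      have hv : v = fun a => A.b M₀ (w a) := funext fun a => ((A.b M₀).apply_symm_apply _).symm
      have hl : lvT A.lv' v = lvT A.lv w := by
        rw [hv, lb]
      rw [hl] at hM₀
      obtain ⟨M, hM, he⟩ := (hvv w).1 ⟨M₀, hM₀, hv⟩
      refine ⟨M - M₀, ?_, ?_⟩
      · show M - M₀ ∈ S.D (lvT A.lv' v)
        rw [hl]
        exact sub_mem _ M₀ hM₀ M hM
      · rw [he]
        funext a
        show A.b M (w a) = A.b (M - M₀) ((A.b 0).symm (v a))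
        have e1 : (A.b 0).symm (v a) = A.g M₀ (w a) := by
          rw [hv]
          rfl
        rw [e1, ← hA.b_add, sub_add_cancel]
    · intro v M hM
      exact r3 v M hM
  · refine ⟨⟨fun u a => A.b (S.pt (lvT A.lv u)) (u a),
      fun v a => (A.b (S.pt (lvT A.lv' v))).symm (v a), ?_, ?_⟩, ?_⟩
    · intro u
      funext a
      show (A.b (S.pt (lvT A.lv' fun a => A.b (S.pt (lvT A.lv u)) (u a)))).symm
        (A.b (S.pt (lvT A.lv u)) (u a)) = u a
      rw [lb, Equiv.symm_apply_apply]
    · intro v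
      funext a
      show A.b (S.pt (lvT A.lv fun a => (A.b (S.pt (lvT A.lv' v))).symm (v a)))
        ((A.b (S.pt (lvT A.lv' v))).symm (v a)) = v a
      have h1 : lvT A.lv (fun a => (A.b (S.pt (lvT A.lv' v))).symm (v a)) = lvT A.lv' v := by
        refine lvT_congr fun a => ?_
        rw [← A.lev (S.pt (lvT A.lv' v)), Equiv.apply_symm_apply]
      rw [h1, Equiv.apply_symm_apply]
    · intro u
      exact r2 u _ (S.pt_mem (S.nonempty _ (hszT u)))

end Act

end Pool.Agent.TH658.Sos
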