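import Pool.Agent.TH658.Sos.Prs

/-!
# The pseudorandom graphs
-/

set_option autoImplicit false
set_option linter.unusedSectionVars false

namespace Pool.Agent.TH658.Sos

open Finset Pool.Agent.W893.PR

/-- Transport of the bijections. -/
def Act.comap {X L : Type} [AddCommGroup X] [SemilatticeSup L] [OrderBot L] {S : Sys X L}
    {V V' U U' : Type} {G : SimpleGraph V} {H : SimpleGraph V'} (A : Act S G H) (e : U ≃ V)
    (e' : U' ≃ V') : Act S (G.comap e) (H.comap e') where
  b M := (e.trans (A.b M)).trans e'.symm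
  lv u := A.lv (e u)
  lv' u := A.lv' (e' u)
  c := A.c
  inv M n u hn := by
    show e'.symm (A.b (M + n) (e u)) = e'.symm (A.b M (e u))
    rw [A.inv M n (e u) hn]
  lev M u := by
    show A.lv' (e' (e'.symm (A.b M (e u)))) = _
    rw [Equiv.apply_symm_apply, A.lev]
  size u := A.size (e u)
  iso u u' M hM := by
    show G.Adj (e u) (e u') ↔ H.Adj (e' (e'.symm (A.b M (e u)))) (e' (e'.symm (A.b M (e u'))))
    rw [Equiv.apply_symm_apply, Equiv.apply_symm_apply]
    exact A.iso (e u) (e u') M hM

/-- The main construction (the proof is the one of `Pool.Agent.W893.PR.main` with another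
conclusion). -/
theorem mainPr (ε : ℝ) (hε : 0 < ε) (hε1 : ε ≤ 1 / 4) :
    ∃ c : ℝ, 0 < c ∧ ∃ n₀ : ℕ, ∀ n : ℕ, n₀ ≤ n → ∃ G H : SimpleGraph (Fin n),
      Pseudorandom ε G ∧ Pseudorandom ε H ∧
      (∀ π : Equiv.Perm (Fin n), (1 / 2 - ε) * (n : ℝ) ^ 2 ≤ errors G H π) ∧
      ∀ k : ℕ, (k : ℝ) ≤ c * Real.log n →
        (∀ (K : Type) [Field K], (2 : K) ≠ 0 → ¬ PCRefutes K G H k) ∧ ¬ PosRefutes G H k := by
  classical
  set C : ℝ := 2000000 / (2 * ε) ^ 5 + 16 / ε ^ 2 with hC
  have hC1 : 2000000 / (2 * ε) ^ 5 ≤ C := by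
    have : 0 ≤ 16 / ε ^ 2 := by positivity
    linarith
  have hC2 : 16 / ε ^ 2 ≤ C := by
    have : 0 ≤ 2000000 / (2 * ε) ^ 5 := by positivity
    linarith
  have hC3 : 16 ≤ ε ^ 2 * C := by
    have := mul_le_mul_of_nonneg_left hC2 (show 0 ≤ ε ^ 2 by positivity)
    calc (16 : ℝ) = ε ^ 2 * (16 / ε ^ 2) := by field_simp
      _ ≤ _ := this
  have hC4 : 16 ≤ C := by
    have h1 : ε ^ 2 ≤ 1 := pow_le_one₀ hε.le (by linarith)
    have h0 : 0 ≤ C := le_trans (by positivity) hC2
    nlinarith
  have hC0 : 0 < C := by linarith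
  set Λ : ℝ := Real.log (32 * C) with hΛ
  have hΛ0 : 0 < Λ := Real.log_pos (by linarith)
  refine ⟨1 / (96 * Λ), by positivity, ⌈Real.exp (128 * C + 32 * Λ + 2)⌉₊, ?_⟩
  intro n hn
  have hn1 : Real.exp (128 * C + 32 * Λ + 2) ≤ n := (Nat.le_ceil _).trans (by exact_mod_cast hn)
  have hn0 : (0 : ℝ) < n := lt_of_lt_of_le (Real.exp_pos _) hn1
  set l : ℝ := Real.log n with hl
  have hl1 : 128 * C + 32 * Λ + 2 ≤ l := by
    rw [hl, Real.le_log_iff_exp_le hn0]
    exact hn1
  have hnl : (n : ℝ) = Real.exp l := by rw [hl, Real.exp_log hn0]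
  have hl2 : 2 ≤ l := by linarith
  have hl0 : 0 < l := by linarith
  have hl128 : 128 * C ≤ l := by linarith
  have hl32 : 32 * Λ ≤ l := by linarith
  have hn3 : (3 : ℝ) ≤ n := by
    rw [hnl]
    have := Real.add_one_le_exp l
    linarith
  -- the parameters
  have hL1 := Nat.le_ceil (C * l)
  have hL2 := Nat.ceil_lt_add_one (show 0 ≤ C * l by positivity)
  set L : ℕ := ⌈C * l⌉₊ with hL
  have hCl : 1 ≤ C * l := by nlinarith
  have hL0 : (0 : ℝ) < L := by linarith
  have hL00 : 0 < L := by exact_mod_cast hL0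
  have hL3 : 2 * (L : ℝ) ≤ 4 * C * l := by linarith
  have hexp4 : 4 * C * l ≤ Real.exp (l / 4) := by
    have h1 := Real.quadratic_le_exp_of_nonneg (show 0 ≤ l / 4 by positivity)
    have h2 : 4 * C * l ≤ (l / 4) ^ 2 / 2 := by nlinarith
    have h3 : 0 ≤ l / 4 := by positivity
    linarith
  have hLn : L ≤ n := by
    have : (L : ℝ) ≤ n := by
      calc (L : ℝ) ≤ 2 * L := by linarith
        _ ≤ Real.exp (l / 4) := hL3.trans hexp4
        _ ≤ Real.exp l := Real.exp_le_exp.mpr (by linarith)
        _ = n := hnl.symm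
    exact_mod_cast this
  have hnL : n / L ≠ 0 := by
    have := Nat.div_pos hLn hL00
    omega
  have hd1 := Nat.pow_log_le_self 2 hnL
  have hd2 := Nat.lt_pow_succ_log_self (b := 2) (by norm_num) (n / L)
  set d : ℕ := Nat.log 2 (n / L) with hd
  have h2d : 0 < 2 ^ d := by positivity
  have hLd : L * 2 ^ d ≤ n := by
    have := (Nat.le_div_iff_mul_le hL00).mp hd1
    linarith
  have hnd : n < 2 * L * 2 ^ d := by
    have := (Nat.div_lt_iff_lt_mul hL00).mp hd2
    rw [pow_succ] at this
    linarith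
  set N : ℕ := n / 2 ^ d with hN
  have hLN : L ≤ N := (Nat.le_div_iff_mul_le h2d).mpr hLd
  have hN2L : N < 2 * L := (Nat.div_lt_iff_lt_mul h2d).mpr hnd
  have hNN : 0 < N := lt_of_lt_of_le hL00 hLN
  set r : ℕ := n % 2 ^ d with hr
  have hr1 : r < 2 ^ d := Nat.mod_lt _ h2d
  have hnNr : N * 2 ^ d + r = n := by
    have := Nat.div_add_mod n (2 ^ d)
    rw [mul_comm] at this
    exact this
  have hLNR : (L : ℝ) ≤ N := by exact_mod_cast hLN
  have hN2LR : (N : ℝ) ≤ 2 * L := by exact_mod_cast hN2L.le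
  have hClN : C * l ≤ N := hL1.trans hLNR
  have hNClR : (N : ℝ) ≤ 4 * C * l := hN2LR.trans hL3
  have h2dR : (2 : ℝ) ^ d ≤ Real.exp l := by
    rw [← hnl]
    have : 2 ^ d ≤ n := by nlinarith
    exact_mod_cast this
  have h2dR' : Real.exp (3 * l / 4) ≤ (2 : ℝ) ^ d := by
    have h1 : (n : ℝ) ≤ 2 * L * 2 ^ d := by exact_mod_cast hnd.le
    have h2 : Real.exp l ≤ Real.exp (l / 4) * 2 ^ d := by
      rw [← hnl]
      refine h1.trans ?_
      exact mul_le_mul_of_nonneg_right (hL3.trans hexp4) (by positivity)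
    have h3 : Real.exp l = Real.exp (l / 4) * Real.exp (3 * l / 4) := by
      rw [← Real.exp_add]
      congr 1
      ring
    rw [h3] at h2
    exact le_of_mul_le_mul_left h2 (Real.exp_pos _)
  -- the vectors
  set k₀ : ℕ := ⌊1 / (16 * Λ) * l⌋₊ + 2 with hk₀
  have hk₀1 : (k₀ : ℝ) ≤ 1 / (16 * Λ) * l + 2 := by
    have := Nat.floor_le (show 0 ≤ 1 / (16 * Λ) * l by positivity)
    rw [hk₀]
    push_cast
    linarith
  obtain ⟨a, ha1, ha2⟩ := exists_vectors N d k₀ hNN (ε * N) (1 / (32 * C)) (by positivity)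
    (by positivity) (by
      rw [div_le_one (by positivity)]
      linarith) (by
      have f1 : (1 + 1 / (32 * C)) ^ N ≤ Real.exp (l / 8) := by
        calc (1 + 1 / (32 * C)) ^ N ≤ (Real.exp (1 / (32 * C))) ^ N := by
              apply pow_le_pow_left₀ (by positivity)
              have := Real.add_one_le_exp (1 / (32 * C))
              linarith
          _ = Real.exp (N * (1 / (32 * C))) := by rw [← Real.exp_nat_mul]
          _ ≤ Real.exp (l / 8) := by
              apply Real.exp_le_exp.mpr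
              calc (N : ℝ) * (1 / (32 * C)) ≤ (4 * C * l) * (1 / (32 * C)) :=
                    mul_le_mul_of_nonneg_right hNClR (by positivity)
                _ = l / 8 := by field_simp; norm_num
      have f2 : Real.exp (-(l / 8)) ≤ (1 / (32 * C)) ^ k₀ := by
        have h1 : (1 / (32 * C)) = Real.exp (-Λ) := by
          rw [Real.exp_neg, hΛ, Real.exp_log (by positivity), one_div]
        rw [h1, ← Real.exp_nat_mul]
        apply Real.exp_le_exp.mpr
        have h2 : (k₀ : ℝ) * Λ ≤ (1 / (16 * Λ) * l + 2) * Λ :=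
          mul_le_mul_of_nonneg_right hk₀1 hΛ0.le
        have h3 : (1 / (16 * Λ) * l + 2) * Λ = l / 16 + 2 * Λ := by field_simp
        have h4 : (k₀ : ℝ) * -Λ = -(k₀ * Λ) := by ring
        rw [h4]
        linarith
      have f3 : (1 + 1 / (32 * C)) ^ N / ((1 / (32 * C)) ^ k₀ * 2 ^ d) ≤ Real.exp (-(l / 2)) := by
        rw [div_le_iff₀ (by positivity)]
        calc (1 + 1 / (32 * C)) ^ N ≤ Real.exp (l / 8) := f1
          _ = Real.exp (-(l / 2)) * (Real.exp (-(l / 8)) * Real.exp (3 * l / 4)) := by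
              rw [← Real.exp_add, ← Real.exp_add]
              congr 1
              ring
          _ ≤ _ := by
              apply mul_le_mul_of_nonneg_left _ (Real.exp_pos _).le
              exact mul_le_mul f2 h2dR' (Real.exp_pos _).le (by positivity)
      have f4 : Real.exp (-(l / 2)) < 1 / 2 := by
        have h1 : Real.exp (-(l / 2)) ≤ Real.exp (-1) := Real.exp_le_exp.mpr (by linarith)
        have h2 : Real.exp (-1) < 1 / 2 := by
          rw [Real.exp_neg, one_div]
          apply inv_strictAnti₀ (by norm_num)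
          have := Real.exp_one_gt_d9
          linarith
        linarith
      have f5 : (2 : ℝ) ^ d * (2 * Real.exp (-((ε * N) ^ 2 / (2 * N)))) < 1 / 2 := by
        have hNR : (0 : ℝ) < N := by exact_mod_cast hNN
        have e1 : (ε * N) ^ 2 / (2 * N) = ε ^ 2 * N / 2 := by
          field_simp
        have e2 : 8 * l ≤ ε ^ 2 * N / 2 := by
          have h1 : ε ^ 2 * (C * l) ≤ ε ^ 2 * N := mul_le_mul_of_nonneg_left hClN (by positivity)
          have h2 : 16 * l ≤ ε ^ 2 * C * l := mul_le_mul_of_nonneg_right hC3 hl0.le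
          linarith
        rw [e1]
        have h7 : Real.exp (-(7 * l)) < 1 / 4 := by
          have h1 : Real.exp (-(7 * l)) ≤ Real.exp (-2) := Real.exp_le_exp.mpr (by linarith)
          have h2 : Real.exp (-2) < 1 / 4 := by
            have h3 : Real.exp (-2) = (Real.exp 1 * Real.exp 1)⁻¹ := by
              rw [← Real.exp_add, ← Real.exp_neg]
              norm_num
            rw [h3, one_div]
            apply inv_strictAnti₀ (by norm_num)
            have := Real.exp_one_gt_d9
            nlinarith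
          linarith
        calc (2 : ℝ) ^ d * (2 * Real.exp (-(ε ^ 2 * N / 2)))
            ≤ Real.exp l * (2 * Real.exp (-(8 * l))) := by
              apply mul_le_mul h2dR _ (by positivity) (by positivity)
              apply mul_le_mul_of_nonneg_left _ (by norm_num)
              exact Real.exp_le_exp.mpr (by linarith)
          _ = 2 * Real.exp (-(7 * l)) := by
              have : Real.exp (-(7 * l)) = Real.exp l * Real.exp (-(8 * l)) := by
                rw [← Real.exp_add]
                congr 1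
                ring
              rw [this]
              ring
          _ < 1 / 2 := by linarith
      linarith)
  have ha : ∀ i, a i ≠ 0 := by
    intro i
    have := ha1 {i} (Finset.singleton_nonempty i) (by simp [hk₀])
    simpa using this
  have hinj : Function.Injective a := by
    intro i j hij
    by_contra hne
    have h1 := ha1 {i, j} ⟨i, by simp⟩ (by
      rw [Finset.card_pair hne, hk₀]
      omega)
    rw [Finset.sum_pair hne, hij] at h1
    apply h1
    funext t
    have h2 : ∀ z : ZMod 2, z + z = 0 := by decide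
    exact h2 _
  -- the further vertices
  obtain ⟨R, hR0, hRr⟩ : ∃ R : Finset (F2 d), 0 ∉ R ∧ R.card = r := by
    have h1 : r ≤ ((univ : Finset (F2 d)).erase 0).card := by
      rw [Finset.card_erase_of_mem (Finset.mem_univ _), Finset.card_univ, card_F2]
      omega
    obtain ⟨R, hR1, hR2⟩ := Finset.exists_subset_card_eq h1
    exact ⟨R, fun h => by simpa using hR1 h, hR2⟩
  have hR : R.card ≤ 2 ^ d := by omega
  have hcard : Fintype.card (VT N d R) = n := by
    rw [Fintype.card_sum, Fintype.card_prod, Fintype.card_fin, card_F2, Fintype.card_coe, hRr]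
    exact hnNr
  have hps : ∀ s : Sym2 (Fin N) → ZMod 2, Pseudorandom ε (FG a R s) := by
    intro s
    refine pseudorandom_family ha hinj (ε * N) ε ha2 (by positivity) hR hR0 ?_
    have h1 : ε * (C * l) ≤ ε * N := mul_le_mul_of_nonneg_left hClN hε.le
    have h2 : 9 ≤ ε * (C * l) := by
      have h3 : 16 ≤ ε * (ε * C) := by
        calc (16 : ℝ) ≤ ε ^ 2 * C := hC3
          _ = _ := by ring
      have h4 : 16 ≤ ε * C := by
        have : ε * (ε * C) ≤ 1 * (ε * C) := mul_le_mul_of_nonneg_right (by linarith) (by positivity)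
        linarith
      nlinarith
    linarith
  obtain ⟨s, hs⟩ := exists_far_family a R (2 * ε) (by linarith) (by linarith)
    (by rw [hcard]; exact_mod_cast hn3) hR (by
      rw [hcard]
      refine le_trans ?_ hClN
      exact mul_le_mul_of_nonneg_right hC1 hl0.le)
  -- transport
  let e : Fin n ≃ VT N d R := (Fintype.equivFinOfCardEq hcard).symm
  refine ⟨(FG a R 0).comap e, (FG a R s).comap e, (hps 0).comap e, (hps s).comap e, ?_, ?_⟩
  · intro π
    rw [errors_comap]
    have := hs ((e.symm.trans π).trans e)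
    rw [hcard] at this
    calc (1 / 2 - ε) * (n : ℝ) ^ 2 = (1 - 2 * ε) / 2 * (n : ℝ) ^ 2 := by ring
      _ ≤ _ := this
  · intro k hk
    have hkk : 3 * (1 * (k + 1)) ≤ k₀ := by
      have e1 : ((3 * k + 1 : ℕ) : ℝ) ≤ 1 / (16 * Λ) * l := by
        push_cast
        have e2 : 1 ≤ l / (32 * Λ) := by
          rw [le_div_iff₀ (by positivity)]
          linarith
        have e3 : 3 * (k : ℝ) ≤ l / (32 * Λ) := by
          calc 3 * (k : ℝ) ≤ 3 * (1 / (96 * Λ) * l) := by linarith
            _ = l / (32 * Λ) := by field_simp; norm_num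
        calc 3 * (k : ℝ) + 1 ≤ l / (32 * Λ) + l / (32 * Λ) := by linarith
          _ = 1 / (16 * Λ) * l := by field_simp; norm_num
      have e4 : 3 * k + 1 ≤ ⌊1 / (16 * Λ) * l⌋₊ := Nat.le_floor e1
      omega
    have hsol : Solvable a k₀ := solvable_of_sum_ne a fun J hJ hJk => ha1 J hJ hJk
    let act := (prAct (R := R) a hsol 0 s).comap e e
    refine ⟨fun K _ h2 => act.not_pcRefutes K ?_ hkk, act.not_posRefutes hkk⟩
    rw [Fintype.card_fun, card_F2, Fintype.card_fin, Nat.cast_pow, Nat.cast_pow]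
    exact pow_ne_zero _ (pow_ne_zero _ h2)

end Pool.Agent.TH658.Sos
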