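import Pool.Agent.TH658.Sos.PrGen
import Pool.Agent.TH658.Sos.PrFinal
import Pool.Agent.TH658.Sos.Im

/-!
# Invertible-map equivalence of pseudorandom graphs
-/

set_option autoImplicit false
set_option linter.unusedSectionVars false

namespace Pool.Agent.TH658.Sos

open Finset Matrix Pool.Agent.W893.PR

section

variable {N d : ℕ} (a : Fin N → F2 d) {R : Finset (F2 d)}

theorem shift_add (t t' : Fin N → F2 d) (u : VT N d R) :
    shift (t + t') u = shift t (shift t' u) := by
  rcases u with p | z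
  · rw [shift_inl, shift_inl, shift_inl, Pi.add_apply, add_comm (t p.1), ← add_assoc]
  · rfl

theorem shift_zero_symm (u : VT N d R) : (shift (0 : Fin N → F2 d)).symm u = u := by
  rw [Equiv.symm_apply_eq]
  rcases u with p | z
  · rw [shift_inl, Pi.zero_apply, add_zero]
  · rfl

theorem prAct_torsor {k : ℕ} (hI : Solvable a k) (s s' : Sym2 (Fin N) → ZMod 2) :
    (prAct (R := R) a hI s s').Torsor := by
  intro M h u
  show shift (M + h) u = shift M ((shift 0).symm (shift h u))
  rw [shift_zero_symm, shift_add]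

end

theorem comap_torsor {X L : Type} [AddCommGroup X] [SemilatticeSup L] [OrderBot L] {S : Sys X L}
    {V V' U U' : Type} {G : SimpleGraph V} {H : SimpleGraph V'} {A : Act S G H} (hA : A.Torsor)
    (e : U ≃ V) (e' : U' ≃ V') : (A.comap e e').Torsor := by
  intro M h u
  show e'.symm (A.b (M + h) (e u)) = e'.symm (A.b M (e (((e.trans (A.b 0)).trans e'.symm).symm
    (e'.symm (A.b h (e u))))))
  congr 1
  have h1 : e (((e.trans (A.b 0)).trans e'.symm).symm (e'.symm (A.b h (e u)))) =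
      (A.b 0).symm (A.b h (e u)) := by
    rw [Equiv.symm_trans_apply, Equiv.symm_trans_apply, Equiv.symm_symm, Equiv.apply_symm_apply,
      Equiv.apply_symm_apply]
  rw [h1]
  exact hA M h (e u)

theorem lowerIM (ε : ℝ) (hε : 0 < ε) (hε1 : ε ≤ 1 / 4) :
    ∃ c : ℝ, 0 < c ∧ ∃ n₀ : ℕ, ∀ n : ℕ, n₀ ≤ n → ∃ G H : SimpleGraph (Fin n),
      Pseudorandom ε G ∧ Pseudorandom ε H ∧
      (∀ π : Equiv.Perm (Fin n), (1 / 2 - ε) * (n : ℝ) ^ 2 ≤ errors G H π) ∧
      ∀ k : ℕ, (k : ℝ) ≤ c * Real.log n → IMEquiv 2 k G H := by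
  obtain ⟨c, hc, n₀, h⟩ := mainGen ε hε hε1
  refine ⟨c / 4, by positivity, max n₀ ⌈Real.exp (2 / c)⌉₊, fun n hn => ?_⟩
  obtain ⟨N, d, a, R, s, e, h1, h2, h3, h4⟩ := h n ((le_max_left _ _).trans hn)
  refine ⟨_, _, h1, h2, h3, fun k hk => ?_⟩
  have hn1 : Real.exp (2 / c) ≤ n :=
    (Nat.le_ceil _).trans (by exact_mod_cast (le_max_right _ _).trans hn)
  have hn0 : (0 : ℝ) < n := lt_of_lt_of_le (Real.exp_pos _) hn1
  have hl : 2 / c ≤ Real.log n := by
    rw [Real.le_log_iff_exp_le hn0]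
    exact hn1
  have hl2 : 2 ≤ c * Real.log n := by
    rw [div_le_iff₀ hc] at hl
    linarith
  have hsol : Solvable a (max (4 * k) 2) := by
    apply h4
    push_cast
    refine max_le ?_ hl2
    linarith
  have hk1 : 4 * k ≤ max (4 * k) 2 := le_max_left _ _
  have hk2 : 2 ≤ max (4 * k) 2 := le_max_right _ _
  refine ((prAct (R := R) a hsol 0 s).comap e e).imEquiv (comap_torsor (prAct_torsor a hsol 0 s) e e)
    (fun K _ hK => ?_) ?_ ?_
  · rw [Fintype.card_fun, card_F2, Fintype.card_fin, Nat.cast_pow, Nat.cast_pow]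
    exact pow_ne_zero _ (pow_ne_zero _ hK)
  · show 4 * (1 * k) ≤ max (4 * k) 2
    omega
  · exact hk2

/-- From the similarity of the class matrices. -/
theorem exists_of_similar {K T V V' : Type} [Field K] [Fintype V] [Fintype V'] {R : T → T → Prop}
    (hR : Equivalence R) {k : ℕ} {i : (Fin k → V) → T} {j : (Fin k → V') → T}
    {ι : Fin 1 ⊕ Fin 1 ↪ Fin k} {u : Fin k → V} {v : Fin k → V'}
    (h : Similar K R i j ι u v) (x y : V) :
    ∃ x' y' : V', R (i (subst ι u (fun _ => x) fun _ => y)) (j (subst ι v (fun _ => x') fun _ => y')) := by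
  letI : DecidableEq V := Classical.decEq V
  letI : DecidableEq V' := Classical.decEq V'
  obtain ⟨P, Q, hPQ, hQP, hc⟩ := h
  let c : T := i (subst ι u (fun _ => x) fun _ => y)
  by_contra hcon
  push Not at hcon
  have h1 : classMatrix (AlgebraicClosure K) R j ι v c = 0 := by
    ext a b
    unfold classMatrix
    rw [if_neg, Matrix.zero_apply]
    intro h2
    have ha : a = fun _ => a 0 := funext fun z => congrArg a (Subsingleton.elim _ _)
    have hb : b = fun _ => b 0 := funext fun z => congrArg b (Subsingleton.elim _ _)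
    rw [ha, hb] at h2
    exact hcon _ _ h2
  have h2 := hc c
  rw [h1, Matrix.mul_zero] at h2
  have h3 : classMatrix (AlgebraicClosure K) R i ι u c = 0 := by
    calc classMatrix (AlgebraicClosure K) R i ι u c =
        classMatrix (AlgebraicClosure K) R i ι u c * (P * Q) := by rw [hPQ, Matrix.mul_one]
      _ = 0 := by rw [← Matrix.mul_assoc, h2, Matrix.zero_mul]
  have h4 := congrFun (congrFun h3 fun _ => x) fun _ => y
  unfold classMatrix at h4
  rw [if_pos (hR.refl c)] at h4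
  exact one_ne_zero h4

/-- A separating sequence of length `b` and dimension `b + 2` decide isomorphism. -/
theorem iso_of_base_im {V W : Type} [Fintype V] [Fintype W] {p : ℕ} (hp : p ≠ 0)
    (G : SimpleGraph V) (H : SimpleGraph W)
    (b k : ℕ) (hk : b + 2 ≤ k) [Nonempty V] (hcard : Fintype.card V = Fintype.card W)
    (c : Fin b → V) (hc : ∀ u v, (∀ l, G.Adj u (c l) ↔ G.Adj v (c l)) → u = v)
    (h : IMEquiv p k G H) : Nonempty (G ≃g H) := by
  classical
  obtain ⟨R, hR, -, hGH, -, F, hF⟩ := h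
  let u : Fin k → V := fun i => if h : i.1 < b then c ⟨i.1, h⟩ else Classical.arbitrary V
  have hu : ∀ l : Fin b, u ⟨l.1, by omega⟩ = c l := by
    intro l
    simp [u]
  have huv := hF u
  obtain ⟨-, hsim⟩ := hGH u (F u) huv
  let p1 : Fin k := ⟨k - 2, by omega⟩
  let p2 : Fin k := ⟨k - 1, by omega⟩
  have hp12 : p1 ≠ p2 := by
    intro h
    have := congrArg Fin.val h
    simp only [p1, p2] at this
    omega
  let ι : Fin 1 ⊕ Fin 1 ↪ Fin k := ⟨Sum.elim (fun _ => p1) fun _ => p2, by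
    rintro (x | x) (y | y) h
    · rw [Subsingleton.elim x y]
    · exact absurd h hp12
    · exact absurd h.symm hp12
    · rw [Subsingleton.elim x y]⟩
  have hι1 : ∀ {U : Type} (w : Fin k → U) (x y : Fin 1 → U), subst ι w x y p1 = x 0 := by
    intro U w x y
    exact ι.injective.extend_apply (Sum.elim x y) w (Sum.inl 0)
  have hι2 : ∀ {U : Type} (w : Fin k → U) (x y : Fin 1 → U), subst ι w x y p2 = y 0 := by
    intro U w x y
    exact ι.injective.extend_apply (Sum.elim x y) w (Sum.inr 0)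
  have hι3 : ∀ {U : Type} (w : Fin k → U) (x y : Fin 1 → U) (l : Fin b),
      subst ι w x y ⟨l.1, by omega⟩ = w ⟨l.1, by omega⟩ := by
    intro U w x y l
    refine Function.extend_apply' _ _ _ ?_
    rintro ⟨z | z, hz⟩
    · have h1 : p1 = (⟨l.1, by omega⟩ : Fin k) := hz
      have := congrArg Fin.val h1
      simp only [p1] at this
      have := l.2
      omega
    · have h1 : p2 = (⟨l.1, by omega⟩ : Fin k) := hz
      have := congrArg Fin.val h1
      simp only [p2] at this
      have := l.2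
      omega
  have hq : ((p : ℕ) : ℚ) ≠ 0 := Nat.cast_ne_zero.2 hp
  have step : ∀ x y : V, ∃ x' y' : W, (G.Adj x y ↔ H.Adj x' y') ∧
      (∀ l : Fin b, G.Adj x (c l) ↔ H.Adj x' (F u ⟨l.1, by omega⟩)) ∧
      ∀ l : Fin b, G.Adj y (c l) ↔ H.Adj y' (F u ⟨l.1, by omega⟩) := by
    intro x y
    obtain ⟨x', y', hxy⟩ := exists_of_similar hR (hsim ℚ hq 1 ι) x y
    obtain ⟨ht, -⟩ := hGH _ _ hxy
    refine ⟨x', y', ?_, fun l => ?_, fun l => ?_⟩
    · have h1 := (ht p1 p2).2
      rwa [hι1, hι2, hι1, hι2] at h1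
    · have h1 := (ht p1 ⟨l.1, by omega⟩).2
      rwa [hι1, hι3, hι1, hι3, hu] at h1
    · have h1 := (ht p2 ⟨l.1, by omega⟩).2
      rwa [hι2, hι3, hι2, hι3, hu] at h1
  choose f f' hf using fun x => step x x
  have hinj : Function.Injective f := by
    intro x x' hxx
    apply hc
    intro l
    rw [(hf x).2.1 l, (hf x').2.1 l, hxx]
  have hbij : Function.Bijective f := (Fintype.bijective_iff_injective_and_card f).mpr
    ⟨hinj, hcard⟩
  have huniq : ∀ (x : V) (x' : W), (∀ l : Fin b, G.Adj x (c l) ↔ H.Adj x' (F u ⟨l.1, by omega⟩)) →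
      x' = f x := by
    intro x x' h
    obtain ⟨z, rfl⟩ := hbij.2 x'
    congr 1
    apply hc
    intro l
    rw [(hf z).2.1 l, h l]
  refine ⟨⟨Equiv.ofBijective f hbij, fun {x y} => ?_⟩⟩
  obtain ⟨x', y', h1, h2, h3⟩ := step x y
  rw [huniq x x' h2, huniq y y' h3] at h1
  exact h1.symm

theorem upperIM (n : ℕ) (G H : SimpleGraph (Fin n)) (hG : Pseudorandom (1 / 32) G) (p : ℕ)
    (hp : p ≠ 0) (k : ℕ) (hk : 5 * Real.log n + 3 ≤ k) (h : IMEquiv p k G H) :
    Nonempty (G ≃g H) := by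
  classical
  by_cases hn : n ≤ 1
  · have : Subsingleton (Fin n) := by
      rcases Nat.le_one_iff_eq_zero_or_eq_one.mp hn with rfl | rfl <;> infer_instance
    have : G = H := by
      ext x y
      have hxy : x = y := Subsingleton.elim _ _
      subst hxy
      simp
    subst this
    exact ⟨SimpleGraph.Iso.refl⟩
  · push Not at hn
    have hn0 : (0 : ℝ) < n := by
      have : 0 < n := by omega
      exact_mod_cast this
    haveI : Nonempty (Fin n) := ⟨⟨0, by omega⟩⟩
    have hlog : 0 < Real.log n := Real.log_pos (by exact_mod_cast hn)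
    have hb1 := Nat.le_ceil (5 * Real.log n)
    have hb2 := Nat.ceil_lt_add_one (show 0 ≤ 5 * Real.log n by positivity)
    set b : ℕ := ⌈5 * Real.log n⌉₊ with hb
    have hbk : b + 2 ≤ k := by
      have : (b : ℝ) + 2 < k + 1 := by linarith
      have h3 : ((b + 2 : ℕ) : ℝ) < ((k + 1 : ℕ) : ℝ) := by
        push_cast
        linarith
      have h4 : b + 2 < k + 1 := by exact_mod_cast h3
      omega
    have hsep : ∀ u v, u ≠ v → (3 / 8 : ℝ) * Fintype.card (Fin n) ≤
        ({w | ¬ (G.Adj u w ↔ G.Adj v w)} : Set (Fin n)).ncard := by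
      intro u v huv
      have := separation hG huv
      calc _ = (1 / 2 - 4 * (1 / 32 : ℝ)) * Fintype.card (Fin n) := by norm_num
        _ ≤ _ := this
    obtain ⟨c, hc⟩ := exists_base G (3 / 8) (by norm_num) hsep b (by
      rw [Fintype.card_fin]
      have e1 : (1 - 3 / 8 : ℝ) ≤ Real.exp (-(2 / 5 + 1 / 20)) := by
        -- exp (9/20) ≤ 8/5
        rw [Real.exp_neg, show (1 - 3 / 8 : ℝ) = (8 / 5)⁻¹ by norm_num]
        apply inv_anti₀ (Real.exp_pos _)
        have h1 : (Real.exp (2 / 5 + 1 / 20)) ^ 20 ≤ (8 / 5 : ℝ) ^ 20 := by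
          rw [← Real.exp_nat_mul]
          have h2 : ((20 : ℕ) : ℝ) * (2 / 5 + 1 / 20) = ((9 : ℕ) : ℝ) * 1 := by norm_num
          rw [h2, Real.exp_nat_mul]
          calc (Real.exp 1) ^ 9 ≤ (2.7182818286 : ℝ) ^ 9 :=
                pow_le_pow_left₀ (Real.exp_pos _).le Real.exp_one_lt_d9.le 9
            _ ≤ (8 / 5 : ℝ) ^ 20 := by norm_num
        exact le_of_pow_le_pow_left₀ (by norm_num) (by norm_num) h1
      calc (n : ℝ) ^ 2 * (1 - 3 / 8) ^ b ≤ (n : ℝ) ^ 2 * (Real.exp (-(2 / 5 + 1 / 20))) ^ b := by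
            apply mul_le_mul_of_nonneg_left _ (by positivity)
            exact pow_le_pow_left₀ (by norm_num) e1 b
        _ = Real.exp (2 * Real.log n + b * (-(2 / 5 + 1 / 20))) := by
            rw [← Real.exp_nat_mul, Real.exp_add]
            congr 1
            have : (2 : ℝ) * Real.log n = ((2 : ℕ) : ℝ) * Real.log n := by norm_num
            rw [this, Real.exp_nat_mul, Real.exp_log hn0]
        _ < 1 := by
            rw [Real.exp_lt_one_iff]
            nlinarith) (by rw [Fintype.card_fin]; omega)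
    exact iso_of_base_im hp G H b k hbk rfl c hc h

theorem finalIM :
    (∀ ε : ℝ, 0 < ε → ∃ c : ℝ, 0 < c ∧ ∃ n₀ : ℕ, ∀ n : ℕ, n₀ ≤ n →
      ∃ G H : SimpleGraph (Fin n), Pseudorandom ε G ∧ Pseudorandom ε H ∧
        (∀ π : Equiv.Perm (Fin n), (1 / 2 - ε) * (n : ℝ) ^ 2 ≤ errors G H π) ∧
        ∀ k : ℕ, (k : ℝ) ≤ c * Real.log n → IMEquiv 2 k G H) ∧
    ∀ (n : ℕ) (G H : SimpleGraph (Fin n)), Pseudorandom (1 / 32) G →
      ∀ p : ℕ, p ≠ 0 → ∀ k : ℕ, 5 * Real.log n + 3 ≤ k → IMEquiv p k G H →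
        Nonempty (G ≃g H) := by
  refine ⟨?_, fun n G H hG p hp k hk h => upperIM n G H hG p hp k hk h⟩
  intro ε hε
  obtain ⟨c, hc, n₀, h⟩ := lowerIM (min ε (1 / 4)) (lt_min hε (by norm_num)) (min_le_right _ _)
  refine ⟨c, hc, n₀, fun n hn => ?_⟩
  obtain ⟨G, H, h1, h2, h3, h4⟩ := h n hn
  refine ⟨G, H, h1.mono (min_le_left _ _), h2.mono (min_le_left _ _), ?_, h4⟩
  intro π
  refine le_trans ?_ (h3 π)
  apply mul_le_mul_of_nonneg_right _ (by positivity)
  have := min_le_left ε (1 / 4)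
  linarith

end Pool.Agent.TH658.Sos
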