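import Pool.Agent.TH658.Sos.Defs

/-!
# The polynomial calculus and the Positivstellensatz calculus
-/

set_option autoImplicit false

namespace Pool.Agent.TH658.Sos

open MvPolynomial

/-- `PCDerives P d p`: the polynomial `p` has a derivation in the polynomial calculus from the
polynomials in `P` in which all polynomials have degree at most `d`. The rules are linear
combinations and the multiplication by a variable. -/
inductive PCDerives {K σ : Type} [Field K] (P : MvPolynomial σ K → Prop) (d : ℕ) :
    MvPolynomial σ K → Prop
  | ax (p : MvPolynomial σ K) (h : P p) (hd : p.totalDegree ≤ d) : PCDerives P d p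
  | add (p q : MvPolynomial σ K) (hp : PCDerives P d p) (hq : PCDerives P d q) :
      PCDerives P d (p + q)
  | smul (c : K) (p : MvPolynomial σ K) (hp : PCDerives P d p) : PCDerives P d (C c * p)
  | mul (i : σ) (p : MvPolynomial σ K) (hp : PCDerives P d p) (hd : (X i * p).totalDegree ≤ d) :
      PCDerives P d (X i * p)

/-- The polynomial calculus over `K` refutes the isomorphism of `G` and `H` in degree `d`. -/
def PCRefutes (K : Type) [Field K] {V V' : Type} [Fintype V] [Fintype V'] (G : SimpleGraph V)
    (H : SimpleGraph V') (d : ℕ) : Prop :=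
  PCDerives (IsoAxiom K G H) d 1

/-- The Positivstellensatz calculus refutes the isomorphism of `G` and `H` in degree `d`: a
polynomial `1 + ∑ q i ^ 2` in which the squares have degree at most `d` has a derivation of degree
`d` in the polynomial calculus over the reals. -/
def PosRefutes {V V' : Type} [Fintype V] [Fintype V'] (G : SimpleGraph V) (H : SimpleGraph V')
    (d : ℕ) : Prop :=
  ∃ (m : ℕ) (q : Fin m → MvPolynomial (V × V') ℝ), (∀ i, 2 * (q i).totalDegree ≤ d) ∧
    PCDerives (IsoAxiom ℝ G H) d (1 + ∑ i, q i ^ 2)

theorem isoAxiom_map {K L : Type} [Field K] [Field L] (f : K →+* L) {V V' : Type} [Fintype V]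
    [Fintype V'] {G : SimpleGraph V} {H : SimpleGraph V'} {p : MvPolynomial (V × V') K}
    (hp : IsoAxiom K G H p) : IsoAxiom L G H (map f p) := by
  cases hp with
  | bool u v =>
    rw [map_sub, map_pow, map_X]
    exact IsoAxiom.bool u v
  | row u =>
    rw [map_sub, map_sum, map_one]
    simp only [map_X]
    exact IsoAxiom.row u
  | col v =>
    rw [map_sub, map_sum, map_one]
    simp only [map_X]
    exact IsoAxiom.col v
  | pair u u' v v' h =>
    rw [map_mul, map_X, map_X]
    exact IsoAxiom.pair u u' v v' h

theorem totalDegree_map_le' {K L σ : Type} [Field K] [Field L] (f : K →+* L)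
    (p : MvPolynomial σ K) : (map f p).totalDegree ≤ p.totalDegree := by
  refine Finset.sup_mono ?_
  exact support_map_subset f p

theorem pcDerives_map {K L : Type} [Field K] [Field L] (f : K →+* L) {V V' : Type} [Fintype V]
    [Fintype V'] {G : SimpleGraph V} {H : SimpleGraph V'} {d : ℕ}
    {p : MvPolynomial (V × V') K} (hp : PCDerives (IsoAxiom K G H) d p) :
    PCDerives (IsoAxiom L G H) d (map f p) := by
  induction hp with
  | ax p h hd => exact PCDerives.ax _ (isoAxiom_map f h) ((totalDegree_map_le' f p).trans hd)
  | add p q _ _ h1 h2 =>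
    rw [map_add]
    exact PCDerives.add _ _ h1 h2
  | smul c p _ h1 =>
    rw [map_mul, map_C]
    exact PCDerives.smul _ _ h1
  | mul i p _ hd h1 =>
    have h2 := (totalDegree_map_le' f (X i * p)).trans hd
    rw [map_mul, map_X] at h2 ⊢
    exact PCDerives.mul _ _ h1 h2

end Pool.Agent.TH658.Sos
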