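import Pool.Agent.TH658.Sos.Pe
import Pool.Agent.TH658.Sos.Chars
import Pool.Agent.TH658.Sos.PcDefs

/-!
# Lower bounds for the polynomial calculus from locally consistent affine systems
-/

set_option autoImplicit false
set_option linter.unusedSectionVars false

namespace Pool.Agent.TH658.Sos

open Finset MvPolynomial

namespace Act

variable {X L : Type} [AddCommGroup X] [SemilatticeSup L] [OrderBot L] {S : Sys X L}
  {V V' : Type} {G : SimpleGraph V} {H : SimpleGraph V'} (A : Act S G H) (K : Type) [Field K]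
  [Fintype X]

/-- The average of a polynomial times a weight. -/
noncomputable def Phi (W : L) (F : X → K) : MvPolynomial (V × V') K →ₗ[K] K :=
  (basisMonomials (V × V') K).constr K fun m => S.avg (A.lm m ⊔ W) fun M => A.ev K m M * F M

theorem Phi_monomial (W : L) (F : X → K) (m : V × V' →₀ ℕ) (c : K) :
    A.Phi K W F (monomial m c) = c * S.avg (A.lm m ⊔ W) fun M => A.ev K m M * F M := by
  have h1 : monomial m c = c • monomial m (1 : K) := by
    rw [smul_monomial, smul_eq_mul, mul_one]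
  have h2 : monomial m (1 : K) = basisMonomials (V × V') K m := by
    rw [coe_basisMonomials]
  rw [h1, map_smul, h2, Phi, Module.Basis.constr_basis, smul_eq_mul]

theorem Phi_eq (W : L) (F : X → K) (p : MvPolynomial (V × V') K) :
    A.Phi K W F p = ∑ m ∈ p.support, p.coeff m *
      S.avg (A.lm m ⊔ W) fun M => A.ev K m M * F M := by
  conv_lhs => rw [p.as_sum, map_sum]
  exact Finset.sum_congr rfl fun m _ => A.Phi_monomial K W F m _

theorem Phi_mul_X (W : L) (F : X → K) (i : V × V') (p : MvPolynomial (V × V') K) :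
    A.Phi K W F (MvPolynomial.X i * p) = A.Phi K (A.lv i.1 ⊔ W)
      (fun M => A.ev K (Finsupp.single i 1) M * F M) p := by
  rw [A.Phi_eq K (A.lv i.1 ⊔ W)]
  conv_lhs => rw [p.as_sum, Finset.mul_sum, map_sum]
  refine Finset.sum_congr rfl fun m _ => ?_
  have h1 : (MvPolynomial.X i : MvPolynomial (V × V') K) * monomial m (p.coeff m) =
      monomial (m + Finsupp.single i 1) (p.coeff m) := by
    rw [MvPolynomial.X, monomial_mul, one_mul, add_comm]
  rw [h1, Phi_monomial, lm_add, lm_single A i one_ne_zero, sup_assoc]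
  congr 2
  funext M
  rw [ev_add, mul_assoc]

theorem Phi_sum (W : L) {I : Type} [Fintype I] (c : I → K) (F : I → X → K)
    (p : MvPolynomial (V × V') K) :
    A.Phi K W (fun M => ∑ i, c i * F i M) p = ∑ i, c i * A.Phi K W (F i) p := by
  simp only [Phi_eq]
  have h1 : ∀ m : V × V' →₀ ℕ, (S.avg (A.lm m ⊔ W) fun M => A.ev K m M * ∑ i, c i * F i M) =
      ∑ i, c i * S.avg (A.lm m ⊔ W) fun M => A.ev K m M * F i M := by
    intro m
    have h2 : (fun M => A.ev K m M * ∑ i, c i * F i M) =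
        fun M => ∑ i, c i * (A.ev K m M * F i M) := by
      funext M
      rw [Finset.mul_sum]
      exact Finset.sum_congr rfl fun i _ => by ring
    rw [h2, S.avg_sum]
    exact Finset.sum_congr rfl fun i _ => S.avg_smul _ _ _
  rw [Finset.sum_congr rfl fun m _ => by rw [h1 m, Finset.mul_sum], Finset.sum_comm]
  refine Finset.sum_congr rfl fun i _ => ?_
  rw [Finset.mul_sum]
  exact Finset.sum_congr rfl fun m _ => by ring

/-- The polynomials that the polynomial calculus can derive satisfy this condition. -/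
def Good (d : ℕ) (p : MvPolynomial (V × V') K) : Prop :=
  p.totalDegree ≤ d ∧ ∀ W, S.size W ≤ A.c * d → ∀ φ : Ch X K, (∀ n ∈ S.N W, ch φ n = 1) →
    A.Phi K W (ch φ) p = 0

variable {K}

theorem deg_of_mem {d : ℕ} {p : MvPolynomial (V × V') K} (hp : p.totalDegree ≤ d)
    {m : V × V' →₀ ℕ} (hm : m ∈ p.support) : S.size (A.lm m) ≤ A.c * d :=
  (A.size_lm m).trans (Nat.mul_le_mul_left _ ((le_totalDegree hm).trans hp))

theorem ch_inv_of {W : L} {φ : Ch X K} (h : ∀ n ∈ S.N W, ch φ n = 1) (M n : X)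
    (hn : n ∈ S.N W) : ch φ (M + n) = ch φ M := by
  rw [ch_add, h n hn, mul_one]

/-- Characters of somewhat larger levels. -/
theorem transfer [IsAlgClosed K] (hX : (Fintype.card X : K) ≠ 0) {d : ℕ}
    (hK : 3 * (A.c * (d + 1)) ≤ S.K) {p : MvPolynomial (V × V') K} (hp : A.Good K d p) (W : L)
    (hW : S.size W ≤ A.c * (d + 1)) (ψ : Ch X K) (hψ : ∀ n ∈ S.N W, ch ψ n = 1) :
    A.Phi K W (ch ψ) p = 0 := by
  classical
  have hcd : A.c * d ≤ A.c * (d + 1) := Nat.mul_le_mul_left _ (Nat.le_succ d)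
  rw [Phi_eq]
  by_cases hall : ∀ m ∈ p.support, (S.avg (A.lm m ⊔ W) fun M => A.ev K m M * ch ψ M) = 0
  · exact Finset.sum_eq_zero fun m hm => by rw [hall m hm, mul_zero]
  push Not at hall
  obtain ⟨m₀, hm₀, hne⟩ := hall
  obtain ⟨I, iI, a, χ, ha, hev⟩ := expandK hX (S.N (A.lm m₀)) (A.ev K m₀)
    (fun x n hn => A.ev_inv K m₀ x n hn)
  have h1 : (fun M => A.ev K m₀ M * ch ψ M) = fun M => ∑ i, a i * ch (χ i * ψ) M := by
    funext M
    rw [hev, Finset.sum_mul]
    refine Finset.sum_congr rfl fun i _ => ?_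
    rw [ch_mul, mul_assoc]
  rw [h1, S.avg_sum] at hne
  obtain ⟨i, -, hi⟩ := Finset.exists_ne_zero_of_sum_ne_zero hne
  rw [S.avg_smul] at hi
  have hai : a i ≠ 0 := left_ne_zero_of_mul hi
  have hav : (S.avg (A.lm m₀ ⊔ W) fun M => ch (χ i * ψ) M) ≠ 0 := right_ne_zero_of_mul hi
  have htriv : ∀ z ∈ S.D (A.lm m₀ ⊔ W), ch (χ i * ψ) z = 1 := by
    intro z hz
    by_contra h2
    exact hav (S.avg_char_zero _ (chA (χ i * ψ)) hz h2)
  have hsz0 : S.size (A.lm m₀) ≤ A.c * d := A.deg_of_mem hp.1 hm₀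
  have hsz1 : S.size (A.lm m₀ ⊔ W) ≤ S.K := by
    have := S.size_sup (A.lm m₀) W
    omega
  obtain ⟨M₀, hM₀⟩ := S.nonempty _ hsz1
  have hinv1 : ∀ n ∈ S.N (A.lm m₀), ch (χ i)⁻¹ n = 1 := by
    intro n hn
    have h2 := ch_inv_mul (χ i) n
    rwa [ha i hai n hn, mul_one] at h2
  have hzero := hp.2 (A.lm m₀) hsz0 (χ i)⁻¹ hinv1
  rw [Phi_eq] at hzero
  have key : ∀ m ∈ p.support, (S.avg (A.lm m ⊔ W) fun M => A.ev K m M * ch ψ M) =
      ch (χ i * ψ) M₀ * S.avg (A.lm m ⊔ A.lm m₀) fun M => A.ev K m M * ch (χ i)⁻¹ M := by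
    intro m hm
    have hszm : S.size (A.lm m) ≤ A.c * d := A.deg_of_mem hp.1 hm
    have hU : S.size (A.lm m ⊔ (A.lm m₀ ⊔ W)) ≤ S.K := by
      have e1 := S.size_sup (A.lm m) (A.lm m₀ ⊔ W)
      have e2 := S.size_sup (A.lm m₀) W
      omega
    rw [S.avg_level hX (W := A.lm m ⊔ W) (W' := A.lm m ⊔ (A.lm m₀ ⊔ W))
      (sup_le le_sup_left (le_sup_right.trans le_sup_right)) hU _ (fun x n hn => by
        rw [A.ev_inv K m x n (S.N_anti _ _ le_sup_left hn),
          ch_inv_of hψ x n (S.N_anti _ _ le_sup_right hn)])]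
    rw [S.avg_level hX (W := A.lm m ⊔ A.lm m₀) (W' := A.lm m ⊔ (A.lm m₀ ⊔ W))
      (sup_le le_sup_left (le_sup_left.trans le_sup_right)) hU _ (fun x n hn => by
        rw [A.ev_inv K m x n (S.N_anti _ _ le_sup_left hn),
          ch_inv_of hinv1 x n (S.N_anti _ _ le_sup_right hn)])]
    rw [← S.avg_smul]
    refine S.avg_congr (S.nonempty _ hU) fun M hM => ?_
    have hM1 : M ∈ S.Sol (A.lm m₀ ⊔ W) := S.Sol_anti _ _ le_sup_right hM
    have e1 : ch (χ i * ψ) M = ch (χ i * ψ) M₀ := by
      have e2 := htriv _ ((S.sol_iff _ _ _ hM₀).1 hM1)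
      have e3 : M = (M - M₀) + M₀ := by abel
      rw [e3, ch_add, e2, one_mul]
    have e4 : ch ψ M = ch (χ i * ψ) M * ch (χ i)⁻¹ M := by
      rw [ch_mul, mul_comm (ch (χ i) M), mul_assoc, mul_comm (ch (χ i) M), ch_inv_mul, mul_one]
    rw [e4, e1]
    ring
  have h3 : ∀ m ∈ p.support, p.coeff m * (S.avg (A.lm m ⊔ W) fun M => A.ev K m M * ch ψ M) =
      ch (χ i * ψ) M₀ * (p.coeff m * S.avg (A.lm m ⊔ A.lm m₀)
        fun M => A.ev K m M * ch (χ i)⁻¹ M) := by
    intro m hm
    rw [key m hm]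
    ring
  rw [Finset.sum_congr rfl h3, ← Finset.mul_sum, hzero, mul_zero]

theorem good_mul [IsAlgClosed K] (hX : (Fintype.card X : K) ≠ 0) {d : ℕ}
    (hK : 3 * (A.c * (d + 1)) ≤ S.K) {p : MvPolynomial (V × V') K} (hp : A.Good K d p)
    (i : V × V') (hd : (MvPolynomial.X i * p).totalDegree ≤ d) :
    A.Good K d (MvPolynomial.X i * p) := by
  classical
  refine ⟨hd, fun W hW φ hφ => ?_⟩
  rw [Phi_mul_X]
  have hinv : ∀ x, ∀ n ∈ S.N (A.lv i.1 ⊔ W),
      A.ev K (Finsupp.single i 1) (x + n) * ch φ (x + n) =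
        A.ev K (Finsupp.single i 1) x * ch φ x := by
    intro x n hn
    rw [A.ev_inv K _ x n (by
      rw [lm_single A i one_ne_zero]
      exact S.N_anti _ _ le_sup_left hn), ch_inv_of hφ x n (S.N_anti _ _ le_sup_right hn)]
  obtain ⟨I, iI, a, χ, ha, hev⟩ := expandK hX (S.N (A.lv i.1 ⊔ W))
    (fun M => A.ev K (Finsupp.single i 1) M * ch φ M) hinv
  have h1 : (fun M => A.ev K (Finsupp.single i 1) M * ch φ M) =
      fun M => ∑ j, a j * ch (χ j) M := funext hev
  rw [h1, Phi_sum]
  refine Finset.sum_eq_zero fun j _ => ?_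
  by_cases haj : a j = 0
  · rw [haj, zero_mul]
  · rw [A.transfer hX hK hp _ (by
      have e1 := S.size_sup (A.lv i.1) W
      have e2 := A.size i.1
      rw [mul_add, mul_one]
      omega) (χ j) (ha j haj), mul_zero]

variable [Fintype V] [Fintype V']

theorem good_ax (hX : (Fintype.card X : K) ≠ 0) {d : ℕ}
    (hK : A.c * (d + 2) ≤ S.K) {p : MvPolynomial (V × V') K}
    (hp : IsoAxiom K G H p) (hd : p.totalDegree ≤ d) : A.Good K d p := by
  classical
  refine ⟨hd, fun W hW φ hφ => ?_⟩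
  have hX1 : ∀ q : V × V', (MvPolynomial.X q : MvPolynomial (V × V') K) =
      monomial (Finsupp.single q 1) 1 := fun q => rfl
  have h11 : (1 : MvPolynomial (V × V') K) = monomial 0 1 := rfl
  have hphi1 : A.Phi K W (ch φ) 1 = S.avg W (ch φ) := by
    rw [h11, Phi_monomial, one_mul]
    have h2 : A.lm 0 = ⊥ := by
      unfold lm
      simp
    rw [h2, bot_sup_eq]
    congr 1
    funext M
    unfold ev
    simp
  have hsz : ∀ u : V, S.size (A.lv u ⊔ W) ≤ S.K := by
    intro u
    have e1 := S.size_sup (A.lv u) W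
    have e2 := A.size u
    rw [mul_add] at hK
    omega
  have hlev : ∀ u : V, S.avg W (ch φ) = S.avg (A.lv u ⊔ W) (ch φ) := fun u =>
    S.avg_level hX le_sup_right (hsz u) _ fun x n hn => ch_inv_of hφ x n hn
  cases hp with
  | bool u v =>
    rw [map_sub, X_pow_eq_monomial, hX1, Phi_monomial, Phi_monomial,
      lm_single A _ two_ne_zero, lm_single A _ one_ne_zero, sub_eq_zero]
    congr 2
    funext M
    rw [ev_single A K _ two_ne_zero, ev_single A K _ one_ne_zero]
  | row u =>
    rw [map_sub, map_sum, hphi1, sub_eq_zero]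
    simp only [hX1, Phi_monomial, lm_single A _ one_ne_zero, one_mul]
    rw [← S.avg_sum, hlev u]
    congr 1
    funext M
    simp only [ev_single A K _ one_ne_zero]
    rw [← Finset.sum_mul, Finset.sum_ite_eq]
    simp
  | col v =>
    rw [map_sub, map_sum, hphi1, sub_eq_zero]
    simp only [hX1, Phi_monomial, lm_single A _ one_ne_zero, one_mul]
    let u0 : V := (A.b 0).symm v
    have hu0 : A.lv u0 = A.lv' v := by
      rw [← A.lev 0 u0]
      show A.lv' ((A.b 0) ((A.b 0).symm v)) = _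
      rw [Equiv.apply_symm_apply]
    have h2 : ∀ u : V, S.avg (A.lv u ⊔ W)
        (fun M => A.ev K (Finsupp.single (u, v) 1) M * ch φ M) =
        S.avg (A.lv u0 ⊔ W)
        (fun M => A.ev K (Finsupp.single (u, v) 1) M * ch φ M) := by
      intro u
      by_cases hu : A.lv u = A.lv' v
      · rw [hu, hu0]
      · have h3 : (fun M => A.ev K (Finsupp.single (u, v) 1) M * ch φ M) =
            fun _ => (0 : K) := by
          funext M
          rw [ev_single A K _ one_ne_zero, if_neg, zero_mul]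
          intro h4
          apply hu
          rw [← A.lev M u]
          exact congrArg A.lv' h4
        rw [h3, S.avg_zero, S.avg_zero]
    rw [Finset.sum_congr rfl fun u _ => h2 u, ← S.avg_sum, hlev u0]
    congr 1
    funext M
    simp only [ev_single A K _ one_ne_zero]
    have h5 : ∀ u : V, (if A.b M u = v then (1 : K) else 0) =
        if u = (A.b M).symm v then 1 else 0 := by
      intro u
      by_cases h6 : A.b M u = v
      · rw [if_pos h6, if_pos]
        rw [← h6, Equiv.symm_apply_apply]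
      · rw [if_neg h6, if_neg]
        intro h7
        apply h6
        rw [h7, Equiv.apply_symm_apply]
    rw [← Finset.sum_mul, Finset.sum_congr rfl fun u _ => h5 u, Finset.sum_ite_eq']
    simp
  | pair u u' v v' h =>
    have h1 : ((MvPolynomial.X (u, v) : MvPolynomial (V × V') K) * MvPolynomial.X (u', v')) =
        monomial (Finsupp.single (u, v) 1 + Finsupp.single (u', v') 1) 1 := by
      rw [MvPolynomial.X, MvPolynomial.X, monomial_mul, mul_one]
    rw [h1, Phi_monomial, one_mul, lm_add, lm_single A _ one_ne_zero, lm_single A _ one_ne_zero]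
    have hsz2 : S.size (A.lv u ⊔ A.lv u' ⊔ W) ≤ S.K := by
      have e1 := S.size_sup (A.lv u ⊔ A.lv u') W
      have e2 := S.size_sup (A.lv u) (A.lv u')
      have e3 := A.size u
      have e4 := A.size u'
      rw [mul_add] at hK
      omega
    rw [S.avg_congr (G := fun _ => (0 : K)) (S.nonempty _ hsz2), S.avg_zero]
    intro M hM
    rw [ev_add, ev_single A K _ one_ne_zero, ev_single A K _ one_ne_zero]
    by_cases h3 : A.b M u = v
    · by_cases h4 : A.b M u' = v'
      · exfalso
        apply h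
        rw [← h3, ← h4]
        exact ⟨(A.b M).injective.eq_iff.symm, A.iso u u' M (S.Sol_anti _ _ le_sup_left hM)⟩
      · rw [if_neg h4, mul_zero, zero_mul]
    · rw [if_neg h3, zero_mul, zero_mul]

theorem good_of_derives [IsAlgClosed K] (hX : (Fintype.card X : K) ≠ 0) {d : ℕ}
    (hK : 3 * (A.c * (d + 1)) ≤ S.K) {p : MvPolynomial (V × V') K}
    (hp : PCDerives (IsoAxiom K G H) d p) : A.Good K d p := by
  have hK2 : A.c * (d + 2) ≤ S.K := by
    rw [mul_add] at hK ⊢
    omega
  induction hp with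
  | ax p h hd => exact A.good_ax hX hK2 h hd
  | add p q _ _ h1 h2 =>
    exact ⟨(totalDegree_add p q).trans (max_le h1.1 h2.1), fun W hW φ hφ => by
      rw [map_add, h1.2 W hW φ hφ, h2.2 W hW φ hφ, add_zero]⟩
  | smul c p _ h1 =>
    refine ⟨?_, fun W hW φ hφ => ?_⟩
    · refine (totalDegree_mul _ _).trans ?_
      rw [totalDegree_C, zero_add]
      exact h1.1
    · rw [C_mul', map_smul, h1.2 W hW φ hφ, smul_zero]
  | mul i p _ hd h1 => exact A.good_mul hX hK h1 i hd

/-- The polynomial calculus has no refutation of small degree. -/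
theorem not_pcRefutes (F : Type) [Field F] (hX : (Fintype.card X : F) ≠ 0) {d : ℕ}
    (hK : 3 * (A.c * (d + 1)) ≤ S.K) : ¬ PCRefutes F G H d := by
  intro h
  have h1 := pcDerives_map (algebraMap F (AlgebraicClosure F)) h
  rw [map_one] at h1
  have hX' : (Fintype.card X : AlgebraicClosure F) ≠ 0 := by
    intro h2
    apply hX
    apply (algebraMap F (AlgebraicClosure F)).injective
    rw [map_natCast, map_zero, h2]
  have h2 := A.good_of_derives hX' hK h1
  have h3 := h2.2 ⊥ (by rw [S.size_bot]; exact Nat.zero_le _) 1 (fun n _ => rfl)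
  have h11 : (1 : MvPolynomial (V × V') (AlgebraicClosure F)) = monomial 0 1 := rfl
  rw [h11, Phi_monomial, one_mul] at h3
  have h4 : (fun M => A.ev (AlgebraicClosure F) 0 M * ch (1 : Ch X (AlgebraicClosure F)) M) =
      fun _ => (1 : AlgebraicClosure F) := by
    funext M
    have h5 : ch (1 : Ch X (AlgebraicClosure F)) M = 1 := rfl
    rw [h5, mul_one]
    unfold ev
    simp
  rw [h4, S.avg_one hX'] at h3
  exact one_ne_zero h3

/-- The value of the pseudo-expectation at a polynomial that can be derived. -/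
theorem E_of_derives {d : ℕ} (hK : 3 * (A.c * (d + 1)) ≤ S.K) {p : MvPolynomial (V × V') ℝ}
    (hp : PCDerives (IsoAxiom ℝ G H) d p) : A.E ℝ p = 0 := by
  have h1 := pcDerives_map (algebraMap ℝ ℂ) hp
  have hX' : (Fintype.card X : ℂ) ≠ 0 := Nat.cast_ne_zero.2 Fintype.card_ne_zero
  have h2 := A.good_of_derives hX' hK h1
  have h3 := h2.2 ⊥ (by rw [S.size_bot]; exact Nat.zero_le _) 1 (fun n _ => rfl)
  have h4 : ∀ q : MvPolynomial (V × V') ℝ,
      A.Phi ℂ ⊥ (ch (1 : Ch X ℂ)) (map (algebraMap ℝ ℂ) q) = ((A.E ℝ q : ℝ) : ℂ) := by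
    intro q
    rw [q.as_sum, map_sum, map_sum, map_sum]
    push_cast
    refine Finset.sum_congr rfl fun m _ => ?_
    rw [map_monomial, Phi_monomial, E_monomial]
    unfold em
    push_cast
    rw [S.avg_ofReal, sup_bot_eq]
    have h5 : (fun M => A.ev ℂ m M * ch (1 : Ch X ℂ) M) = fun M => ((A.ev ℝ m M : ℝ) : ℂ) := by
      funext M
      have h6 : ch (1 : Ch X ℂ) M = 1 := rfl
      rw [h6, mul_one]
      unfold ev
      split_ifs <;> simp
    rw [h5]
    rfl
  rw [h4] at h3
  exact_mod_cast h3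

/-- The Positivstellensatz calculus has no refutation of small degree. -/
theorem not_posRefutes {d : ℕ} (hK : 3 * (A.c * (d + 1)) ≤ S.K) : ¬ PosRefutes G H d := by
  rintro ⟨m, q, hq, hp⟩
  have h1 := A.E_of_derives hK hp
  have hX : (Fintype.card X : ℝ) ≠ 0 := Nat.cast_ne_zero.2 Fintype.card_ne_zero
  rw [map_add, map_sum, A.E_one ℝ hX] at h1
  have h2 : 0 ≤ ∑ i, A.E ℝ (q i ^ 2) := Finset.sum_nonneg fun i _ => by
    refine A.E_sq ?_
    have e1 : A.c * (2 * (q i).totalDegree) ≤ A.c * d := Nat.mul_le_mul_left _ (hq i)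
    have e2 : A.c * (2 * (q i).totalDegree) = 2 * (A.c * (q i).totalDegree) := by ring
    have e3 : A.c * (d + 1) = A.c * d + A.c := by ring
    omega
  linarith

end Act

end Pool.Agent.TH658.Sos
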