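import Pool.Agent.TH658.Sos.PrFinal

/-!
# Logarithmic degree suffices for pseudorandom graphs
-/

set_option autoImplicit false
set_option linter.unusedSectionVars false

namespace Pool.Agent.TH658.Sos

open Finset Pool.Agent.W893.PR

theorem upperPr (n : ℕ) (G H : SimpleGraph (Fin n)) (hG : Pseudorandom (1 / 32) G)
    (hiso : IsEmpty (G ≃g H)) (k : ℕ) (hk : 5 * Real.log n + 3 ≤ k) :
    (∀ (K : Type) [Field K], PCRefutes K G H k) ∧ PosRefutes G H k := by
  classical
  by_cases hn : n ≤ 1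
  · haveI : Subsingleton (Fin n) := by
      rcases Nat.le_one_iff_eq_zero_or_eq_one.mp hn with rfl | rfl <;> infer_instance
    have : G = H := by
      ext x y
      have hxy : x = y := Subsingleton.elim _ _
      subst hxy
      simp
    subst this
    exact (hiso.false SimpleGraph.Iso.refl).elim
  · push Not at hn
    have hn0 : (0 : ℝ) < n := by
      have : 0 < n := by omega
      exact_mod_cast this
    haveI : Nonempty (Fin n) := ⟨⟨0, by omega⟩⟩
    have hlog : 0 < Real.log n := Real.log_pos (by exact_mod_cast hn)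
    have hb1 := Nat.le_ceil (5 * Real.log n)
    have hb2 := Nat.ceil_lt_add_one (show 0 ≤ 5 * Real.log n by positivity)
    set b : ℕ := ⌈5 * Real.log n⌉₊ with hb
    have hbk : b + 2 ≤ k := by
      have : (b : ℝ) + 2 < k + 1 := by linarith
      have h3 : ((b + 2 : ℕ) : ℝ) < ((k + 1 : ℕ) : ℝ) := by
        push_cast
        linarith
      have h4 : b + 2 < k + 1 := by exact_mod_cast h3
      omega
    have hsep : ∀ u v, u ≠ v → (3 / 8 : ℝ) * Fintype.card (Fin n) ≤
        ({w | ¬ (G.Adj u w ↔ G.Adj v w)} : Set (Fin n)).ncard := by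
      intro u v huv
      have := separation hG huv
      calc _ = (1 / 2 - 4 * (1 / 32 : ℝ)) * Fintype.card (Fin n) := by norm_num
        _ ≤ _ := this
    obtain ⟨c, hc⟩ := exists_base G (3 / 8) (by norm_num) hsep b (by
      rw [Fintype.card_fin]
      have e1 : (1 - 3 / 8 : ℝ) ≤ Real.exp (-(2 / 5 + 1 / 20)) := by
        -- exp (9/20) ≤ 8/5
        rw [Real.exp_neg, show (1 - 3 / 8 : ℝ) = (8 / 5)⁻¹ by norm_num]
        apply inv_anti₀ (Real.exp_pos _)
        have h1 : (Real.exp (2 / 5 + 1 / 20)) ^ 20 ≤ (8 / 5 : ℝ) ^ 20 := by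
          rw [← Real.exp_nat_mul]
          have h2 : ((20 : ℕ) : ℝ) * (2 / 5 + 1 / 20) = ((9 : ℕ) : ℝ) * 1 := by norm_num
          rw [h2, Real.exp_nat_mul]
          calc (Real.exp 1) ^ 9 ≤ (2.7182818286 : ℝ) ^ 9 :=
                pow_le_pow_left₀ (Real.exp_pos _).le Real.exp_one_lt_d9.le 9
            _ ≤ (8 / 5 : ℝ) ^ 20 := by norm_num
        exact le_of_pow_le_pow_left₀ (by norm_num) (by norm_num) h1
      calc (n : ℝ) ^ 2 * (1 - 3 / 8) ^ b ≤ (n : ℝ) ^ 2 * (Real.exp (-(2 / 5 + 1 / 20))) ^ b := by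
            apply mul_le_mul_of_nonneg_left _ (by positivity)
            exact pow_le_pow_left₀ (by norm_num) e1 b
        _ = Real.exp (2 * Real.log n + b * (-(2 / 5 + 1 / 20))) := by
            rw [← Real.exp_nat_mul, Real.exp_add]
            congr 1
            have : (2 : ℝ) * Real.log n = ((2 : ℕ) : ℝ) * Real.log n := by norm_num
            rw [this, Real.exp_nat_mul, Real.exp_log hn0]
        _ < 1 := by
            rw [Real.exp_lt_one_iff]
            nlinarith) (by rw [Fintype.card_fin]; omega)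
    have h1 : ∀ (K : Type) [Field K], PCRefutes K G H k := fun K _ =>
      exists_derives K G H hbk c hc rfl hiso
    exact ⟨h1, (h1 ℝ).pos⟩

theorem finalPr :
    (∀ ε : ℝ, 0 < ε → ∃ c : ℝ, 0 < c ∧ ∃ n₀ : ℕ, ∀ n : ℕ, n₀ ≤ n →
      ∃ G H : SimpleGraph (Fin n), Pseudorandom ε G ∧ Pseudorandom ε H ∧
        (∀ π : Equiv.Perm (Fin n), (1 / 2 - ε) * (n : ℝ) ^ 2 ≤ errors G H π) ∧
        ∀ d : ℕ, (d : ℝ) ≤ c * Real.log n →
          (∀ (K : Type) [Field K], (2 : K) ≠ 0 → ¬ PCRefutes K G H d) ∧ ¬ PosRefutes G H d) ∧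
    ∀ (n : ℕ) (G H : SimpleGraph (Fin n)), Pseudorandom (1 / 32) G → IsEmpty (G ≃g H) →
      ∀ d : ℕ, 5 * Real.log n + 3 ≤ d →
        (∀ (K : Type) [Field K], PCRefutes K G H d) ∧ PosRefutes G H d := by
  refine ⟨?_, fun n G H hG hiso d hd => upperPr n G H hG hiso d hd⟩
  intro ε hε
  obtain ⟨c, hc, n₀, h⟩ := mainPr (min ε (1 / 4)) (lt_min hε (by norm_num)) (min_le_right _ _)
  refine ⟨c, hc, n₀, fun n hn => ?_⟩
  obtain ⟨G, H, h1, h2, h3, h4⟩ := h n hn
  refine ⟨G, H, h1.mono (min_le_left _ _), h2.mono (min_le_left _ _), ?_, h4⟩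
  intro π
  refine le_trans ?_ (h3 π)
  apply mul_le_mul_of_nonneg_right _ (by positivity)
  have := min_le_left ε (1 / 4)
  linarith

end Pool.Agent.TH658.Sos
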