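import Pool.Agent.TH658.Sos.PcDefs

/-!
# Refutations of small degree for graphs with a small separating set
-/

set_option autoImplicit false
set_option linter.unusedSectionVars false

namespace Pool.Agent.TH658.Sos

open Finset MvPolynomial

section

variable {K σ : Type} [Field K] {P : MvPolynomial σ K → Prop} {d : ℕ}

theorem PCDerives.neg {p : MvPolynomial σ K} (hp : PCDerives P d p) : PCDerives P d (-p) := by
  have h := PCDerives.smul (-1) p hp
  have e : C (-1 : K) * p = -p := by
    rw [C_neg, C_1, neg_one_mul]
  rwa [e] at h

theorem PCDerives.sub {p q : MvPolynomial σ K} (hp : PCDerives P d p) (hq : PCDerives P d q) :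
    PCDerives P d (p - q) := by
  rw [sub_eq_add_neg]
  exact PCDerives.add _ _ hp hq.neg

theorem PCDerives.zero {p : MvPolynomial σ K} (hp : PCDerives P d p) : PCDerives P d 0 := by
  have h := hp.sub hp
  rwa [sub_self] at h

theorem PCDerives.sum {ι : Type} (s : Finset ι) {f : ι → MvPolynomial σ K}
    (h0 : PCDerives P d 0) (h : ∀ i ∈ s, PCDerives P d (f i)) :
    PCDerives P d (∑ i ∈ s, f i) := by
  classical
  induction s using Finset.induction_on with
  | empty => simpa using h0
  | insert i s hi ih =>
    rw [Finset.sum_insert hi]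
    exact PCDerives.add _ _ (h i (Finset.mem_insert_self _ _))
      (ih fun j hj => h j (Finset.mem_insert_of_mem hj))

theorem PCDerives.mul_monomial {p : MvPolynomial σ K} (hp : PCDerives P d p) (m : σ →₀ ℕ)
    (c : K) (hd : (m.sum fun _ e => e) + p.totalDegree ≤ d) :
    PCDerives P d (monomial m c * p) := by
  classical
  induction hn : (m.sum fun _ e => e) generalizing m with
  | zero =>
    have hm : m = 0 := by
      ext i
      by_contra h
      have h1 : i ∈ m.support := Finsupp.mem_support_iff.2 h
      have h2 : m i ≤ m.sum fun _ e => e :=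
        Finset.single_le_sum (f := fun i => m i) (fun _ _ => Nat.zero_le _) h1
      have h3 : m i ≠ (0 : σ →₀ ℕ) i := h
      rw [Finsupp.zero_apply] at h3
      omega
    rw [hm]
    exact PCDerives.smul c p hp
  | succ n ih =>
    have hne : m ≠ 0 := by
      rintro rfl
      simp at hn
    obtain ⟨i, hi⟩ := Finsupp.support_nonempty_iff.2 hne
    have hi1 : 1 ≤ m i := Nat.one_le_iff_ne_zero.2 (Finsupp.mem_support_iff.1 hi)
    have hm : m = (m - Finsupp.single i 1) + Finsupp.single i 1 := by
      ext j
      rw [Finsupp.add_apply, Finsupp.tsub_apply]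
      by_cases hj : j = i
      · subst hj
        rw [Finsupp.single_eq_same]
        omega
      · rw [Finsupp.single_eq_of_ne hj]
        omega
    have hsum : ((m - Finsupp.single i 1).sum fun _ e => e) = n := by
      have h1 : (m.sum fun _ e => e) = ((m - Finsupp.single i 1).sum fun _ e => e) +
          ((Finsupp.single i 1).sum fun _ e => e) := by
        conv_lhs => rw [hm]
        rw [Finsupp.sum_add_index' (fun _ => rfl) (fun _ _ _ => rfl)]
      rw [Finsupp.sum_single_index rfl, hn] at h1
      omega
    have h2 := ih (m - Finsupp.single i 1) (by omega) hsum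
    have h3 : monomial m c * p = MvPolynomial.X i * (monomial (m - Finsupp.single i 1) c * p) := by
      conv_lhs => rw [hm]
      rw [← mul_assoc, MvPolynomial.X, monomial_mul, one_mul, add_comm]
    rw [h3]
    refine PCDerives.mul i _ h2 ?_
    rw [← h3]
    refine (totalDegree_mul _ _).trans ?_
    refine le_trans (Nat.add_le_add_right (totalDegree_monomial_le m c) _) ?_
    exact hd

theorem PCDerives.mul_poly {p : MvPolynomial σ K} (hp : PCDerives P d p) (r : MvPolynomial σ K)
    (hd : r.totalDegree + p.totalDegree ≤ d) : PCDerives P d (r * p) := by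
  rw [r.as_sum, Finset.sum_mul]
  refine PCDerives.sum _ hp.zero fun m hm => hp.mul_monomial m _ ?_
  have := le_totalDegree hm
  omega

end

section

variable (K : Type) [Field K] {V V' : Type} [Fintype V] [Fintype V'] (G : SimpleGraph V)
  (H : SimpleGraph V')

/-- The monomial of a partial map. -/
noncomputable def mon {b : ℕ} (c : Fin b → V) (β : Fin b → V') : MvPolynomial (V × V') K :=
  ∏ l, MvPolynomial.X (c l, β l)

theorem totalDegree_mon {b : ℕ} (c : Fin b → V) (β : Fin b → V') :
    (mon K c β).totalDegree ≤ b := by
  refine (totalDegree_finsetProd _ _).trans ?_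
  simp only [totalDegree_X]
  simp

theorem totalDegree_rowsum (u : V) :
    (∑ v : V', (MvPolynomial.X (u, v) : MvPolynomial (V × V') K)).totalDegree ≤ 1 := by
  refine (totalDegree_finsetSum _ _).trans ?_
  refine Finset.sup_le fun v _ => ?_
  rw [totalDegree_X]

theorem totalDegree_colsum (v : V') :
    (∑ u : V, (MvPolynomial.X (u, v) : MvPolynomial (V × V') K)).totalDegree ≤ 1 := by
  refine (totalDegree_finsetSum _ _).trans ?_
  refine Finset.sup_le fun v _ => ?_
  rw [totalDegree_X]

theorem totalDegree_row (u : V) :
    (∑ v : V', (MvPolynomial.X (u, v) : MvPolynomial (V × V') K) - 1).totalDegree ≤ 1 := by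
  refine (totalDegree_sub _ _).trans (max_le (totalDegree_rowsum K u) ?_)
  rw [totalDegree_one]
  exact Nat.zero_le _

theorem totalDegree_col (v : V') :
    (∑ u : V, (MvPolynomial.X (u, v) : MvPolynomial (V × V') K) - 1).totalDegree ≤ 1 := by
  refine (totalDegree_sub _ _).trans (max_le (totalDegree_colsum K v) ?_)
  rw [totalDegree_one]
  exact Nat.zero_le _

theorem totalDegree_XX (p q : V × V') :
    ((MvPolynomial.X p : MvPolynomial (V × V') K) * MvPolynomial.X q).totalDegree ≤ 2 := by
  refine (totalDegree_mul _ _).trans ?_
  rw [totalDegree_X, totalDegree_X]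

/-- The product of the row sums. -/
theorem derives_prod {d : ℕ} (s : List V) (hs : s.length ≤ d) (h0 : PCDerives (IsoAxiom K G H) d 0) :
    PCDerives (IsoAxiom K G H) d ((s.map fun u => ∑ v : V', MvPolynomial.X (u, v)).prod - 1) ∧
      ((s.map fun u => ∑ v : V', (MvPolynomial.X (u, v) : MvPolynomial (V × V') K)).prod).totalDegree
        ≤ s.length := by
  induction s with
  | nil =>
    rw [List.map_nil, List.prod_nil, sub_self, totalDegree_one]
    exact ⟨h0, Nat.zero_le _⟩
  | cons u s ih =>
    rw [List.length_cons] at hs
    obtain ⟨h1, h2⟩ := ih (by omega)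
    rw [List.map_cons, List.prod_cons]
    constructor
    · have e : (∑ v : V', MvPolynomial.X (u, v)) *
          (s.map fun u => ∑ v : V', (MvPolynomial.X (u, v) : MvPolynomial (V × V') K)).prod - 1 =
          (s.map fun u => ∑ v : V', (MvPolynomial.X (u, v) : MvPolynomial (V × V') K)).prod *
            (∑ v : V', MvPolynomial.X (u, v) - 1) +
          ((s.map fun u => ∑ v : V', (MvPolynomial.X (u, v) : MvPolynomial (V × V') K)).prod - 1) := by
        ring
      rw [e]
      refine PCDerives.add _ _ ?_ h1
      refine PCDerives.mul_poly (PCDerives.ax _ (IsoAxiom.row u)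
        ((totalDegree_row K u).trans (by omega))) _ ?_
      have := totalDegree_row (V' := V') K u
      omega
    · refine (totalDegree_mul _ _).trans ?_
      have := totalDegree_rowsum (V' := V') K u
      rw [List.length_cons]
      omega

theorem exists_derives [Nonempty V] {b d : ℕ} (hd : b + 2 ≤ d) (c : Fin b → V)
    (hc : ∀ u v, (∀ l, G.Adj u (c l) ↔ G.Adj v (c l)) → u = v)
    (hcard : Fintype.card V = Fintype.card V') (hiso : IsEmpty (G ≃g H)) :
    PCRefutes K G H d := by
  classical
  obtain ⟨u₀⟩ : Nonempty V := inferInstance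
  have h0 : PCDerives (IsoAxiom K G H) d 0 :=
    (PCDerives.ax _ (IsoAxiom.row u₀) ((totalDegree_row K u₀).trans (by omega))).zero
  -- each monomial can be derived
  have key : ∀ β : Fin b → V', PCDerives (IsoAxiom K G H) d (mon K c β) := by
    intro β
    let cand : V → Set V' := fun v => {w | ∀ l, G.Adj v (c l) ↔ H.Adj w (β l)}
    have hm := totalDegree_mon K c β
    have k1 : ∀ v w, w ∉ cand v → ∀ r : MvPolynomial (V × V') K, r.totalDegree ≤ 1 →
        PCDerives (IsoAxiom K G H) d (r * (mon K c β * MvPolynomial.X (v, w))) := by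
      intro v w hw r hr
      have hw' : ¬ ∀ l, G.Adj v (c l) ↔ H.Adj w (β l) := hw
      push Not at hw'
      obtain ⟨l, hl⟩ := hw'
      have e : r * (mon K c β * MvPolynomial.X (v, w)) =
          (r * ∏ l' ∈ univ.erase l, MvPolynomial.X (c l', β l')) *
            (MvPolynomial.X (v, w) * MvPolynomial.X (c l, β l)) := by
        unfold mon
        rw [← Finset.mul_prod_erase univ _ (Finset.mem_univ l)]
        ring
      rw [e]
      refine PCDerives.mul_poly (PCDerives.ax _ (IsoAxiom.pair v (c l) w (β l) ?_)
        ((totalDegree_XX K _ _).trans (by omega))) _ ?_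
      · rintro ⟨-, h⟩
        rcases hl with ⟨h1, h2⟩ | ⟨h1, h2⟩
        · exact h2 (h.1 h1)
        · exact h1 (h.2 h2)
      · have e1 : (∏ l' ∈ univ.erase l, (MvPolynomial.X (c l', β l') :
            MvPolynomial (V × V') K)).totalDegree ≤ b - 1 := by
          refine (totalDegree_finsetProd _ _).trans ?_
          simp only [totalDegree_X]
          rw [Finset.sum_const, smul_eq_mul, mul_one, Finset.card_erase_of_mem (Finset.mem_univ l),
            Finset.card_univ, Fintype.card_fin]
        have e2 := totalDegree_mul r (∏ l' ∈ univ.erase l, (MvPolynomial.X (c l', β l') :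
            MvPolynomial (V × V') K))
        have e3 := totalDegree_XX K (v, w) (c l, β l)
        have e4 : 1 ≤ b := by
          have := l.2
          omega
        omega
    have k1' : ∀ v w, w ∉ cand v →
        PCDerives (IsoAxiom K G H) d (mon K c β * MvPolynomial.X (v, w)) := by
      intro v w hw
      have := k1 v w hw 1 (by rw [totalDegree_one]; omega)
      rwa [one_mul] at this
    have huniq : ∀ u v w, w ∈ cand u → w ∈ cand v → u = v := by
      intro u v w hu hv
      apply hc
      intro l
      rw [hu l, hv l]
    have k2 : ∀ v w, w ∈ cand v → ∀ r : MvPolynomial (V × V') K, r.totalDegree ≤ 1 →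
        PCDerives (IsoAxiom K G H) d (r * (mon K c β * MvPolynomial.X (v, w) - mon K c β)) := by
      intro v w hw r hr
      have e : r * (mon K c β * MvPolynomial.X (v, w) - mon K c β) =
          (r * mon K c β) * (∑ u : V, MvPolynomial.X (u, w) - 1) -
            ∑ u ∈ univ.erase v, r * (mon K c β * MvPolynomial.X (u, w)) := by
        rw [← Finset.add_sum_erase univ _ (Finset.mem_univ v)]
        have e2 : ∑ u ∈ univ.erase v, r * (mon K c β * MvPolynomial.X (u, w)) =
            (r * mon K c β) * ∑ u ∈ univ.erase v, MvPolynomial.X (u, w) := by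
          rw [Finset.mul_sum]
          exact Finset.sum_congr rfl fun u _ => by ring
        rw [e2]
        ring
      rw [e]
      refine PCDerives.sub ?_ (PCDerives.sum _ h0 fun u hu => k1 u w (fun h => ?_) r hr)
      · refine PCDerives.mul_poly (PCDerives.ax _ (IsoAxiom.col w)
          ((totalDegree_col K w).trans (by omega))) _ ?_
        have e1 := totalDegree_mul r (mon K c β)
        have e2 := totalDegree_col (V := V) K w
        omega
      · exact (Finset.mem_erase.1 hu).1 (huniq u v w h hw)
    by_cases hex : ∃ v, cand v = ∅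
    · obtain ⟨v, hv⟩ := hex
      have e : mon K c β = ∑ w : V', mon K c β * MvPolynomial.X (v, w) -
          mon K c β * (∑ w : V', MvPolynomial.X (v, w) - 1) := by
        rw [← Finset.mul_sum]
        ring
      rw [e]
      refine PCDerives.sub (PCDerives.sum _ h0 fun w _ => k1' v w (by rw [hv]; exact fun h => h)) ?_
      refine PCDerives.mul_poly (PCDerives.ax _ (IsoAxiom.row v)
        ((totalDegree_row K v).trans (by omega))) _ ?_
      have e1 := totalDegree_row (V' := V') K v
      omega
    · push Not at hex
      choose f hf using fun v => hex v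
      have hinj : Function.Injective f := fun u v h => huniq u v (f u) (hf u) (by
        rw [h]
        exact hf v)
      have hbij : Function.Bijective f :=
        (Fintype.bijective_iff_injective_and_card f).2 ⟨hinj, hcard⟩
      have hbad : ∃ x y, ¬ (G.Adj x y ↔ H.Adj (f x) (f y)) := by
        by_contra hcon
        push Not at hcon
        exact hiso.false ⟨Equiv.ofBijective f hbij, fun {x y} => (hcon x y).symm⟩
      obtain ⟨x, y, hxy⟩ := hbad
      have e : mon K c β = mon K c β * (MvPolynomial.X (x, f x) * MvPolynomial.X (y, f y)) -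
          MvPolynomial.X (y, f y) * (mon K c β * MvPolynomial.X (x, f x) - mon K c β) -
          1 * (mon K c β * MvPolynomial.X (y, f y) - mon K c β) := by
        ring
      rw [e]
      refine PCDerives.sub (PCDerives.sub ?_ (k2 x (f x) (hf x) _ (by rw [totalDegree_X])))
        (k2 y (f y) (hf y) 1 (by rw [totalDegree_one]; omega))
      refine PCDerives.mul_poly (PCDerives.ax _ (IsoAxiom.pair x y (f x) (f y) fun h => hxy h.2)
        ((totalDegree_XX K _ _).trans (by omega))) _ ?_
      have e1 := totalDegree_XX K (x, f x) (y, f y)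
      omega
  -- the sum of all monomials
  have hprod := (derives_prod K G H (List.ofFn c) (by rw [List.length_ofFn]; omega) h0).1
  rw [List.map_ofFn, List.prod_ofFn] at hprod
  have e1 : (∏ i, ((fun u => ∑ v : V', (MvPolynomial.X (u, v) : MvPolynomial (V × V') K)) ∘ c) i) =
      ∑ β : Fin b → V', mon K c β := by
    simp only [Function.comp_apply]
    rw [Finset.prod_univ_sum]
    simp only [Fintype.piFinset_univ]
    rfl
  rw [e1] at hprod
  have e2 : (1 : MvPolynomial (V × V') K) = ∑ β : Fin b → V', mon K c β -
      (∑ β : Fin b → V', mon K c β - 1) := by ring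
  unfold PCRefutes
  rw [e2]
  exact PCDerives.sub (PCDerives.sum _ h0 fun β _ => key β) hprod

theorem PCRefutes.pos {G : SimpleGraph V} {H : SimpleGraph V'} {d : ℕ} (h : PCRefutes ℝ G H d) :
    PosRefutes G H d := by
  refine ⟨0, Fin.elim0, fun i => i.elim0, ?_⟩
  have e : (1 : MvPolynomial (V × V') ℝ) + ∑ i : Fin 0,
      (Fin.elim0 i : MvPolynomial (V × V') ℝ) ^ 2 = 1 := by simp
  rw [e]
  exact h

end

end Pool.Agent.TH658.Sos
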