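import Pool.Agent.TH658.Sos.Pc
import Pool.Agent.TH658.Sos.Up
import Pool.Agent.W893.PR.Final

/-!
# The affine system of the pseudorandom graphs
-/

set_option autoImplicit false
set_option linter.unusedSectionVars false

namespace Pool.Agent.TH658.Sos

open Finset Pool.Agent.W893.PR

section

variable {N d : ℕ} (a : Fin N → F2 d)

theorem zmod2_self (x : ZMod 2) : x + x = 0 := by
  revert x
  decide

theorem ext_step {k : ℕ} (hI : Solvable a k) (s s' : Sym2 (Fin N) → ZMod 2)
    (J : Finset (Fin N)) (hJ : J.card ≤ k) (t : Fin N → F2 d)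
    (ht : ∀ i ∈ J, ∀ j ∈ J, PairOK a s s' t i j) (l : Fin N) :
    ∃ t' : Fin N → F2 d, (∀ i ∈ J, t' i = t i) ∧
      ∀ i ∈ insert l J, ∀ j ∈ insert l J, PairOK a s s' t' i j := by
  obtain ⟨t', h1, h2⟩ := exists_extension a hI s s' J hJ t ht
  refine ⟨t', h1, fun i hi j hj => ?_⟩
  rcases Finset.mem_insert.1 hj with rfl | hj
  · rcases Finset.mem_insert.1 hi with rfl | hi
    · intro h
      exact absurd rfl h
    · exact (h2 j i hi).symm a
  · exact h2 i j hj

theorem ext_to {k : ℕ} (hI : Solvable a k) (s s' : Sym2 (Fin N) → ZMod 2)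
    (J : Finset (Fin N)) (t : Fin N → F2 d)
    (ht : ∀ i ∈ J, ∀ j ∈ J, PairOK a s s' t i j) (T : Finset (Fin N))
    (hT : (J ∪ T).card ≤ k) :
    ∃ t' : Fin N → F2 d, (∀ i ∈ J, t' i = t i) ∧
      ∀ i ∈ J ∪ T, ∀ j ∈ J ∪ T, PairOK a s s' t' i j := by
  classical
  induction T using Finset.induction_on with
  | empty =>
    refine ⟨t, fun i _ => rfl, ?_⟩
    rw [Finset.union_empty]
    exact ht
  | insert l T hl ih =>
    have h1 : J ∪ insert l T = insert l (J ∪ T) := by
      rw [Finset.union_insert]
    have h2 : (J ∪ T).card ≤ k := by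
      refine le_trans (Finset.card_le_card ?_) hT
      rw [h1]
      exact Finset.subset_insert _ _
    obtain ⟨t', h3, h4⟩ := ih h2
    obtain ⟨t'', h5, h6⟩ := ext_step a hI s s' (J ∪ T) h2 t' h4 l
    refine ⟨t'', fun i hi => ?_, ?_⟩
    · rw [h5 i (Finset.mem_union_left _ hi), h3 i hi]
    · rw [h1]
      exact h6

/-- The left hand side of the equation of a pair. -/
def lhs (i j : Fin N) (t : Fin N → F2 d) : ZMod 2 := a j ⬝ᵥ t i + a i ⬝ᵥ t j

theorem lhs_add (i j : Fin N) (t t' : Fin N → F2 d) :
    lhs a i j (t + t') = lhs a i j t + lhs a i j t' := by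
  unfold lhs
  rw [Pi.add_apply, Pi.add_apply, dotProduct_add, dotProduct_add]
  ring

theorem lhs_zero (i j : Fin N) : lhs a i j (0 : Fin N → F2 d) = 0 := by
  unfold lhs
  rw [Pi.zero_apply, Pi.zero_apply, dotProduct_zero, dotProduct_zero, add_zero]

theorem lhs_neg (i j : Fin N) (t : Fin N → F2 d) : lhs a i j (-t) = - lhs a i j t := by
  have h := lhs_add a i j (-t) t
  rw [neg_add_cancel, lhs_zero] at h
  exact eq_neg_of_add_eq_zero_left h.symm

/-- The system of the equations of the pairs of fibres. -/
def prSys {k : ℕ} (hI : Solvable a k) (s s' : Sym2 (Fin N) → ZMod 2) :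
    Sys (Fin N → F2 d) (Finset (Fin N)) where
  N J :=
    { carrier := {t | ∀ i ∈ J, t i = 0}
      add_mem' := fun {t t'} h h' i hi => by
        rw [Pi.add_apply, h i hi, h' i hi, add_zero]
      zero_mem' := fun i _ => rfl
      neg_mem' := fun {t} h i hi => by
        rw [Pi.neg_apply, h i hi, neg_zero] }
  D J :=
    { carrier := {t | ∀ i ∈ J, ∀ j ∈ J, i ≠ j → lhs a i j t = 0}
      add_mem' := fun {t t'} h h' i hi j hj hij => by
        rw [lhs_add, h i hi j hj hij, h' i hi j hj hij, add_zero]
      zero_mem' := fun i _ j _ _ => lhs_zero a i j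
      neg_mem' := fun {t} h i hi j hj hij => by
        rw [lhs_neg, h i hi j hj hij, neg_zero] }
  Sol J := {t | ∀ i ∈ J, ∀ j ∈ J, PairOK a s s' t i j}
  size J := J.card
  K := k
  N_anti W W' h t ht i hi := ht i (h hi)
  D_anti W W' h t ht i hi j hj hij := ht i (h hi) j (h hj) hij
  Sol_anti W W' h t ht i hi j hj := ht i (h hi) j (h hj)
  sol_iff W M M' hM := by
    have h1 : ∀ i j, lhs a i j M' = lhs a i j (M' - M) + lhs a i j M := by
      intro i j
      rw [← lhs_add, sub_add_cancel]
    constructor
    · intro hM' i hi j hj hij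
      have h2 : lhs a i j M' = _ := hM' i hi j hj hij
      have h3 : lhs a i j M = _ := hM i hi j hj hij
      have h4 := h1 i j
      rw [h2, h3] at h4
      exact (add_eq_right.1 h4.symm)
    · intro h i hi j hj hij
      have h3 : lhs a i j M = _ := hM i hi j hj hij
      have h4 := h1 i j
      have h5 : lhs a i j (M' - M) = 0 := h i hi j hj hij
      rw [h5, zero_add, h3] at h4
      exact h4
  size_bot := Finset.card_empty
  size_sup W W' := Finset.card_union_le W W'
  nonempty W hW := by
    obtain ⟨t', -, h2⟩ := ext_to a hI s s' ∅ 0 (fun i hi => absurd hi (Finset.notMem_empty i)) W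
      (by rwa [Finset.empty_union])
    rw [Finset.empty_union] at h2
    exact ⟨t', h2⟩
  extend W W' h hW' M hM := by
    have h1 : W ∪ W' = W' := Finset.union_eq_right.2 h
    obtain ⟨t', h2, h3⟩ := ext_to a hI s s' W M hM W' (by rwa [h1])
    rw [h1] at h3
    exact ⟨t', h3, fun i hi => by rw [Pi.sub_apply, h2 i hi, sub_self]⟩

variable {R : Finset (F2 d)}

/-- The level of a vertex. -/
def plv : VT N d R → Finset (Fin N)
  | Sum.inl p => {p.1}
  | Sum.inr _ => ∅

/-- The gauge transformations. -/
def prAct {k : ℕ} (hI : Solvable a k) (s s' : Sym2 (Fin N) → ZMod 2) :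
    Act (prSys a hI s s') (FG a R s) (FG a R s') where
  b := shift
  lv := plv
  lv' := plv
  c := 1
  inv M n u hn := by
    rcases u with p | z
    · have h1 : n p.1 = 0 := hn p.1 (Finset.mem_singleton_self _)
      rw [shift_inl, shift_inl, Pi.add_apply, h1, add_zero]
    · rfl
  lev M u := by
    rcases u with p | z
    · rfl
    · rfl
  size u := by
    rcases u with p | z
    · exact le_of_eq (Finset.card_singleton p.1)
    · exact (le_of_eq (Finset.card_empty (α := Fin N))).trans (Nat.zero_le 1)
  iso u u' M hM := by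
    refine adj_shift a s s' M u u' fun i j hi hj hij => ?_
    refine hM i ?_ j ?_ hij
    · rcases u with p | z
      · have h1 : p.1 = i := Option.some.inj hi
        subst h1
        exact Finset.mem_union_left _ (Finset.mem_singleton_self _)
      · exact absurd hi (by simp [fib])
    · rcases u' with p | z
      · have h1 : p.1 = j := Option.some.inj hj
        subst h1
        exact Finset.mem_union_right _ (Finset.mem_singleton_self _)
      · exact absurd hj (by simp [fib])

end

end Pool.Agent.TH658.Sos
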