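import Pool.Agent.TH658.Sos.Sys

/-!
# Local averages form a positive semidefinite matrix
-/

set_option autoImplicit false
set_option linter.unusedSectionVars false

namespace Pool.Agent.TH658.Sos

open Finset ComplexConjugate

/-- A matrix that is a rank one matrix on each class of an equivalence relation and zero elsewhere
is positive semidefinite. -/
theorem psd_of_classes {T : Type} [Fintype T] (s : Setoid T) (g : T → T → ℂ)
    (h0 : ∀ x y, ¬ s x y → g x y = 0)
    (h1 : ∀ x y z, s x y → s y z → g x z = g x y * g y z)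
    (h2 : ∀ x y, s x y → g y x = conj (g x y)) (b : T → ℂ) :
    0 ≤ (∑ x, ∑ y, b x * conj (b y) * g x y).re := by
  classical
  let rep : T → T := fun x => (Quotient.out (Quotient.mk s x))
  have hrep : ∀ x, s x (rep x) := fun x => Setoid.symm' s (Quotient.mk_out (s := s) x)
  have hrep2 : ∀ x y, s x y → rep x = rep y := fun x y h => by
    show Quotient.out _ = Quotient.out _
    rw [Quotient.sound (s := s) h]
  let u : T → ℂ := fun x => b x * g x (rep x)
  have h3 : ∀ x y, b x * conj (b y) * g x y =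
      ∑ q : Quotient s, (if Quotient.mk s x = q then u x else 0) *
        conj (if Quotient.mk s y = q then u y else 0) := by
    intro x y
    have h5 : ∀ q : Quotient s, (if Quotient.mk s x = q then u x else 0) *
        conj (if Quotient.mk s y = q then u y else 0) =
        if Quotient.mk s x = q then
          (u x * conj (if Quotient.mk s y = Quotient.mk s x then u y else 0)) else 0 := by
      intro q
      by_cases hq : Quotient.mk s x = q
      · subst hq
        simp
      · simp [hq]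
    rw [Finset.sum_congr rfl fun q _ => h5 q, Finset.sum_ite_eq]
    simp only [Finset.mem_univ, if_true]
    by_cases h : s x y
    · have e1 : Quotient.mk s y = Quotient.mk s x := (Quotient.sound (s := s) h).symm
      rw [if_pos e1]
      have e2 : rep y = rep x := (hrep2 x y h).symm
      show _ = b x * g x (rep x) * conj (b y * g y (rep y))
      rw [e2]
      have e3 : s y (rep x) := by
        rw [← e2]
        exact hrep y
      have e4 : s (rep x) y := Setoid.symm' s e3
      rw [h1 x (rep x) y (hrep x) e4, h2 y (rep x) e3, map_mul]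
      ring
    · have e1 : Quotient.mk s y ≠ Quotient.mk s x := fun e =>
        h (Setoid.symm' s (Quotient.exact e))
      rw [if_neg e1, map_zero, mul_zero, h0 x y h, mul_zero]
  have h4 : (∑ x, ∑ y, b x * conj (b y) * g x y) =
      ∑ q : Quotient s, ((∑ x, if Quotient.mk s x = q then u x else 0) *
        conj (∑ x, if Quotient.mk s x = q then u x else 0)) := by
    simp only [h3]
    rw [Finset.sum_congr rfl fun x _ => Finset.sum_comm]
    rw [Finset.sum_comm]
    refine Finset.sum_congr rfl fun q _ => ?_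
    rw [map_sum, Finset.sum_mul_sum]
  rw [h4, Complex.re_sum]
  refine Finset.sum_nonneg fun q _ => ?_
  rw [Complex.mul_conj, Complex.ofReal_re]
  exact Complex.normSq_nonneg _

section

variable {X L : Type} [AddCommGroup X] [Fintype X] [SemilatticeSup L] [OrderBot L]

theorem cardX_ne : (Fintype.card X : ℂ) ≠ 0 :=
  Nat.cast_ne_zero.2 Fintype.card_ne_zero

/-- Expansion of a function that is invariant under translations in characters that are trivial on
these translations. -/
theorem expand (N : AddSubgroup X) (F : X → ℂ) (hF : ∀ x, ∀ n ∈ N, F (x + n) = F x) :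
    ∃ a : AddChar X ℂ → ℂ, (∀ ψ, a ψ ≠ 0 → ∀ n ∈ N, ψ n = 1) ∧
      ∀ x, F x = ∑ ψ, a ψ * ψ x := by
  classical
  let c : AddChar X ℂ → ℂ := fun ψ => (AddChar.complexBasis X).repr F ψ
  have hc : ∀ x, F x = ∑ ψ, c ψ * ψ x := by
    intro x
    have h1 := (AddChar.complexBasis X).sum_repr F
    have h2 := congrFun h1 x
    rw [Finset.sum_apply] at h2
    rw [← h2]
    refine Finset.sum_congr rfl fun ψ _ => ?_
    rw [Pi.smul_apply, smul_eq_mul, AddChar.complexBasis_apply]
  refine ⟨fun ψ => c ψ * avgD N (fun x => ψ x), ?_, ?_⟩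
  · intro ψ hψ n hn
    by_contra hne
    apply hψ
    show c ψ * avgD N (fun x => ψ x) = 0
    rw [avgD_char_zero N ψ hn hne, mul_zero]
  · intro x
    have h1 : avgD N (fun n => F (x + n)) = F x := by
      rw [avgD_congr N (fun n hn => hF x n hn), avgD_const cardX_ne]
    rw [← h1]
    have h2 : (fun n => F (x + n)) = fun n => ∑ ψ : AddChar X ℂ, (c ψ * ψ x) * ψ n := by
      funext n
      rw [hc]
      refine Finset.sum_congr rfl fun ψ _ => ?_
      rw [AddChar.map_add_eq_mul]
      ring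
    rw [h2, avgD_sum]
    refine Finset.sum_congr rfl fun ψ _ => ?_
    rw [avgD_smul]
    ring

theorem avgD_ofReal (D : AddSubgroup X) (F : X → ℝ) :
    ((avgD D F : ℝ) : ℂ) = avgD D (fun x => (F x : ℂ)) := by
  unfold avgD
  push_cast
  rfl

namespace Sys

variable (S : Sys X L)

theorem avg_ofReal (W : L) (F : X → ℝ) :
    ((S.avg W F : ℝ) : ℂ) = S.avg W (fun x => (F x : ℂ)) := avgD_ofReal _ _

/-- The average of the product of a character with the conjugate of a character. -/
noncomputable def gg (W W' : L) (ψ φ : AddChar X ℂ) : ℂ :=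
  S.avg (W ⊔ W') (fun x => (ψ - φ) x)

theorem char_ne_zero (φ : AddChar X ℂ) (x : X) : φ x ≠ 0 := by
  intro h
  have h1 : φ (x + -x) = 1 := by rw [add_neg_cancel, AddChar.map_zero_eq_one]
  rw [AddChar.map_add_eq_mul, h, zero_mul] at h1
  exact zero_ne_one h1

theorem sub_char (ψ φ : AddChar X ℂ) (x : X) : (ψ - φ) x = ψ x * conj (φ x) := by
  rw [AddChar.sub_apply', ← AddChar.map_neg_eq_conj, AddChar.map_neg_eq_inv, div_eq_mul_inv]

theorem gg_eq {W W' : L} {ψ φ : AddChar X ℂ} (h : ∀ z ∈ S.D (W ⊔ W'), ψ z = φ z) {M : X}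
    (hM : M ∈ S.Sol (W ⊔ W')) : S.gg W W' ψ φ = ψ M * conj (φ M) := by
  have h1 : ∀ z ∈ S.D (W ⊔ W'), (ψ - φ) z = 1 := by
    intro z hz
    rw [AddChar.sub_apply', h z hz, div_self]
    exact char_ne_zero φ z
  unfold gg
  rw [S.avg_char cardX_ne _ _ h1, ← sub_char]
  have h2 : S.pt (W ⊔ W') ∈ S.Sol (W ⊔ W') := S.pt_mem ⟨M, hM⟩
  have h3 := h1 _ ((S.sol_iff _ _ _ hM).1 h2)
  have h4 : S.pt (W ⊔ W') = (S.pt (W ⊔ W') - M) + M := by abel
  rw [h4, AddChar.map_add_eq_mul, h3, one_mul]

theorem gg_zero {W W' : L} {ψ φ : AddChar X ℂ} (h : ¬ ∀ z ∈ S.D (W ⊔ W'), ψ z = φ z) :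
    S.gg W W' ψ φ = 0 := by
  push Not at h
  obtain ⟨z, hz, hne⟩ := h
  refine S.avg_char_zero _ _ hz ?_
  rw [AddChar.sub_apply']
  intro h1
  exact hne ((div_eq_one_iff_eq (char_ne_zero φ z)).1 h1)

/-- Local averages are positive semidefinite. -/
theorem psd {I : Type} [Fintype I] (W : I → L) (r : ℕ) (hr : ∀ i, S.size (W i) ≤ r)
    (hK : 3 * r ≤ S.K) (F : I → X → ℝ) (hF : ∀ i x, ∀ n ∈ S.N (W i), F i (x + n) = F i x) :
    0 ≤ ∑ i, ∑ j, S.avg (W i ⊔ W j) (fun x => F i x * F j x) := by
  classical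
  choose a ha1 ha2 using fun i => expand (S.N (W i)) (fun x => (F i x : ℂ))
    (fun x n hn => by rw [hF i x n hn])
  let T := {x : I × AddChar X ℂ // ∀ n ∈ S.N (W x.1), x.2 n = 1}
  let g : T → T → ℂ := fun x y => S.gg (W x.1.1) (W y.1.1) x.1.2 y.1.2
  have hsz2 : ∀ i j, S.size (W i ⊔ W j) ≤ 2 * r := fun i j => by
    have := S.size_sup (W i) (W j)
    have := hr i
    have := hr j
    omega
  have hsz3 : ∀ i j k, S.size (W i ⊔ W j ⊔ W k) ≤ S.K := fun i j k => by
    have := S.size_sup (W i ⊔ W j) (W k)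
    have := hsz2 i j
    have := hr k
    omega
  have hR : Equivalence (fun x y : T => ∀ z ∈ S.D (W x.1.1 ⊔ W y.1.1), x.1.2 z = y.1.2 z) := by
    refine ⟨fun x z _ => rfl, fun {x y} h z hz => ?_, fun {x y w} h1 h2 z hz => ?_⟩
    · rw [sup_comm] at hz
      exact (h z hz).symm
    · obtain ⟨z', hz', hn⟩ := S.cover (W := W x.1.1 ⊔ W w.1.1)
        (W' := W x.1.1 ⊔ W y.1.1 ⊔ W w.1.1)
        (sup_le (le_sup_left.trans le_sup_left) le_sup_right) (hsz3 _ _ _) z hz
      have e1 : x.1.2 z = x.1.2 z' := by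
        have h3 := x.2 _ (S.N_anti _ _ le_sup_left hn)
        have h4 : z = (z - z') + z' := by abel
        rw [h4, AddChar.map_add_eq_mul, h3, one_mul]
      have e2 : w.1.2 z = w.1.2 z' := by
        have h3 := w.2 _ (S.N_anti _ _ le_sup_right hn)
        have h4 : z = (z - z') + z' := by abel
        rw [h4, AddChar.map_add_eq_mul, h3, one_mul]
      rw [e1, e2, h1 z' (S.D_anti _ _ le_sup_left hz'),
        h2 z' (S.D_anti _ _ (sup_le (le_sup_right.trans le_sup_left) le_sup_right) hz')]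
  let s : Setoid T := ⟨_, hR⟩
  have hs : ∀ x y : T, s x y ↔ ∀ z ∈ S.D (W x.1.1 ⊔ W y.1.1), x.1.2 z = y.1.2 z :=
    fun x y => Iff.rfl
  have key := psd_of_classes s g (fun x y h => S.gg_zero h)
    (fun x y w h1 h2 => by
      obtain ⟨M, hM⟩ := S.nonempty _ (hsz3 x.1.1 y.1.1 w.1.1)
      have h3 : s x w := Setoid.trans' s h1 h2
      show S.gg _ _ _ _ = S.gg _ _ _ _ * S.gg _ _ _ _
      rw [S.gg_eq h1 (S.Sol_anti _ _ le_sup_left hM),
        S.gg_eq h2 (S.Sol_anti _ _ (sup_le (le_sup_right.trans le_sup_left) le_sup_right) hM),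
        S.gg_eq h3 (S.Sol_anti _ _ (sup_le (le_sup_left.trans le_sup_left) le_sup_right) hM)]
      have h4 : conj (y.1.2 M) * y.1.2 M = 1 := by
        rw [← AddChar.map_neg_eq_conj, ← AddChar.map_add_eq_mul, neg_add_cancel,
          AddChar.map_zero_eq_one]
      calc x.1.2 M * conj (w.1.2 M) = x.1.2 M * (conj (y.1.2 M) * y.1.2 M) * conj (w.1.2 M) := by
            rw [h4, mul_one]
        _ = _ := by ring)
    (fun x y h => by
      obtain ⟨M, hM⟩ := S.nonempty (W x.1.1 ⊔ W y.1.1) (by
        have := hsz2 x.1.1 y.1.1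
        omega)
      have h3 : s y x := Setoid.symm' s h
      show S.gg _ _ _ _ = conj (S.gg _ _ _ _)
      rw [S.gg_eq h hM, S.gg_eq h3 (by rwa [sup_comm]), map_mul, Complex.conj_conj]
      ring)
    (fun x => a x.1.1 x.1.2)
  have hsum : ((∑ i, ∑ j, S.avg (W i ⊔ W j) (fun x => F i x * F j x) : ℝ) : ℂ) =
      ∑ x : T, ∑ y : T, a x.1.1 x.1.2 * conj (a y.1.1 y.1.2) * g x y := by
    have e1 : ∀ i j, ((S.avg (W i ⊔ W j) (fun x => F i x * F j x) : ℝ) : ℂ) =
        ∑ ψ : AddChar X ℂ, ∑ φ : AddChar X ℂ, a i ψ * conj (a j φ) * S.gg (W i) (W j) ψ φ := by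
      intro i j
      rw [avg_ofReal]
      have e2 : (fun x => ((F i x * F j x : ℝ) : ℂ)) = fun x =>
          ∑ ψ : AddChar X ℂ, ∑ φ : AddChar X ℂ, (a i ψ * conj (a j φ)) * (ψ - φ) x := by
        funext x
        have e3 : ((F j x : ℝ) : ℂ) = conj ((F j x : ℝ) : ℂ) := (Complex.conj_ofReal _).symm
        rw [Complex.ofReal_mul, e3, ha2 i x, ha2 j x, map_sum, Finset.sum_mul_sum]
        refine Finset.sum_congr rfl fun ψ _ => Finset.sum_congr rfl fun φ _ => ?_
        rw [sub_char, map_mul]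
        ring
      rw [e2, avg_sum]
      refine Finset.sum_congr rfl fun ψ _ => ?_
      rw [avg_sum]
      refine Finset.sum_congr rfl fun φ _ => ?_
      rw [avg_smul]
      rfl
    push_cast
    simp only [e1]
    have e4 : ∀ f : (I × AddChar X ℂ) → ℂ,
        (∀ x, (¬ ∀ n ∈ S.N (W x.1), x.2 n = 1) → f x = 0) → ∑ x, f x = ∑ x : T, f x.1 := by
      intro f hf
      have h5 : ∑ x, f x = ∑ x ∈ Finset.univ.filter
          (fun x : I × AddChar X ℂ => ∀ n ∈ S.N (W x.1), x.2 n = 1), f x := by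
        rw [Finset.sum_filter]
        refine Finset.sum_congr rfl fun x _ => ?_
        by_cases h : ∀ n ∈ S.N (W x.1), x.2 n = 1
        · rw [if_pos h]
        · rw [if_neg h, hf x h]
      rw [h5]
      exact Finset.sum_subtype _ (fun x => by simp) f
    calc ∑ i, ∑ j, ∑ ψ : AddChar X ℂ, ∑ φ : AddChar X ℂ,
          a i ψ * conj (a j φ) * S.gg (W i) (W j) ψ φ =
        ∑ i, ∑ ψ : AddChar X ℂ, ∑ j, ∑ φ : AddChar X ℂ,
          a i ψ * conj (a j φ) * S.gg (W i) (W j) ψ φ :=
          Finset.sum_congr rfl fun i _ => Finset.sum_comm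
      _ = ∑ x : I × AddChar X ℂ, ∑ y : I × AddChar X ℂ,
          a x.1 x.2 * conj (a y.1 y.2) * S.gg (W x.1) (W y.1) x.2 y.2 := by
          simp only [Fintype.sum_prod_type]
      _ = ∑ x : T, ∑ y : I × AddChar X ℂ,
          a x.1.1 x.1.2 * conj (a y.1 y.2) * S.gg (W x.1.1) (W y.1) x.1.2 y.2 := by
          refine e4 _ fun x hx => Finset.sum_eq_zero fun y _ => ?_
          have h6 : a x.1 x.2 = 0 := by
            by_contra h7
            exact hx (ha1 _ _ h7)
          rw [h6, zero_mul, zero_mul]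
      _ = _ := by
          refine Finset.sum_congr rfl fun x _ => ?_
          refine e4 _ fun y hy => ?_
          have h6 : a y.1 y.2 = 0 := by
            by_contra h7
            exact hy (ha1 _ _ h7)
          rw [h6, map_zero, mul_zero, zero_mul]
  have hre := congrArg Complex.re hsum
  rw [Complex.ofReal_re] at hre
  rw [hre]
  exact key

end Sys

end

end Pool.Agent.TH658.Sos
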