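import Mathlib

/-!
# Locally consistent affine systems and their averages
-/

set_option autoImplicit false
set_option linter.unusedSectionVars false

namespace Pool.Agent.TH658.Sos

open Finset

section avg

variable {X K : Type} [AddCommGroup X] [Fintype X] [Field K]

open Classical in
/-- The average of a function over a subgroup. -/
noncomputable def avgD (D : AddSubgroup X) (F : X → K) : K :=
  (∑ z : D, F z) / (Fintype.card D : K)

theorem card_ne (hX : (Fintype.card X : K) ≠ 0) (D : AddSubgroup X) [Fintype D] :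
    (Fintype.card D : K) ≠ 0 := by
  intro h
  apply hX
  have h1 : Nat.card D ∣ Nat.card X := AddSubgroup.card_addSubgroup_dvd_card D
  rw [Nat.card_eq_fintype_card, Nat.card_eq_fintype_card] at h1
  obtain ⟨c, hc⟩ := h1
  rw [hc, Nat.cast_mul, h, zero_mul]

theorem avgD_const (hX : (Fintype.card X : K) ≠ 0) (D : AddSubgroup X) (c : K) :
    avgD D (fun _ : X => c) = c := by
  classical
  unfold avgD
  rw [Finset.sum_const, Finset.card_univ, nsmul_eq_mul, mul_div_cancel_left₀]
  exact card_ne hX D

theorem avgD_add (D : AddSubgroup X) (F G : X → K) :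
    avgD D (fun x => F x + G x) = avgD D F + avgD D G := by
  unfold avgD
  rw [Finset.sum_add_distrib, add_div]

theorem avgD_smul (D : AddSubgroup X) (c : K) (F : X → K) :
    avgD D (fun x => c * F x) = c * avgD D F := by
  unfold avgD
  rw [← Finset.mul_sum, mul_div_assoc]

theorem avgD_sum {ι : Type} (s : Finset ι) (D : AddSubgroup X) (F : ι → X → K) :
    avgD D (fun x => ∑ i ∈ s, F i x) = ∑ i ∈ s, avgD D (F i) := by
  unfold avgD
  rw [Finset.sum_comm, Finset.sum_div]

theorem avgD_shift (D : AddSubgroup X) (F : X → K) {z : X} (hz : z ∈ D) :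
    avgD D (fun x => F (z + x)) = avgD D F := by
  classical
  unfold avgD
  congr 1
  exact Fintype.sum_equiv (Equiv.addLeft (⟨z, hz⟩ : D)) _ _ fun x => rfl

theorem avgD_congr (D : AddSubgroup X) {F G : X → K} (h : ∀ z ∈ D, F z = G z) :
    avgD D F = avgD D G := by
  unfold avgD
  congr 1
  exact Finset.sum_congr rfl fun z _ => h z z.2

/-- Averages over two subgroups agree if the smaller one covers the larger one modulo the
translations under which the function is invariant. -/
theorem avgD_eq (hX : (Fintype.card X : K) ≠ 0) (D D' N : AddSubgroup X) (hD : D' ≤ D)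
    (hcov : ∀ z ∈ D, ∃ z' ∈ D', z - z' ∈ N) (F : X → K)
    (hF : ∀ x, ∀ n ∈ N, F (x + n) = F x) : avgD D F = avgD D' F := by
  classical
  -- average over `D` of the average over `D'` of the translates
  have h1 : avgD D (fun z => avgD D' fun z' => F (z' + z)) = avgD D F := by
    have h2 : (fun z => avgD D' fun z' => F (z' + z)) =
        fun z => (1 / (Fintype.card D' : K)) * ∑ z' : D', F (z' + z) := by
      funext z
      unfold avgD
      ring
    rw [h2, avgD_smul, avgD_sum]
    have h3 : ∀ z' : D', avgD D (fun z => F (z' + z)) = avgD D F := fun z' =>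
      avgD_shift D F (hD z'.2)
    rw [Finset.sum_congr rfl fun z' _ => h3 z', Finset.sum_const, Finset.card_univ, nsmul_eq_mul]
    rw [one_div, inv_mul_cancel_left₀ (card_ne hX D')]
  have h4 : avgD D (fun z => avgD D' fun z' => F (z' + z)) = avgD D (fun _ => avgD D' F) := by
    refine avgD_congr D fun z hz => ?_
    obtain ⟨w, hw, hn⟩ := hcov z hz
    rw [← avgD_shift D' F hw]
    refine avgD_congr D' fun z' _ => ?_
    have h5 : z' + z = (w + z') + (z - w) := by abel
    rw [h5, hF _ _ hn]
  rw [← h1, h4, avgD_const hX]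

theorem avgD_char (hX : (Fintype.card X : K) ≠ 0) (D : AddSubgroup X) (ψ : AddChar X K)
    (h : ∀ z ∈ D, ψ z = 1) : avgD D (fun x => ψ x) = 1 := by
  rw [avgD_congr D h, avgD_const hX]

theorem avgD_char_zero (D : AddSubgroup X) (ψ : AddChar X K) {z : X} (hz : z ∈ D)
    (h : ψ z ≠ 1) : avgD D (fun x => ψ x) = 0 := by
  have h1 := avgD_shift D (fun x => ψ x) hz
  have h2 : (fun x => ψ (z + x)) = fun x => ψ z * ψ x := by
    funext x
    rw [AddChar.map_add_eq_mul]
  rw [h2, avgD_smul] at h1
  have h3 : (ψ z - 1) * avgD D (fun x => ψ x) = 0 := by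
    rw [sub_mul, h1, one_mul, sub_self]
  rcases mul_eq_zero.1 h3 with h4 | h4
  · exact absurd (sub_eq_zero.1 h4) h
  · exact h4

end avg

/-- A system of affine conditions on the elements of `X` indexed by levels.

`N W`: the translations that are not seen at level `W`; `Sol W`: the solutions of the conditions
of level `W`, a coset of `D W` if there are any. At levels of size at most `K` there are solutions,
and solutions of a lower level agree, as far as is seen on this level, with solutions of the higher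
level. -/
structure Sys (X L : Type) [AddCommGroup X] [SemilatticeSup L] [OrderBot L] where
  /-- invisible translations -/
  N : L → AddSubgroup X
  /-- directions of solutions -/
  D : L → AddSubgroup X
  /-- solutions -/
  Sol : L → Set X
  /-- size of a level -/
  size : L → ℕ
  /-- bound for the size -/
  K : ℕ
  N_anti : ∀ W W', W ≤ W' → N W' ≤ N W
  D_anti : ∀ W W', W ≤ W' → D W' ≤ D W
  Sol_anti : ∀ W W', W ≤ W' → Sol W' ⊆ Sol W
  sol_iff : ∀ W M M', M ∈ Sol W → (M' ∈ Sol W ↔ M' - M ∈ D W)
  size_bot : size ⊥ = 0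
  size_sup : ∀ W W', size (W ⊔ W') ≤ size W + size W'
  nonempty : ∀ W, size W ≤ K → (Sol W).Nonempty
  extend : ∀ W W', W ≤ W' → size W' ≤ K → ∀ M ∈ Sol W, ∃ M' ∈ Sol W', M' - M ∈ N W

namespace Sys

variable {X L : Type} [AddCommGroup X] [SemilatticeSup L] [OrderBot L] (S : Sys X L)

theorem cover {W W' : L} (h : W ≤ W') (hK : S.size W' ≤ S.K) :
    ∀ z ∈ S.D W, ∃ z' ∈ S.D W', z - z' ∈ S.N W := by
  intro z hz
  obtain ⟨M, hM⟩ := S.nonempty W' hK
  have hMW : M ∈ S.Sol W := S.Sol_anti W W' h hM
  obtain ⟨M', hM', hn⟩ := S.extend W W' h hK (M + z) ((S.sol_iff W M _ hMW).2 (by simpa using hz))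
  refine ⟨M' - M, (S.sol_iff W' M M' hM).1 hM', ?_⟩
  have h1 : z - (M' - M) = -(M' - (M + z)) := by abel
  rw [h1]
  exact (S.N W).neg_mem hn

open Classical in
/-- A solution of level `W`. -/
noncomputable def pt (W : L) : X := if h : (S.Sol W).Nonempty then h.some else 0

theorem pt_mem {W : L} (h : (S.Sol W).Nonempty) : S.pt W ∈ S.Sol W := by
  unfold pt
  rw [dif_pos h]
  exact h.some_mem

variable [Fintype X] {K : Type} [Field K]

/-- The average of a function over the solutions of level `W`. -/
noncomputable def avg (W : L) (F : X → K) : K := avgD (S.D W) fun z => F (S.pt W + z)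

theorem avg_eq_of_mem {W : L} {M : X} (hM : M ∈ S.Sol W) (F : X → K) :
    S.avg W F = avgD (S.D W) fun z => F (M + z) := by
  have h1 : S.pt W ∈ S.Sol W := S.pt_mem ⟨M, hM⟩
  have h2 : S.pt W - M ∈ S.D W := (S.sol_iff W M _ hM).1 h1
  have h3 := avgD_shift (S.D W) (fun z => F (M + z)) h2
  rw [← h3]
  unfold avg
  refine avgD_congr _ fun z _ => ?_
  congr 1
  abel

theorem avg_congr {W : L} (hW : (S.Sol W).Nonempty) {F G : X → K}
    (h : ∀ M ∈ S.Sol W, F M = G M) : S.avg W F = S.avg W G := by
  unfold avg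
  refine avgD_congr _ fun z hz => h _ ?_
  rw [S.sol_iff W (S.pt W) _ (S.pt_mem hW)]
  simpa using hz

theorem avg_add (W : L) (F G : X → K) :
    S.avg W (fun x => F x + G x) = S.avg W F + S.avg W G := avgD_add _ _ _

theorem avg_smul (W : L) (c : K) (F : X → K) :
    S.avg W (fun x => c * F x) = c * S.avg W F := avgD_smul _ _ _

theorem avg_sum {ι : Type} (s : Finset ι) (W : L) (F : ι → X → K) :
    S.avg W (fun x => ∑ i ∈ s, F i x) = ∑ i ∈ s, S.avg W (F i) := avgD_sum s _ _

theorem avg_zero (W : L) : S.avg W (fun _ => (0 : K)) = 0 := by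
  have h := S.avg_smul W (0 : K) (fun _ => (0 : K))
  simpa using h

theorem avg_one (hX : (Fintype.card X : K) ≠ 0) (W : L) : S.avg W (fun _ => (1 : K)) = 1 :=
  avgD_const hX _ _

/-- Averages do not depend on the level. -/
theorem avg_level (hX : (Fintype.card X : K) ≠ 0) {W W' : L} (h : W ≤ W')
    (hK : S.size W' ≤ S.K) (F : X → K) (hF : ∀ x, ∀ n ∈ S.N W, F (x + n) = F x) :
    S.avg W F = S.avg W' F := by
  have h1 : S.pt W' ∈ S.Sol W' := S.pt_mem (S.nonempty W' hK)
  rw [S.avg_eq_of_mem (S.Sol_anti W W' h h1), S.avg_eq_of_mem h1]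
  refine avgD_eq hX _ _ (S.N W) (S.D_anti W W' h) (S.cover h hK) _ fun x n hn => ?_
  rw [← add_assoc, hF _ _ hn]

theorem avg_char (hX : (Fintype.card X : K) ≠ 0) (W : L) (ψ : AddChar X K)
    (h : ∀ z ∈ S.D W, ψ z = 1) : S.avg W (fun x => ψ x) = ψ (S.pt W) := by
  unfold avg
  have h1 : (fun z => ψ (S.pt W + z)) = fun z => ψ (S.pt W) * ψ z := by
    funext z
    rw [AddChar.map_add_eq_mul]
  rw [h1, avgD_smul, avgD_char hX _ _ h, mul_one]

theorem avg_char_zero (W : L) (ψ : AddChar X K) {z : X} (hz : z ∈ S.D W) (h : ψ z ≠ 1) :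
    S.avg W (fun x => ψ x) = 0 := by
  unfold avg
  have h1 : (fun z => ψ (S.pt W + z)) = fun z => ψ (S.pt W) * ψ z := by
    funext z
    rw [AddChar.map_add_eq_mul]
  rw [h1, avgD_smul, avgD_char_zero _ _ hz h, mul_zero]

end Sys

end Pool.Agent.TH658.Sos
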